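import Pool.Agent.Helper542.RK.Defs

set_option autoImplicit false

namespace Pool.Agent.Helper542.RK

open Finset

/-- histories: moves `a` of A with the replies of D -/
abbrev Hist := List (ℕ × Option ℕ)

/-- data kept by D: amounts (index `x`: the pair `(n, m)` means `n / (m+1)`) and
zone-counted tokens (triples `(i, q, x)`) -/
abbrev Dt := List (ℕ × ℕ) × List (ℕ × ℕ × ℕ)

/-- replies -/
def Mlist (h : Hist) : List ℕ := h.filterMap Prod.snd

/-- step of the tokens played since the last reply, with the record of `x` -/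
def ustep (x : ℕ) (s : List ℕ × ℕ) (ar : ℕ × Option ℕ) : List ℕ × ℕ :=
  match ar.2 with
  | none => (ar.1 :: s.1, s.2)
  | some e => ([], if x ∈ ar.1 :: s.1 then e else min s.2 e)

def uz (h : Hist) (x : ℕ) : List ℕ × ℕ := h.foldl (ustep x) ([], 0)

/-- tokens played since the last reply -/
def Ulist (h : Hist) : List ℕ := (uz h 0).1

/-- record of `x` -/
def zOf (h : Hist) (x : ℕ) : ℕ := (uz h x).2

def alOf (l : List (ℕ × ℕ)) (x : ℕ) : ℚ := ((l.getD x (0, 0)).1 : ℚ) / (((l.getD x (0, 0)).2 : ℚ) + 1)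

def zcOf (l : List (ℕ × ℕ × ℕ)) (i q : ℕ) : Finset ℕ :=
  ((l.filter (fun p => p.1 = i ∧ p.2.1 = q)).map (fun p => p.2.2)).toFinset

/-- the state given by a history and data -/
def stOf (h : Hist) (d : Dt) : St where
  M := (Mlist h).toFinset
  U := (Ulist h).toFinset
  z := zOf h
  al := alOf d.1
  zc := zcOf d.2

variable (P : Par)

/-- the invariant of the strategy -/
def Good (h : Hist) (d : Dt) : Prop :=
  (∃ T, Inv P T (stOf h d)) ∧ ∀ n, cntv (stOf h d) n < P.K

/-- legality of a reply `r` to `a` after `h` -/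
def Legal (h : Hist) (a : ℕ) (r : Option ℕ) : Prop :=
  ∀ e, r = some e → Even e ∧ e ∉ Mlist h ∧
    (e < a → ∃ t, t ≤ e ∧ t < a ∧ (t ∈ Ulist h ∨ a ≤ zOf h t))

/-- the r.e. relation: D may answer `a` after `h` (with data `d`) by `r` (and new data) -/
def Rmove (h : Hist) (_d : Dt) (a : ℕ) (r : Option ℕ) (d' : Dt) : Prop :=
  Good P (h ++ [(a, r)]) d' ∧ Legal h a r

end Pool.Agent.Helper542.RK
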