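import Pool.Agent.Helper542.RK.Defs

set_option autoImplicit false

namespace Pool.Agent.Helper542.RK

open Finset

variable {P : Par}

theorem Par.Npos (P : Par) (i : ℕ) : 0 < P.N i := by have := P.hN i; omega

theorem Par.Lpos (P : Par) (i : ℕ) : 0 < P.L i := by
  induction i with
  | zero => exact P.hL0
  | succ i ih => rw [P.hL]; exact Nat.mul_pos ih (P.Npos i)

theorem div_succ (i x : ℕ) : x / P.L (i+1) = x / P.L i / P.N i := by
  rw [P.hL, Nat.div_div_eq_div_mul]

theorem div_eq_of_le {i j x y : ℕ} (hij : i ≤ j) (h : x / P.L i = y / P.L i) :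
    x / P.L j = y / P.L j := by
  induction j, hij using Nat.le_induction with
  | base => exact h
  | succ j _ ih => rw [div_succ, div_succ, ih]

theorem div_mono {x y : ℕ} (i : ℕ) (h : x ≤ y) : x / P.L i ≤ y / P.L i := Nat.div_le_div_right h

theorem div_lt_anti {i j x y : ℕ} (hij : i ≤ j) (h : x / P.L j < y / P.L j) :
    x / P.L i < y / P.L i := by
  by_contra hcon
  push Not at hcon
  have h1 : ∀ j, i ≤ j → y / P.L j ≤ x / P.L j := by
    intro j hj
    induction j, hj using Nat.le_induction with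
    | base => exact hcon
    | succ j _ ih => rw [div_succ, div_succ]; exact Nat.div_le_div_right ih
  have := h1 j hij
  omega

theorem div_le_of_le {i j x y : ℕ} (hij : i ≤ j) (h : x / P.L i ≤ y / P.L i) :
    x / P.L j ≤ y / P.L j := by
  by_contra hcon
  push Not at hcon
  have := div_lt_anti hij hcon
  omega

theorem lt_of_div_lt {i x y : ℕ} (h : x / P.L i < y / P.L i) : x < y := by
  by_contra hcon
  push Not at hcon
  have := div_mono (P := P) i hcon
  omega

theorem mem_win {i q x : ℕ} : x ∈ win P i q ↔ x / P.L i = q := by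
  have hL := P.Lpos i
  rw [win, Finset.mem_Ico]
  constructor
  · rintro ⟨h1, h2⟩
    apply le_antisymm
    · have : x / P.L i < q + 1 := Nat.div_lt_of_lt_mul (by rw [mul_comm]; exact h2)
      omega
    · exact (Nat.le_div_iff_mul_le hL).2 h1
  · intro h
    constructor
    · exact (Nat.le_div_iff_mul_le hL).1 (le_of_eq h.symm)
    · have : x / P.L i < q + 1 := by omega
      exact (Nat.div_lt_iff_lt_mul hL).1 this

theorem mem_kids {i q r : ℕ} : r ∈ kids P i q ↔ r / P.N i = q := by
  have hL := P.Npos i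
  rw [kids, Finset.mem_Ico]
  constructor
  · rintro ⟨h1, h2⟩
    apply le_antisymm
    · have : r / P.N i < q + 1 := Nat.div_lt_of_lt_mul (by rw [mul_comm]; exact h2)
      omega
    · exact (Nat.le_div_iff_mul_le hL).2 h1
  · intro h
    constructor
    · exact (Nat.le_div_iff_mul_le hL).1 (le_of_eq h.symm)
    · have : r / P.N i < q + 1 := by omega
      exact (Nat.div_lt_iff_lt_mul hL).1 this

theorem card_win (i q : ℕ) : (win P i q).card = P.L i := by
  rw [win, Nat.card_Ico]
  have : (q+1) * P.L i = q * P.L i + P.L i := by ring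
  omega

theorem card_kids (i q : ℕ) : (kids P i q).card = P.N i := by
  rw [kids, Nat.card_Ico]
  have : (q+1) * P.N i = q * P.N i + P.N i := by ring
  omega

theorem mem_kids_div (i x : ℕ) : x / P.L i ∈ kids P i (x / P.L (i+1)) := by
  rw [mem_kids, div_succ]

theorem Phi_zero (st : St) (q : ℕ) : Phi P st 0 q =
    ((st.M ∩ win P 0 q).card : ℚ) + (P.L 0 : ℚ) / 16 -
      ∑ x ∈ (win P 0 q).filter (fun x => ¬ (x / P.L 0 < st.z x / P.L 0)), st.al x := by
  rw [Phi, PS]

theorem S_zero (st : St) (x : ℕ) : S P st 0 x = 1 := by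
  rw [S, PS]

theorem S_succ (st : St) (i x : ℕ) : S P st (i+1) x = Gs P st i (x / P.L i) * S P st i x := by
  rw [S, PS]; rfl

theorem Phi_succ (st : St) (i q : ℕ) : Phi P st (i+1) q =
    ∑ r ∈ kids P i q, F P st i r +
      P.w i * (2 * ((P.Z i * P.L i : ℕ) : ℚ) - ((st.zc (i+1) q).card : ℚ)) -
      (∑ x ∈ (win P (i+1) q).filter (fun x => x / P.L i < st.z x / P.L i ∧
        ¬ (x / P.L (i+1) < st.z x / P.L (i+1))), st.al x * S P st (i+1) x) / P.gam (i+1) := by
  rw [Phi, PS]
  rfl

theorem sum_win_succ (p : ℕ → Prop) [DecidablePred p] (h : ℕ → ℚ) (i q : ℕ) :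
    ∑ x ∈ (win P (i+1) q).filter p, h x =
      ∑ r ∈ kids P i q, ∑ x ∈ (win P i r).filter p, h x := by
  rw [← Finset.sum_fiberwise_of_maps_to (t := kids P i q) (g := fun n : ℕ => n / P.L i)]
  · apply Finset.sum_congr rfl
    intro r hr
    rw [mem_kids] at hr
    apply Finset.sum_congr _ (fun _ _ => rfl)
    ext n
    simp only [Finset.mem_filter, mem_win]
    constructor
    · rintro ⟨⟨h1, h2⟩, h3⟩; exact ⟨h3, h2⟩
    · rintro ⟨h1, h2⟩
      refine ⟨⟨?_, h2⟩, h1⟩
      rw [div_succ, h1, hr]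
  · intro n hn
    rw [Finset.mem_filter, mem_win] at hn
    rw [mem_kids, ← div_succ]
    exact hn.1

theorem card_out_le {st : St} (hb : ∀ n, cntv st n ≤ P.K) (i q : ℕ) :
    ((win P i q).filter (fun x => x / P.L i < st.z x / P.L i)).card ≤ P.K := by
  refine le_trans (Finset.card_le_card ?_) (hb ((q+1) * P.L i))
  intro x hx
  rw [Finset.mem_filter, mem_win] at hx
  have hL := P.Lpos i
  have h1 : x < (q+1) * P.L i := by
    have : x / P.L i < q + 1 := by omega
    exact (Nat.div_lt_iff_lt_mul hL).1 this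
  have h2 : (q+1) * P.L i ≤ st.z x := by
    rw [← Nat.le_div_iff_mul_le hL]; omega
  rw [Finset.mem_filter, Finset.mem_range]
  exact ⟨h1, h1, Or.inr h2⟩

theorem Par.w_pos (P : Par) (i : ℕ) : 0 < P.w i := by
  induction i with
  | zero => rw [P.hw0]; exact mul_pos (P.hlam 0) (by have := P.ha1 0; linarith)
  | succ i ih =>
    rw [P.hw]
    exact mul_pos ih (mul_pos (P.hlam _) (by have := P.ha1 (i+1); linarith))

theorem Par.phi_nonneg (P : Par) (i : ℕ) : 0 ≤ P.phi i := by
  cases i with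
  | zero => rw [P.hphi0]; positivity
  | succ i =>
    have ih := P.phi_nonneg i
    rw [P.hphi]
    have h1 := P.hf1 i (P.phi i) ih
    have h2 := P.w_pos i
    have h3 : (0:ℚ) ≤ P.N i * P.f i (P.phi i) := mul_nonneg (Nat.cast_nonneg _) (by linarith)
    have h4 : (0:ℚ) ≤ P.w i * (2 * ((P.Z i * P.L i : ℕ) : ℚ)) := by positivity
    linarith

theorem Par.gam_pos (P : Par) (i : ℕ) : 0 < P.gam i := by have := P.hgam1 i; linarith

theorem card_zone_le {st : St} (hJZ : ∀ i q x, x ∈ st.zc (i+1) q → inZone P i q x ∧ 0 < st.z x ∧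
    st.z x < (q+1) * P.L (i+1)) (i q : ℕ) :
    ((st.zc (i+1) q).card : ℚ) ≤ 2 * ((P.Z i * P.L i : ℕ) : ℚ) := by
  have h1 : st.zc (i+1) q ⊆ Finset.Ico (q * P.L (i+1) - P.Z i * P.L i) (q * P.L (i+1)) ∪
      Finset.Ico ((q+1) * P.L (i+1)) ((q+1) * P.L (i+1) + P.Z i * P.L i) := by
    intro x hx
    rcases (hJZ i q x hx).1 with h | h
    · rw [Finset.mem_union, Finset.mem_Ico]
      left
      constructor
      · omega
      · exact h.2
    · rw [Finset.mem_union]
      right
      rw [Finset.mem_Ico]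
      exact h
  have h2 := (Finset.card_le_card h1).trans (Finset.card_union_le _ _)
  rw [Nat.card_Ico, Nat.card_Ico] at h2
  have h3 : (st.zc (i+1) q).card ≤ 2 * (P.Z i * P.L i) := by omega
  exact_mod_cast h3

theorem F_pos_of {st : St} {i q : ℕ} (h : 0 ≤ Phi P st i q) : 1 ≤ F P st i q := P.hf1 i _ h
theorem Gs_pos_of {st : St} {i q : ℕ} (h : 0 ≤ Phi P st i q) : 0 < Gs P st i q := P.hg0 i _ h

/-- the amounts of the exits of a window, in units of the next class -/
theorem exit_le {st : St} (hb : Base P st) {i : ℕ} (hΦ : ∀ q, 0 ≤ Phi P st i q)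
    (hS : ∀ x, 0 < S P st i x) (r : ℕ) :
    ∑ x ∈ (win P i r).filter (fun x => x / P.L i < st.z x / P.L i), st.al x * S P st (i+1) x ≤
      (if i = 0 then 1/16 else 1 / 2 ^ (i+10)) * F P st i r := by
  have hF := F_pos_of (hΦ r)
  have hcard := card_out_le hb.cnt i r
  have hcard' : ((((win P i r).filter (fun x => x / P.L i < st.z x / P.L i)).card : ℕ) : ℚ) ≤ P.K := by
    exact_mod_cast hcard
  by_cases hi : i = 0
  · subst hi
    rw [if_pos rfl]
    have h1 : ∀ x ∈ (win P 0 r).filter (fun x => x / P.L 0 < st.z x / P.L 0),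
        st.al x * S P st (0+1) x ≤ P.lam 0 * F P st 0 r / P.G2 := by
      intro x hx
      rw [Finset.mem_filter, mem_win] at hx
      rw [S_succ, S_zero, mul_one, hx.1]
      have h2 := hb.al2 x hx.2
      have h3 := P.hgf 0 _ (hΦ r)
      have h4 := Gs_pos_of (hΦ r)
      have h5 := P.hG2
      rw [le_div_iff₀ h5]
      have h6 : st.al x * Gs P st 0 r * P.G2 = (P.G2 * st.al x) * Gs P st 0 r := by ring
      rw [h6]
      have h7 : (P.G2 * st.al x) * Gs P st 0 r ≤ 1 * Gs P st 0 r :=
        mul_le_mul_of_nonneg_right h2 h4.le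
      have h8 : Gs P st 0 r ≤ P.lam 0 * F P st 0 r := h3
      linarith
    have h2 := Finset.sum_le_card_nsmul _ _ _ h1
    rw [nsmul_eq_mul] at h2
    refine h2.trans ?_
    have h3 := P.hlam0K
    have h4 := P.hG2
    have h5 : 0 ≤ P.lam 0 * F P st 0 r / P.G2 := by
      have := P.hlam 0
      positivity
    refine (mul_le_mul_of_nonneg_right hcard' h5).trans ?_
    rw [← mul_div_assoc, div_le_iff₀ h4]
    have h6 : (P.K:ℚ) * (P.lam 0 * F P st 0 r) = (P.lam 0 * P.K) * F P st 0 r := by ring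
    rw [h6]
    have h7 := mul_le_mul_of_nonneg_right h3 (le_trans zero_le_one hF)
    linarith
  · rw [if_neg hi]
    have h1 : ∀ x ∈ (win P i r).filter (fun x => x / P.L i < st.z x / P.L i),
        st.al x * S P st (i+1) x ≤ P.eps i * F P st i r := by
      intro x hx
      rw [Finset.mem_filter, mem_win] at hx
      have := hb.J1p x i (by omega) hx.2
      rwa [hx.1] at this
    have h2 := Finset.sum_le_card_nsmul _ _ _ h1
    rw [nsmul_eq_mul] at h2
    refine h2.trans ?_
    have h3 := P.heps_def i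
    have h4 := P.heps i
    have h5 : 0 ≤ P.eps i * F P st i r := by positivity
    refine (mul_le_mul_of_nonneg_right hcard' h5).trans ?_
    have h6 : (1:ℚ) / 2 ^ (i+10) = P.K * P.eps i := by
      rw [div_eq_iff (by positivity)]
      linarith
    rw [h6]
    apply le_of_eq
    ring

theorem Phi_S_nonneg {st : St} (hb : Base P st) :
    ∀ i, (∀ q, 0 ≤ Phi P st i q) ∧ (∀ x, 0 < S P st i x) ∧
      (∀ q, 15 / 16 * ∑ r ∈ kids P i q, F P st i r ≤ Phi P st (i+1) q) := by
  have key : ∀ i, (∀ q, 0 ≤ Phi P st i q) → (∀ x, 0 < S P st i x) →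
      (∀ q, 15 / 16 * ∑ r ∈ kids P i q, F P st i r ≤ Phi P st (i+1) q) := by
    intro i hΦ hS q
    rw [Phi_succ]
    have hw := P.w_pos i
    have hz := card_zone_le hb.JZ i q
    have h1 : 0 ≤ P.w i * (2 * ((P.Z i * P.L i : ℕ) : ℚ) - ((st.zc (i+1) q).card : ℚ)) :=
      mul_nonneg hw.le (by linarith)
    have h2 : ∑ x ∈ (win P (i+1) q).filter (fun x => x / P.L i < st.z x / P.L i ∧
        ¬ (x / P.L (i+1) < st.z x / P.L (i+1))), st.al x * S P st (i+1) x ≤
        1 / 16 * ∑ r ∈ kids P i q, F P st i r := by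
      rw [sum_win_succ, Finset.mul_sum]
      apply Finset.sum_le_sum
      intro r _
      have h3 := exit_le hb hΦ hS r
      have hF := F_pos_of (hΦ r)
      have h4 : ∑ x ∈ (win P i r).filter (fun x => x / P.L i < st.z x / P.L i ∧
          ¬ (x / P.L (i+1) < st.z x / P.L (i+1))), st.al x * S P st (i+1) x ≤
          ∑ x ∈ (win P i r).filter (fun x => x / P.L i < st.z x / P.L i),
            st.al x * S P st (i+1) x := by
        apply Finset.sum_le_sum_of_subset_of_nonneg
        · intro x hx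
          rw [Finset.mem_filter] at hx ⊢
          exact ⟨hx.1, hx.2.1⟩
        · intro x _ _
          rw [S_succ]
          exact mul_nonneg (hb.al0 x) (mul_nonneg (Gs_pos_of (hΦ _)).le (hS x).le)
      refine h4.trans (h3.trans ?_)
      apply mul_le_mul_of_nonneg_right _ (by linarith)
      split_ifs with h
      · exact le_rfl
      · have h5 : (2:ℚ)^4 ≤ 2 ^ (i+10) := pow_le_pow_right₀ (by norm_num) (by omega)
        rw [div_le_div_iff_of_pos_left (by norm_num) (by positivity) (by norm_num)]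
        linarith
    have h3 : 0 ≤ ∑ x ∈ (win P (i+1) q).filter (fun x => x / P.L i < st.z x / P.L i ∧
        ¬ (x / P.L (i+1) < st.z x / P.L (i+1))), st.al x * S P st (i+1) x := by
      apply Finset.sum_nonneg
      intro x _
      rw [S_succ]
      exact mul_nonneg (hb.al0 x) (mul_nonneg (Gs_pos_of (hΦ _)).le (hS x).le)
    have h4 := div_le_self h3 (P.hgam1 (i+1))
    linarith
  intro i
  induction i with
  | zero =>
    have h0 : ∀ q, 0 ≤ Phi P st 0 q := by
      intro q
      rw [Phi_zero]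
      have h1 : ∑ x ∈ (win P 0 q).filter (fun x => ¬ (x / P.L 0 < st.z x / P.L 0)), st.al x ≤
          (P.L 0 : ℚ) / 16 := by
        have h2 := Finset.sum_le_card_nsmul ((win P 0 q).filter
          (fun x => ¬ (x / P.L 0 < st.z x / P.L 0))) st.al (1/16) (fun x _ => hb.al1 x)
        rw [nsmul_eq_mul] at h2
        have h3 := Finset.card_filter_le (win P 0 q) (fun x => ¬ (x / P.L 0 < st.z x / P.L 0))
        rw [card_win] at h3
        have h4 : ((((win P 0 q).filter (fun x => ¬ (x / P.L 0 < st.z x / P.L 0))).card : ℕ) : ℚ) ≤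
          P.L 0 := by exact_mod_cast h3
        linarith
      have h2 : (0:ℚ) ≤ ((st.M ∩ win P 0 q).card : ℚ) := Nat.cast_nonneg _
      linarith
    have h1 : ∀ x, 0 < S P st 0 x := by intro x; rw [S_zero]; exact zero_lt_one
    exact ⟨h0, h1, key 0 h0 h1⟩
  | succ i ih =>
    have h0 : ∀ q, 0 ≤ Phi P st (i+1) q := by
      intro q
      refine le_trans ?_ (ih.2.2 q)
      apply mul_nonneg (by norm_num)
      apply Finset.sum_nonneg
      intro r _
      have := F_pos_of (ih.1 r)
      linarith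
    have h1 : ∀ x, 0 < S P st (i+1) x := by
      intro x
      rw [S_succ]
      exact mul_pos (Gs_pos_of (ih.1 _)) (ih.2.1 x)
    exact ⟨h0, h1, key (i+1) h0 h1⟩

theorem Base.Phi_nonneg {st : St} (hb : Base P st) (i q : ℕ) : 0 ≤ Phi P st i q :=
  (Phi_S_nonneg hb i).1 q
theorem Base.S_pos {st : St} (hb : Base P st) (i x : ℕ) : 0 < S P st i x :=
  (Phi_S_nonneg hb i).2.1 x
theorem Base.sumF {st : St} (hb : Base P st) (i q : ℕ) :
    15 / 16 * ∑ r ∈ kids P i q, F P st i r ≤ Phi P st (i+1) q := (Phi_S_nonneg hb i).2.2 q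
theorem Base.F1 {st : St} (hb : Base P st) (i q : ℕ) : 1 ≤ F P st i q :=
  F_pos_of (hb.Phi_nonneg i q)
theorem Base.Fpos {st : St} (hb : Base P st) (i q : ℕ) : 0 < F P st i q := by
  have := hb.F1 i q; linarith
theorem Base.Gpos {st : St} (hb : Base P st) (i q : ℕ) : 0 < Gs P st i q :=
  Gs_pos_of (hb.Phi_nonneg i q)
theorem Base.Gle {st : St} (hb : Base P st) (i q : ℕ) : Gs P st i q ≤ P.lam i * F P st i q :=
  P.hgf i _ (hb.Phi_nonneg i q)
theorem Base.Pi_pos {st : St} (hb : Base P st) (i T x : ℕ) : 0 < Pi' P st i T x :=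
  Finset.prod_pos (fun l _ => hb.Gpos l _)

theorem S_split {st : St} {i T : ℕ} (h : i ≤ T) (x : ℕ) :
    S P st T x = S P st i x * Pi' P st i T x := by
  induction T, h using Nat.le_induction with
  | base => simp [Pi']
  | succ T hT ih =>
    rw [S_succ, ih, Pi', Pi', Finset.prod_Ico_succ_top hT]
    ring

theorem Pi_split {st : St} {i T : ℕ} (h : i < T) (x : ℕ) :
    Pi' P st i T x = Gs P st i (x / P.L i) * Pi' P st (i+1) T x := by
  rw [Pi', Finset.prod_eq_prod_Ico_succ_bot h]; rfl

theorem Pi_split' {st : St} {i j T : ℕ} (hij : i ≤ j) (h : j ≤ T) (x : ℕ) :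
    Pi' P st i T x = Pi' P st i j x * Pi' P st j T x := by
  rw [Pi', Pi', Pi', Finset.prod_Ico_consecutive _ hij h]

theorem Pi_congr {st : St} {i T x y : ℕ} (h : x / P.L i = y / P.L i) :
    Pi' P st i T x = Pi' P st i T y := by
  apply Finset.prod_congr rfl
  intro l hl
  rw [Finset.mem_Ico] at hl
  rw [div_eq_of_le hl.1 h]

/-- windows below the top -/
theorem Inv.Phi_le {T : ℕ} {st : St} (hI : Inv P T st) :
    ∀ i, i ≤ T → ∀ x, x < P.L T → Phi P st i (x / P.L i) ≤ 4 * P.phi i := by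
  intro i hi
  induction hi using Nat.decreasingInduction with
  | self =>
    intro x hx
    rw [Nat.div_eq_of_lt hx]
    have := hI.pot
    have := P.phi_nonneg T
    linarith
  | of_succ i hi ih =>
    intro x hx
    have h1 := ih x hx
    have h2 := hI.toBase.sumF i (x / P.L (i+1))
    have h3 : F P st i (x / P.L i) ≤ ∑ r ∈ kids P i (x / P.L (i+1)), F P st i r :=
      Finset.single_le_sum (f := fun r => F P st i r) (fun r _ => (hI.toBase.Fpos i r).le)
        (mem_kids_div i x)
    have h4 := P.hphi4 i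
    have h5 : F P st i (x / P.L i) ≤ P.f i (4 * P.phi i) := by linarith
    by_contra hcon
    push Not at hcon
    have h6 := P.phi_nonneg i
    have h7 := P.hconv i (4 * P.phi i) (Phi P st i (x / P.L i)) (by linarith)
      (hI.toBase.Phi_nonneg i _)
    have h8 := P.hg0 i (4 * P.phi i) (by linarith)
    have h9 : 0 < P.g i (4 * P.phi i) * (Phi P st i (x / P.L i) - 4 * P.phi i) :=
      mul_pos h8 (by linarith)
    unfold F at h5
    linarith

theorem Inv.sumF_le {T : ℕ} {st : St} (hI : Inv P T st) {i x : ℕ} (hi : i < T) (hx : x < P.L T) :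
    ∑ r ∈ kids P i (x / P.L (i+1)), F P st i r ≤ 64 / 15 * P.phi (i+1) := by
  have h1 := hI.Phi_le (i+1) hi x hx
  have h2 := hI.toBase.sumF i (x / P.L (i+1))
  linarith

theorem Inv.Fle {T : ℕ} {st : St} (hI : Inv P T st) {i x : ℕ} (hi : i ≤ T) (hx : x < P.L T) :
    P.lam i * F P st i (x / P.L i) ≤ 2 * Gs P st i (x / P.L i) :=
  P.hfg i _ (hI.toBase.Phi_nonneg i _) (hI.Phi_le i hi x hx)

/-- bound for the sensitivity at cold leaves -/
def Cc (P : Par) : ℕ → ℚ
  | 0 => 1
  | (i+1) => P.w i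

theorem Cc_succ (P : Par) (i : ℕ) : Cc P (i+1) = Cc P i * (P.lam i * P.a i) := by
  cases i with
  | zero => simp [Cc, P.hw0]
  | succ i => simp [Cc, P.hw]

theorem Cc_pos (P : Par) (i : ℕ) : 0 < Cc P i := by
  cases i with
  | zero => simp [Cc]
  | succ i => exact P.w_pos i

theorem window_lt {T i x y : ℕ} (hi : i ≤ T) (hx : x < P.L T) (h : y / P.L i = x / P.L i) :
    y < P.L T := by
  have h1 := div_eq_of_le hi h
  rw [Nat.div_eq_of_lt hx] at h1
  exact (Nat.div_eq_zero_iff_lt (P.Lpos T)).1 h1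

/-- cold leaves -/
theorem Inv.cold {T : ℕ} {st : St} (hI : Inv P T st) :
    ∀ i, i ≤ T → ∀ x, x < P.L T → ∃ y, y / P.L i = x / P.L i ∧
      (∀ l < i, F P st l (y / P.L l) ≤ P.a l) ∧ S P st i y ≤ Cc P i := by
  intro i
  induction i with
  | zero =>
    intro _ x _
    exact ⟨x, rfl, by intro l hl; omega, by rw [S_zero]; simp [Cc]⟩
  | succ i ih =>
    intro hi x hx
    have h1 := hI.sumF_le (show i < T by omega) hx
    have h2 := P.ha i
    obtain ⟨r, hr, hra⟩ : ∃ r ∈ kids P i (x / P.L (i+1)), F P st i r ≤ P.a i := by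
      by_contra hcon
      push Not at hcon
      have h3 : ∑ r ∈ kids P i (x / P.L (i+1)), P.a i < ∑ r ∈ kids P i (x / P.L (i+1)), F P st i r := by
        apply Finset.sum_lt_sum_of_nonempty
        · rw [← Finset.card_pos, card_kids]; exact P.Npos i
        · exact hcon
      rw [Finset.sum_const, card_kids, nsmul_eq_mul] at h3
      linarith
    rw [mem_kids] at hr
    have hL := P.Lpos i
    have hrx : (r * P.L i) / P.L i = r := Nat.mul_div_cancel _ hL
    have hx' : (r * P.L i) / P.L (i+1) = x / P.L (i+1) := by rw [div_succ, hrx, hr]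
    have hlt : r * P.L i < P.L T := window_lt hi hx hx'
    obtain ⟨y, hy1, hy2, hy3⟩ := ih (by omega) (r * P.L i) hlt
    rw [hrx] at hy1
    refine ⟨y, ?_, ?_, ?_⟩
    · rw [div_succ, hy1, hr]
    · intro l hl
      rcases Nat.lt_succ_iff_lt_or_eq.1 hl with h | h
      · exact hy2 l h
      · rw [h, hy1]; exact hra
    · rw [S_succ, Cc_succ, hy1]
      have h4 := hI.toBase.Gle i r
      have h5 := (hI.toBase.Gpos i r).le
      have h6 := (hI.toBase.S_pos i y).le
      have h7 := P.hlam i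
      have h8 : Gs P st i r ≤ P.lam i * P.a i := h4.trans (mul_le_mul_of_nonneg_left hra h7.le)
      calc Gs P st i r * S P st i y ≤ (P.lam i * P.a i) * Cc P i :=
            mul_le_mul h8 hy3 h6 (h5.trans h8)
        _ = Cc P i * (P.lam i * P.a i) := by ring

/-- typical windows -/
theorem Inv.typical {T : ℕ} {st : St} (hI : Inv P T st) {i x : ℕ} (hi : i < T) (hx : x < P.L T)
    (y0 : ℕ) (hy0 : P.L i ∣ y0)
    (hy : ∀ y, y0 ≤ y → y < y0 + P.Z i * P.L i → y / P.L (i+1) = x / P.L (i+1)) :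
    ∃ y, y0 ≤ y ∧ y < y0 + P.Z i * P.L i ∧ y / P.L (i+1) = x / P.L (i+1) ∧
      F P st i (y / P.L i) ≤ P.typ i ∧
      S P st i y ≤ Cc P i := by
  have h1 := hI.sumF_le hi hx
  have h2 := P.htyp i
  have hL := P.Lpos i
  have hZ := P.hZ i
  obtain ⟨q0, rfl⟩ := hy0
  obtain ⟨r, hr, hra⟩ : ∃ r ∈ Finset.Ico q0 (q0 + P.Z i), F P st i r ≤ P.typ i := by
    by_contra hcon
    push Not at hcon
    have h3 : ∑ r ∈ Finset.Ico q0 (q0 + P.Z i), P.typ i < ∑ r ∈ Finset.Ico q0 (q0 + P.Z i), F P st i r := by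
      apply Finset.sum_lt_sum_of_nonempty
      · rw [← Finset.card_pos, Nat.card_Ico]; omega
      · exact hcon
    rw [Finset.sum_const, Nat.card_Ico, nsmul_eq_mul] at h3
    have h4 : ∑ r ∈ Finset.Ico q0 (q0 + P.Z i), F P st i r ≤
        ∑ r ∈ kids P i (x / P.L (i+1)), F P st i r := by
      apply Finset.sum_le_sum_of_subset_of_nonneg
      · intro r hr
        rw [Finset.mem_Ico] at hr
        rw [mem_kids]
        have h5 := hy (r * P.L i) (by rw [mul_comm]; exact Nat.mul_le_mul_right _ hr.1)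
          (by rw [mul_comm (P.L i), ← add_mul]; exact Nat.mul_lt_mul_of_pos_right hr.2 hL)
        rw [div_succ, Nat.mul_div_cancel _ hL] at h5
        exact h5
      · intro r _ _; exact (hI.toBase.Fpos i r).le
    have h5 : q0 + P.Z i - q0 = P.Z i := by omega
    rw [h5] at h3
    linarith
  rw [Finset.mem_Ico] at hr
  have hrx : (r * P.L i) / P.L i = r := Nat.mul_div_cancel _ hL
  have e1 : P.L i * q0 ≤ r * P.L i := by rw [mul_comm]; exact Nat.mul_le_mul_right _ hr.1
  have e2 : (r+1) * P.L i ≤ P.L i * q0 + P.Z i * P.L i := by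
    rw [mul_comm (P.L i), ← add_mul]; exact Nat.mul_le_mul_right _ (by omega)
  have e3 : (r+1) * P.L i = r * P.L i + P.L i := by ring
  have h5 := hy (r * P.L i) e1 (by omega)
  have hlt : r * P.L i < P.L T := window_lt hi hx h5
  obtain ⟨y, hy1, hy2, hy3⟩ := hI.cold i hi.le (r * P.L i) hlt
  rw [hrx] at hy1
  have hyw : y ∈ win P i r := mem_win.2 hy1
  rw [win, Finset.mem_Ico] at hyw
  refine ⟨y, by omega, by omega, ?_, by rw [hy1]; exact hra, hy3⟩
  exact hy y (by omega) (by omega)

end Pool.Agent.Helper542.RK
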