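import Pool.Agent.Helper542.RK.Round
import Pool.Agent.Helper542.RK.Game

set_option autoImplicit false

namespace Pool.Agent.Helper542.RK

open Finset

variable {P : Par}

theorem Mlist_append (h : Hist) (a : ℕ) (r : Option ℕ) :
    Mlist (h ++ [(a, r)]) = Mlist h ++ r.toList := by
  unfold Mlist
  rw [List.filterMap_append]
  cases r <;> simp

theorem uz_append (h : Hist) (a : ℕ) (r : Option ℕ) (x : ℕ) :
    uz (h ++ [(a, r)]) x = ustep x (uz h x) (a, r) := by
  unfold uz
  rw [List.foldl_append]; rfl

theorem uz_fst (h : Hist) (x : ℕ) : (uz h x).1 = Ulist h := by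
  unfold Ulist
  induction h using List.reverseRecOn with
  | nil => rfl
  | append_singleton h ar ih =>
    obtain ⟨a, r⟩ := ar
    rw [uz_append, uz_append]
    cases r with
    | none => simp only [ustep]; rw [ih]
    | some e => rfl

theorem Ulist_none (h : Hist) (a : ℕ) : Ulist (h ++ [(a, none)]) = a :: Ulist h := by
  unfold Ulist; rw [uz_append]; rfl

theorem Ulist_some (h : Hist) (a e : ℕ) : Ulist (h ++ [(a, some e)]) = [] := by
  unfold Ulist; rw [uz_append]; rfl

theorem zOf_none (h : Hist) (a x : ℕ) : zOf (h ++ [(a, none)]) x = zOf h x := by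
  unfold zOf; rw [uz_append]; rfl

theorem zOf_some (h : Hist) (a e x : ℕ) : zOf (h ++ [(a, some e)]) x =
    if x ∈ a :: Ulist h then e else min (zOf h x) e := by
  unfold zOf; rw [uz_append]
  simp only [ustep]
  rw [uz_fst]

theorem st_none (h : Hist) (d : Dt) (a : ℕ) : stOf (h ++ [(a, none)]) d = addTok (stOf h d) a := by
  unfold stOf addTok
  simp only [Mlist_append, Ulist_none, Option.toList_none, List.append_nil, List.toFinset_cons]
  congr 1
  funext x
  exact zOf_none h a x

/-- encode amounts -/
def encAl (B : ℕ) (al : ℕ → ℚ) : List (ℕ × ℕ) :=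
  (List.range B).map (fun x => ((al x).num.toNat, (al x).den - 1))

theorem alOf_enc {B : ℕ} {al : ℕ → ℚ} (h0 : ∀ x, 0 ≤ al x) (hB : ∀ x, B ≤ x → al x = 0) :
    alOf (encAl B al) = al := by
  funext x
  unfold alOf encAl
  by_cases hx : x < B
  · have h1 : ((List.range B).map (fun x => ((al x).num.toNat, (al x).den - 1))).getD x (0, 0) =
        ((al x).num.toNat, (al x).den - 1) := by
      rw [List.getD_eq_getElem _ _ (by simpa using hx)]
      simp
    rw [h1]
    have h2 : (((al x).num.toNat : ℕ) : ℚ) = ((al x).num : ℚ) := by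
      have h3 : 0 ≤ (al x).num := Rat.num_nonneg.2 (h0 x)
      have h4 : (((al x).num.toNat : ℕ) : ℤ) = (al x).num := Int.toNat_of_nonneg h3
      exact_mod_cast congrArg (fun z : ℤ => (z : ℚ)) h4
    have h3 : (((al x).den - 1 : ℕ) : ℚ) + 1 = (al x).den := by
      have := (al x).den_pos
      have h4 : (al x).den - 1 + 1 = (al x).den := by omega
      exact_mod_cast h4
    simp only [h2, h3]
    exact Rat.num_div_den (al x)
  · push Not at hx
    have h1 : ((List.range B).map (fun x => ((al x).num.toNat, (al x).den - 1))).getD x (0, 0) =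
        (0, 0) := by
      rw [List.getD_eq_default]
      simpa using hx
    rw [h1, hB x hx]
    simp

theorem st_some (h : Hist) (d : Dt) (a e B : ℕ) (al' : ℕ → ℚ) (zl : List (ℕ × ℕ × ℕ))
    (h0 : ∀ x, 0 ≤ al' x) (hB : ∀ x, B ≤ x → al' x = 0) :
    stOf (h ++ [(a, some e)]) (encAl B al', d.2 ++ zl) =
      reply (addTok (stOf h d) a) e al' (addz (addTok (stOf h d) a).zc zl) := by
  unfold stOf reply addTok
  simp only [Mlist_append, Ulist_some, Option.toList_some, List.toFinset_nil]
  congr 1
  · ext x
    simp only [List.mem_toFinset, List.mem_append, List.mem_singleton, Finset.mem_insert]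
    tauto
  · funext x
    rw [zOf_some]
    unfold znew
    simp only [List.mem_cons, Finset.mem_insert, List.mem_toFinset]
  · exact alOf_enc h0 hB
  · funext i q
    unfold addz zcOf
    ext x
    simp only [List.mem_toFinset, Finset.mem_union, List.filter_append, List.map_append,
      List.mem_append]

theorem zOf_fresh (h : Hist) (x : ℕ) (hx : x ∉ h.map Prod.fst) : zOf h x = 0 ∧ x ∉ Ulist h := by
  induction h using List.reverseRecOn with
  | nil => exact ⟨rfl, by simp [Ulist, uz]⟩
  | append_singleton h ar ih =>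
    obtain ⟨a, r⟩ := ar
    rw [List.map_append, List.mem_append, not_or] at hx
    obtain ⟨h1, h2⟩ := ih hx.1
    have hxa : x ≠ a := by simpa using hx.2
    cases r with
    | none =>
      rw [zOf_none, Ulist_none]
      exact ⟨h1, by simp [hxa, h2]⟩
    | some e =>
      rw [zOf_some, Ulist_some]
      refine ⟨?_, by simp⟩
      rw [if_neg (by simp [hxa, h2]), h1]
      simp

theorem vis_addTok {st : St} {a n x : ℕ} : vis (addTok st a) n x ↔ vis st n x ∨ (x = a ∧ x < n) := by
  unfold vis addTok
  simp only [Finset.mem_insert]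
  constructor
  · rintro ⟨h1, (rfl | h2) | h2⟩
    · exact Or.inr ⟨rfl, h1⟩
    · exact Or.inl ⟨h1, Or.inl h2⟩
    · exact Or.inl ⟨h1, Or.inr h2⟩
  · rintro (⟨h1, h2 | h2⟩ | ⟨h1, h2⟩)
    · exact ⟨h1, Or.inl (Or.inr h2)⟩
    · exact ⟨h1, Or.inr h2⟩
    · exact ⟨h2, Or.inl (Or.inl h1)⟩

theorem cntv_addTok {st : St} {a : ℕ} (ha : st.z a = 0) (haU : a ∉ st.U) (n : ℕ) :
    cntv (addTok st a) n = cntv st n + (if a < n then 1 else 0) := by
  unfold cntv
  split_ifs with han
  · have h1 : (Finset.range n).filter (fun x => vis (addTok st a) n x) =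
        insert a ((Finset.range n).filter (fun x => vis st n x)) := by
      ext x
      simp only [Finset.mem_filter, Finset.mem_range, Finset.mem_insert, vis_addTok]
      constructor
      · rintro ⟨h1, h2 | ⟨h2, _⟩⟩
        · exact Or.inr ⟨h1, h2⟩
        · exact Or.inl h2
      · rintro (rfl | ⟨h1, h2⟩)
        · exact ⟨han, Or.inr ⟨rfl, han⟩⟩
        · exact ⟨h1, Or.inl h2⟩
    rw [h1, Finset.card_insert_of_notMem]
    rw [Finset.mem_filter]
    rintro ⟨_, h2, h3 | h3⟩
    · exact haU h3
    · omega
  · rw [add_zero]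
    congr 1
    ext x
    simp only [Finset.mem_filter, Finset.mem_range, vis_addTok]
    constructor
    · rintro ⟨h1, h2 | ⟨h2, h3⟩⟩
      · exact ⟨h1, h2⟩
      · omega
    · rintro ⟨h1, h2⟩; exact ⟨h1, Or.inl h2⟩

theorem vis_reply {st : St} {e n x : ℕ} {al' : ℕ → ℚ} {zc' : ℕ → ℕ → Finset ℕ} (hn : 0 < n) :
    vis (reply st e al' zc') n x ↔ n ≤ e ∧ vis st n x := by
  unfold vis reply znew
  simp only [Finset.notMem_empty, false_or]
  constructor
  · rintro ⟨h1, h2⟩
    split_ifs at h2 with h3
    · exact ⟨h2, h1, Or.inl h3⟩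
    · rw [le_min_iff] at h2
      exact ⟨h2.2, h1, Or.inr h2.1⟩
  · rintro ⟨h0, h1, h2⟩
    refine ⟨h1, ?_⟩
    split_ifs with h3
    · exact h0
    · rcases h2 with h2 | h2
      · exact absurd h2 h3
      · exact le_min h2 h0

theorem cntv_reply {st : St} {e : ℕ} {al' : ℕ → ℚ} {zc' : ℕ → ℕ → Finset ℕ} (n : ℕ) :
    cntv (reply st e al' zc') n = if n ≤ e then cntv st n else 0 := by
  unfold cntv
  split_ifs with hne
  · congr 1
    ext x
    simp only [Finset.mem_filter, Finset.mem_range]
    constructor
    · rintro ⟨h1, h2⟩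
      exact ⟨h1, ((vis_reply (by omega)).1 h2).2⟩
    · rintro ⟨h1, h2⟩
      exact ⟨h1, (vis_reply (by omega)).2 ⟨hne, h2⟩⟩
  · rw [Finset.card_eq_zero, Finset.filter_eq_empty_iff]
    intro x hx h2
    rw [Finset.mem_range] at hx
    have := (vis_reply (by omega)).1 h2
    exact hne this.1

/-- D can always answer -/
theorem total (hgeo : GeoStatement P) {h : Hist} {d : Dt} (hG : Good P h d) {a : ℕ}
    (ha : a ∉ h.map Prod.fst) : ∃ r d', Rmove P h d a r d' := by
  obtain ⟨⟨T, hI⟩, hc⟩ := hG
  obtain ⟨hz, hU⟩ := zOf_fresh h a ha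
  have hU' : a ∉ (stOf h d).U := by
    intro h1; exact hU (List.mem_toFinset.1 h1)
  have hI' := hI.raise_le (le_max_left T a)
  have haT : a < P.L (max T a) := lt_of_le_of_lt (le_max_right T a) (L_gt P _)
  have hcnt := cntv_addTok (st := stOf h d) hz hU'
  have hI1 : Inv P (max T a) (addTok (stOf h d) a) := by
    apply hI'.move haT hz
    intro n
    rw [hcnt]
    have := hc n
    split_ifs <;> omega
  by_cases hK : ∀ n, cntv (addTok (stOf h d) a) n < P.K
  · refine ⟨none, d, ⟨?_, ?_⟩, ?_⟩
    · rw [st_none]; exact ⟨_, hI1⟩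
    · rw [st_none]; exact hK
    · intro e he; simp at he
  · push Not at hK
    classical
    obtain ⟨n, hn, hmin⟩ : ∃ n, P.K ≤ cntv (addTok (stOf h d) a) n ∧
        ∀ m, m < n → ¬ (P.K ≤ cntv (addTok (stOf h d) a) m) :=
      ⟨Nat.find hK, Nat.find_spec hK, fun m hm => Nat.find_min hK hm⟩
    have hnK : cntv (addTok (stOf h d) a) n = P.K := le_antisymm (hI1.cnt n) hn
    have han : a < n := by
      by_contra hcon
      rw [hcnt, if_neg hcon] at hn
      have := hc n
      omega
    obtain ⟨e, al', zl, he1, he2, he3, ⟨t, ht, hte⟩, ⟨s, hs, hse⟩, hI2⟩ := round_of_geo hgeo hI1 hnK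
    have hst := st_some h d a e (P.L (max T a)) al' zl hI2.al0 (by
      intro x hx
      apply hI2.alz
      rcases Nat.eq_zero_or_pos ((reply (addTok (stOf h d) a) e al'
        (addz (addTok (stOf h d) a).zc zl)).z x) with h1 | h1
      · exact h1
      · have := hI2.x_lt x h1
        omega)
    refine ⟨some e, (encAl (P.L (max T a)) al', d.2 ++ zl), ⟨?_, ?_⟩, ?_⟩
    · rw [hst]; exact ⟨_, hI2⟩
    · intro m
      rw [hst, cntv_reply]
      split_ifs with hme
      · have := hs.1
        exact not_le.1 (hmin m (by omega))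
      · have := P.hK; omega
    · intro e' he'
      have he' : e = e' := by simpa using he'
      subst he'
      refine ⟨he1, ?_, ?_⟩
      · intro h1
        exact he3 (List.mem_toFinset.2 h1)
      · intro hea
        refine ⟨t, hte, by omega, ?_⟩
        rcases vis_addTok.1 ht with h1 | ⟨h1, _⟩
        · rcases h1.2 with h2 | h2
          · exact Or.inl (List.mem_toFinset.1 h2)
          · right
            have h3 : (stOf h d).z t = zOf h t := rfl
            rw [h3] at h2
            omega
        · omega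

theorem good_start : Good P [] ([], []) := by
  have h1 : stOf [] ([], []) = st0 := by
    unfold stOf st0
    congr 1
    · funext x
      simp [alOf]
  refine ⟨⟨0, ?_⟩, ?_⟩
  · rw [h1]; exact Inv.start P
  · intro n
    rw [h1, cntv_st0]
    have := P.hK
    omega

/-- run lengths -/
def cntA (n : ℕ) (s : ℕ) (ar : ℕ × Option ℕ) : ℕ :=
  match ar.2 with
  | none => if ar.1 < n then s + 1 else s
  | some e => if e < n then 0 else if ar.1 < n then s + 1 else s

def cntD (n : ℕ) (s : ℕ) (ar : ℕ × Option ℕ) : ℕ :=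
  match ar.2 with
  | none => if ar.1 < n then 0 else s
  | some e => if ar.1 < n then 0 else if e < n then s + 1 else s

/-- the full invariant of the strategy -/
def GoodL (P : Par) (h : Hist) (d : Dt) : Prop :=
  Good P h d ∧ (h.map Prod.fst).Nodup ∧ (Mlist h).Nodup ∧ (∀ e ∈ Mlist h, Even e) ∧
  (∀ n, h.foldl (cntA n) 0 = cntv (stOf h d) n) ∧
  (∀ n, h.foldl (cntD n) 0 ≤ 1) ∧
  (∀ n, (∃ x, vis (stOf h d) n x) → h.foldl (cntD n) 0 = 0)

theorem goodL_start : GoodL P [] ([], []) := by
  refine ⟨good_start, by simp, by simp [Mlist], by simp [Mlist], ?_, by simp, by simp⟩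
  intro n
  have h1 : stOf [] ([], []) = st0 := by
    unfold stOf st0
    congr 1
    · funext x
      simp [alOf]
  rw [h1, cntv_st0]; rfl

/-- vis of a state depends on the history only -/
theorem vis_dt (h : Hist) (d d' : Dt) (n x : ℕ) : vis (stOf h d) n x ↔ vis (stOf h d') n x :=
  Iff.rfl

theorem cntv_dt (h : Hist) (d d' : Dt) (n : ℕ) : cntv (stOf h d) n = cntv (stOf h d') n := rfl

theorem goodL_step {h : Hist} {d d' : Dt} (hG : GoodL P h d) {a : ℕ} {r : Option ℕ}
    (ha : a ∉ h.map Prod.fst) (hR : Rmove P h d a r d') : GoodL P (h ++ [(a, r)]) d' := by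
  obtain ⟨hgood, hnd, hM, hE, hA, hD1, hD0⟩ := hG
  obtain ⟨hgood', hleg⟩ := hR
  obtain ⟨hz, hU⟩ := zOf_fresh h a ha
  have hU' : a ∉ (stOf h d).U := by
    intro h1; exact hU (List.mem_toFinset.1 h1)
  have hcnt := cntv_addTok (st := stOf h d) hz hU'
  refine ⟨hgood', ?_, ?_, ?_, ?_, ?_, ?_⟩
  · rw [List.map_append, List.nodup_append]
    refine ⟨hnd, by simp, ?_⟩
    intro x hx y hy
    have : y = a := by simpa using hy
    rw [this]
    rintro rfl
    exact ha hx
  · rw [Mlist_append]
    cases r with
    | none => simpa using hM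
    | some e =>
      have := hleg e rfl
      rw [List.nodup_append]
      refine ⟨hM, by simp, ?_⟩
      intro x hx y hy
      have : y = e := by simpa using hy
      rw [this]
      rintro rfl
      exact (hleg _ rfl).2.1 hx
  · intro x hx
    rw [Mlist_append, List.mem_append] at hx
    rcases hx with hx | hx
    · exact hE x hx
    · cases r with
      | none => simp at hx
      | some e =>
        have : x = e := by simpa using hx
        rw [this]; exact (hleg e rfl).1
  · intro n
    rw [List.foldl_append, hA n]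
    cases r with
    | none =>
      rw [cntv_dt _ d' d, st_none, hcnt]
      simp only [List.foldl_cons, List.foldl_nil, cntA]
      split_ifs <;> rfl
    | some e =>
      have hst := st_some h d a e 0 (fun _ => 0) [] (fun _ => le_rfl) (fun _ _ => rfl)
      rw [cntv_dt _ d' (encAl 0 (fun _ => 0), d.2 ++ []), hst, cntv_reply, hcnt]
      simp only [List.foldl_cons, List.foldl_nil, cntA]
      by_cases h1 : n ≤ e
      · rw [if_pos h1, if_neg (by omega)]
        split_ifs <;> rfl
      · rw [if_neg h1, if_pos (by omega)]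
  · intro n
    rw [List.foldl_append]
    have h1 := hD1 n
    cases r with
    | none =>
      simp only [List.foldl_cons, List.foldl_nil, cntD]
      split_ifs <;> omega
    | some e =>
      simp only [List.foldl_cons, List.foldl_nil, cntD]
      split_ifs with h2 h3
      · omega
      · obtain ⟨_, _, h4⟩ := hleg e rfl
        obtain ⟨t, ht1, ht2, ht3⟩ := h4 (by omega)
        have h5 : vis (stOf h d) n t := by
          refine ⟨by omega, ?_⟩
          rcases ht3 with h6 | h6
          · exact Or.inl (List.mem_toFinset.2 h6)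
          · right
            have h7 : (stOf h d).z t = zOf h t := rfl
            rw [h7]; omega
        have := hD0 n ⟨t, h5⟩
        omega
      · omega
  · rintro n ⟨x, hx⟩
    rw [List.foldl_append]
    cases r with
    | none =>
      rw [vis_dt _ d' d, st_none, vis_addTok] at hx
      simp only [List.foldl_cons, List.foldl_nil, cntD]
      split_ifs with h2
      · rfl
      · rcases hx with h3 | ⟨h3, h4⟩
        · exact hD0 n ⟨x, h3⟩
        · omega
    | some e =>
      have hst := st_some h d a e 0 (fun _ => 0) [] (fun _ => le_rfl) (fun _ _ => rfl)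
      rw [vis_dt _ d' (encAl 0 (fun _ => 0), d.2 ++ []), hst] at hx
      have hn : 0 < n := by have := hx.1; omega
      rw [vis_reply hn, vis_addTok] at hx
      simp only [List.foldl_cons, List.foldl_nil, cntD]
      split_ifs with h2 h3
      · rfl
      · omega
      · rcases hx.2 with h4 | ⟨h4, h5⟩
        · exact hD0 n ⟨x, h4⟩
        · omega

end Pool.Agent.Helper542.RK
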