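import Pool.Agent.Helper923.RK.Right

set_option autoImplicit false

namespace Pool.Agent.Helper542.RK

open Finset

variable {P : Par}

/-- facts about a reply used by the chain argument -/
structure Fx (P : Par) (T : ℕ) (st : St) (e : ℕ) (v : ℕ → ℚ) (zc' : ℕ → ℕ → Finset ℕ) : Prop where
  h : Rd P T st e v zc'
  hB : Base P (nst P T st e v zc')
  left : ∀ i q, q < e / P.L i → Phi P (nst P T st e v zc') i q = Phi P st i q
  leftS : ∀ i x, x / P.L i < e / P.L i →
    S P (nst P T st e v zc') (i+1) x = S P st (i+1) x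
  rho1 : ∀ l, rho P st e v zc' l ≤ 1
  rho0 : ∀ l, 0 ≤ rho P st e v zc' l
  betn : ∀ l x, 0 ≤ bet P st e v zc' l x
  betT : ∀ l x, l ≤ T → e / P.L l ≤ x / P.L l → bet P st e v zc' T x = bet P st e v zc' l x
  rhoG : ∀ l, 1 ≤ l → l ≤ T → rho P st e v zc' l * Gs P st l (e / P.L l) ≤
    Gs P (nst P T st e v zc') l (e / P.L l)
  rhoF : ∀ l, 1 ≤ l → l ≤ T → (1 - rho P st e v zc' l) * F P st l (e / P.L l) =
    max 0 (F P st l (e / P.L l) - F P (nst P T st e v zc') l (e / P.L l))
  rightF : ∀ i, i < T → ∀ y, y < P.L T → e / P.L i < y / P.L i →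
    (1 / P.gam (i+1)) * ∑ x ∈ (win P i (y / P.L i)).filter (fun x => x / P.L i < st.z x / P.L i),
        st.al x * S P st (i+1) x +
      cc (i+1) * ∑ x ∈ win P i (y / P.L i), v x * S P st (i+1) x ≤
    F P st i (y / P.L i) - F P (nst P T st e v zc') i (y / P.L i)

theorem znew_div_le (st : St) (e x i : ℕ) : znew st e x / P.L i ≤ e / P.L i :=
  div_mono i (znew_le st e x)

theorem bet_succ (st : St) (e : ℕ) (v : ℕ → ℚ) (zc' : ℕ → ℕ → Finset ℕ) (l x : ℕ) :
    bet P st e v zc' (l+1) x = if watch P st e l x then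
      bet P st e v zc' l x * rho P st e v zc' l else bet P st e v zc' l x := rfl

theorem bet_zero (st : St) (e : ℕ) (v : ℕ → ℚ) (zc' : ℕ → ℕ → Finset ℕ) (x : ℕ) :
    bet P st e v zc' 0 x = st.al x + v x := rfl

theorem bet_eq_zero_of_not_watch {st : St} {e : ℕ} {v : ℕ → ℚ} {zc' : ℕ → ℕ → Finset ℕ} {x : ℕ} :
    ∀ i, (∀ l < i, ¬ watch P st e l x) → bet P st e v zc' i x = bet P st e v zc' 0 x := by
  intro i
  induction i with
  | zero => intro _; rfl
  | succ i ih =>
    intro h
    rw [bet_succ, if_neg (h i (by omega))]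
    exact ih (fun l hl => h l (by omega))

/-- watching a lower window implies watching `E_i`, if `x` is left of `E_i` -/
theorem watch_up {st : St} {e x l i : ℕ} (hl : l ≤ i) (h : watch P st e l x)
    (hx : x / P.L i < e / P.L i) : watch P st e i x :=
  ⟨hx, div_eq_of_le hl h.2⟩

theorem watch_pos {st : St} {e x i : ℕ} (h : watch P st e i x) : x < e := lt_of_div_lt h.1

theorem flow_le_sumF {st : St} (hb : Base P st) (i q : ℕ) :
    flow P st (i+1) q ≤ 1 / 16 * ∑ r ∈ kids P i q, F P st i r := by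
  unfold flow
  have h0 : 0 ≤ ∑ x ∈ (win P (i+1) q).filter (fun x => x / P.L (i+1) < st.z x / P.L (i+1)),
      st.al x * S P st (i+1) x :=
    Finset.sum_nonneg (fun x _ => mul_nonneg (hb.al0 x) (hb.S_pos _ x).le)
  refine (div_le_self h0 (P.hgam1 _)).trans ?_
  rw [sum_win_succ, Finset.mul_sum]
  apply Finset.sum_le_sum
  intro r _
  have h3 := exit_le hb (hb.Phi_nonneg i) (hb.S_pos i) r
  have hF := hb.F1 i r
  have h4 : ∑ x ∈ (win P i r).filter (fun x => x / P.L (i+1) < st.z x / P.L (i+1)),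
      st.al x * S P st (i+1) x ≤
      ∑ x ∈ (win P i r).filter (fun x => x / P.L i < st.z x / P.L i),
        st.al x * S P st (i+1) x := by
    apply Finset.sum_le_sum_of_subset_of_nonneg
    · intro x hx
      rw [Finset.mem_filter] at hx ⊢
      exact ⟨hx.1, div_lt_anti (Nat.le_succ i) hx.2⟩
    · intro x _ _
      exact mul_nonneg (hb.al0 x) (hb.S_pos _ x).le
  refine h4.trans (h3.trans ?_)
  apply mul_le_mul_of_nonneg_right _ (by linarith)
  split_ifs with h
  · exact le_rfl
  · have h5 : (2:ℚ)^4 ≤ 2 ^ (i+10) := pow_le_pow_right₀ (by norm_num) (by omega)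
    rw [div_le_div_iff_of_pos_left (by norm_num) (by positivity) (by norm_num)]
    linarith

theorem flow_le_Phi {st : St} (hb : Base P st) (i q : ℕ) : flow P st i q ≤ Phi P st i q := by
  cases i with
  | zero =>
    rw [Phi_zero]
    unfold flow
    rw [P.hgam0, div_one]
    have h1 : ∑ x ∈ (win P 0 q).filter (fun x => x / P.L 0 < st.z x / P.L 0),
        st.al x * S P st 0 x = ∑ x ∈ (win P 0 q).filter (fun x => x / P.L 0 < st.z x / P.L 0),
        st.al x := Finset.sum_congr rfl (fun x _ => by rw [S_zero, mul_one])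
    rw [h1]
    have h2 := Finset.sum_filter_add_sum_filter_not (win P 0 q)
      (fun x => x / P.L 0 < st.z x / P.L 0) st.al
    have h3 := Finset.sum_le_card_nsmul (win P 0 q) st.al (1/16) (fun x _ => hb.al1 x)
    rw [nsmul_eq_mul, card_win] at h3
    have h4 : (0:ℚ) ≤ ((st.M ∩ win P 0 q).card : ℚ) := Nat.cast_nonneg _
    linarith
  | succ i =>
    have h1 := flow_le_sumF hb i q
    have h2 := hb.sumF i q
    have h3 : 0 ≤ ∑ r ∈ kids P i q, F P st i r := Finset.sum_nonneg (fun r _ => (hb.Fpos i r).le)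
    linarith

theorem sum_S_succ {st : St} (i r : ℕ) (p : ℕ → Prop) [DecidablePred p] (h : ℕ → ℚ) :
    ∑ x ∈ (win P i r).filter p, h x * S P st (i+1) x =
      Gs P st i r * ∑ x ∈ (win P i r).filter p, h x * S P st i x := by
  rw [Finset.mul_sum]
  apply Finset.sum_congr rfl
  intro x hx
  rw [Finset.mem_filter, mem_win] at hx
  rw [S_succ, hx.1]; ring

/-- the flow is small in units `1/lam` -/
theorem Inv.lamflow {T : ℕ} {st : St} (hI : Inv P T st) {i x : ℕ} (hi : i ≤ T) (hx : x < P.L T) :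
    P.lam i * flow P st i (x / P.L i) ≤ if i = 0 then 1/8 else 1 / 2 ^ (i+9) := by
  have hb := hI.toBase
  have h1 := exit_le hb (hb.Phi_nonneg i) (hb.S_pos i) (x / P.L i)
  rw [sum_S_succ] at h1
  have hG := hb.Gpos i (x / P.L i)
  have h2 := hI.Fle hi hx
  have hlam := P.hlam i
  have hF := hb.Fpos i (x / P.L i)
  have h3 : flow P st i (x / P.L i) ≤
      ∑ x ∈ (win P i (x / P.L i)).filter (fun x => x / P.L i < st.z x / P.L i),
        st.al x * S P st i x :=
    div_le_self (Finset.sum_nonneg (fun x _ => mul_nonneg (hb.al0 x) (hb.S_pos _ x).le))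
      (P.hgam1 i)
  set A := ∑ x ∈ (win P i (x / P.L i)).filter (fun x => x / P.L i < st.z x / P.L i),
        st.al x * S P st i x with hA
  set c : ℚ := if i = 0 then 1/16 else 1 / 2 ^ (i+10) with hc
  have hc0 : 0 ≤ c := by rw [hc]; split_ifs <;> positivity
  have h4 : P.lam i * A ≤ 2 * c := by
    have h5 : Gs P st i (x / P.L i) * (P.lam i * A) ≤ Gs P st i (x / P.L i) * (2 * c) := by
      have h6 := mul_le_mul_of_nonneg_left h1 hlam.le
      have h7 := mul_le_mul_of_nonneg_left h2 hc0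
      nlinarith
    exact le_of_mul_le_mul_left h5 hG
  have h5 : P.lam i * flow P st i (x / P.L i) ≤ 2 * c :=
    (mul_le_mul_of_nonneg_left h3 hlam.le).trans h4
  refine h5.trans (le_of_eq ?_)
  rw [hc]
  split_ifs with h
  · norm_num
  · rw [show i + 10 = (i + 9) + 1 by ring, pow_succ]
    field_simp

section chain

variable {T : ℕ} {st : St} {e : ℕ} {v : ℕ → ℚ} {zc' : ℕ → ℕ → Finset ℕ}

/-- watchers of `E_i` -/
def Wt (P : Par) (T : ℕ) (st : St) (e i : ℕ) : Finset ℕ :=
  (Finset.range (P.L T)).filter (fun x => watch P st e i x)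

theorem card_Wt_le (hI : Inv P T st) (i : ℕ) : (Wt P T st e i).card ≤ P.K := by
  refine le_trans (Finset.card_le_card ?_) (hI.cnt (e / P.L i * P.L i))
  intro x hx
  rw [Wt, Finset.mem_filter] at hx
  obtain ⟨_, hx1, hx2⟩ := hx
  have hL := P.Lpos i
  have h1 : x < e / P.L i * P.L i := (Nat.div_lt_iff_lt_mul hL).1 hx1
  have h2 : e / P.L i * P.L i ≤ znew st e x := by
    rw [← Nat.le_div_iff_mul_le hL]; omega
  rw [Finset.mem_filter, Finset.mem_range]
  refine ⟨h1, h1, ?_⟩
  unfold znew at h2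
  split_ifs at h2 with h
  · exact Or.inl h
  · exact Or.inr (h2.trans (min_le_left _ _))

noncomputable def Res (P : Par) (T : ℕ) (st : St) (e : ℕ) (v : ℕ → ℚ)
    (zc' : ℕ → ℕ → Finset ℕ) (i : ℕ) : ℚ :=
  (∑ x ∈ Wt P T st e i, (bet P st e v zc' 0 x - bet P st e v zc' i x) * S P st T x) /
    Pi' P st i T e

noncomputable def Zc (P : Par) (T : ℕ) (st : St) (e : ℕ) (v : ℕ → ℚ)
    (zc' : ℕ → ℕ → Finset ℕ) (i : ℕ) : ℚ :=
  Phi P st i (e / P.L i) - Phi P (nst P T st e v zc') i (e / P.L i) -
    flow P st i (e / P.L i) - (1 + 1 / 2 ^ (i+7)) * Res P T st e v zc' i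

theorem bet_anti (hx : Fx P T st e v zc') (x : ℕ) (l : ℕ) :
    bet P st e v zc' (l+1) x ≤ bet P st e v zc' l x := by
  rw [bet_succ]
  split_ifs with h
  · have := hx.rho1 l
    have := hx.betn l x
    nlinarith
  · exact le_rfl

theorem bet_le_zero (hx : Fx P T st e v zc') (x : ℕ) (l : ℕ) :
    bet P st e v zc' l x ≤ bet P st e v zc' 0 x := by
  induction l with
  | zero => exact le_rfl
  | succ l ih => exact (bet_anti hx x l).trans ih

theorem Res_nonneg (hx : Fx P T st e v zc') (i : ℕ) : 0 ≤ Res P T st e v zc' i := by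
  apply div_nonneg _ (hx.h.hI.toBase.Pi_pos i T e).le
  apply Finset.sum_nonneg
  intro x _
  have := bet_le_zero hx x i
  exact mul_nonneg (by linarith) (hx.h.hI.toBase.S_pos T x).le

theorem Res_zero : Res P T st e v zc' 0 = 0 := by
  unfold Res
  rw [Finset.sum_eq_zero (fun x _ => by ring), zero_div]

/-- the base of the chain -/
theorem Zc_zero (hx : Fx P T st e v zc') : Zc P T st e v zc' 0 = -1 := by
  have hmem : e ∈ win P 0 (e / P.L 0) := mem_win.2 rfl
  unfold Zc
  rw [Res_zero, Phi_zero, Phi_zero]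
  have h1 : (((nst P T st e v zc').M ∩ win P 0 (e / P.L 0)).card : ℚ) =
      ((st.M ∩ win P 0 (e / P.L 0)).card : ℚ) + 1 := by
    have : (nst P T st e v zc').M = insert e st.M := rfl
    rw [this, Finset.insert_inter_of_mem hmem, Finset.card_insert_of_notMem]
    · push_cast; ring
    · intro h; exact hx.h.eM (Finset.mem_inter.1 h).1
  rw [h1]
  have h2 : ∑ x ∈ (win P 0 (e / P.L 0)).filter
      (fun x => ¬ (x / P.L 0 < (nst P T st e v zc').z x / P.L 0)), (nst P T st e v zc').al x =
      ∑ x ∈ win P 0 (e / P.L 0), st.al x := by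
    rw [Finset.filter_true_of_mem]
    · apply Finset.sum_congr rfl
      intro x hxw
      rw [mem_win] at hxw
      have h3 : (nst P T st e v zc').al x = bet P st e v zc' T x := rfl
      rw [h3, hx.betT 0 x (Nat.zero_le _) hxw.ge, bet_zero]
      have h4 : v x = 0 := by
        by_contra hv
        exact (hx.h.vtok x hv).1 hxw
      rw [h4, add_zero]
    · intro x hxw
      rw [mem_win] at hxw
      have h3 : (nst P T st e v zc').z x = znew st e x := rfl
      rw [h3]
      have := znew_div_le (P := P) st e x 0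
      omega
  rw [h2]
  unfold flow
  rw [P.hgam0, div_one]
  have h3 : ∑ x ∈ (win P 0 (e / P.L 0)).filter (fun x => x / P.L 0 < st.z x / P.L 0),
      st.al x * S P st 0 x =
      ∑ x ∈ (win P 0 (e / P.L 0)).filter (fun x => x / P.L 0 < st.z x / P.L 0), st.al x :=
    Finset.sum_congr rfl (fun x _ => by rw [S_zero, mul_one])
  rw [h3]
  have h4 := Finset.sum_filter_add_sum_filter_not (win P 0 (e / P.L 0))
      (fun x => x / P.L 0 < st.z x / P.L 0) st.al
  linarith

/-- refunds of the watchers of `E_i` -/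
theorem RR_le (hx : Fx P T st e v zc') {i : ℕ} (hi : i < T) :
    (∑ x ∈ Wt P T st e i, (bet P st e v zc' 0 x - bet P st e v zc' (i+1) x) * S P st T x) /
      Pi' P st (i+1) T e ≤
    Gs P (nst P T st e v zc') i (e / P.L i) * Res P T st e v zc' i +
      1 / 2 ^ (i+10) * max 0 (F P st i (e / P.L i) - F P (nst P T st e v zc') i (e / P.L i)) := by
  have hb := hx.h.hI.toBase
  have hPi := hb.Pi_pos (i+1) T e
  have hG := hb.Gpos i (e / P.L i)
  have hG' := hx.hB.Gpos i (e / P.L i)
  have hRes := Res_nonneg hx i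
  have e1 : ∀ x ∈ Wt P T st e i, (bet P st e v zc' 0 x - bet P st e v zc' (i+1) x) * S P st T x =
      rho P st e v zc' i * ((bet P st e v zc' 0 x - bet P st e v zc' i x) * S P st T x) +
      (1 - rho P st e v zc' i) * (bet P st e v zc' 0 x * S P st T x) := by
    intro x hxW
    rw [Wt, Finset.mem_filter] at hxW
    rw [bet_succ, if_pos hxW.2]
    ring
  rw [Finset.sum_congr rfl e1, Finset.sum_add_distrib, ← Finset.mul_sum, ← Finset.mul_sum, add_div]
  have e2 : rho P st e v zc' i * (∑ x ∈ Wt P T st e i,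
      (bet P st e v zc' 0 x - bet P st e v zc' i x) * S P st T x) / Pi' P st (i+1) T e =
      (rho P st e v zc' i * Gs P st i (e / P.L i)) * Res P T st e v zc' i := by
    unfold Res
    rw [Pi_split hi]
    field_simp
  rw [e2]
  by_cases h0 : i = 0
  · subst h0
    have h1 : rho P st e v zc' 0 = 1 := by simp [rho, rhoF]
    rw [h1, Res_zero]
    have h2 := le_max_left 0 (F P st 0 (e / P.L 0) - F P (nst P T st e v zc') 0 (e / P.L 0))
    simp only [mul_zero, sub_self, zero_mul, zero_div, add_zero, zero_add]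
    positivity
  · have h1 := hx.rhoG i (by omega) hi.le
    have h2 := hx.rhoF i (by omega) hi.le
    have h3 : ∀ x ∈ Wt P T st e i, bet P st e v zc' 0 x * S P st T x ≤
        P.eps i * (F P st i (e / P.L i) * Pi' P st (i+1) T e) := by
      intro x hxW
      rw [Wt, Finset.mem_filter] at hxW
      obtain ⟨_, hw1, hw2⟩ := hxW
      have h4 := hx.h.J1z x i (by omega) (by rw [hw2]; exact hw1)
      rw [hw2, Pi_congr (div_eq_of_le (Nat.le_succ i) hw2)] at h4
      exact h4
    have h4 := Finset.sum_le_card_nsmul _ _ _ h3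
    rw [nsmul_eq_mul] at h4
    have h5 : (((Wt P T st e i).card : ℕ) : ℚ) ≤ P.K := by exact_mod_cast card_Wt_le hx.h.hI i
    have h6 : 0 ≤ P.eps i * (F P st i (e / P.L i) * Pi' P st (i+1) T e) := by
      have := P.heps i
      have := hb.Fpos i (e / P.L i)
      positivity
    have h7 := h4.trans (mul_le_mul_of_nonneg_right h5 h6)
    have h8 : 0 ≤ 1 - rho P st e v zc' i := by have := hx.rho1 i; linarith
    have h9 := mul_le_mul_of_nonneg_left h7 h8
    have h10 : (1 - rho P st e v zc' i) * (∑ x ∈ Wt P T st e i,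
        bet P st e v zc' 0 x * S P st T x) / Pi' P st (i+1) T e ≤
        1 / 2 ^ (i+10) * max 0 (F P st i (e / P.L i) - F P (nst P T st e v zc') i (e / P.L i)) := by
      rw [div_le_iff₀ hPi, ← h2]
      refine h9.trans (le_of_eq ?_)
      have h11 := P.heps_def i
      have h12 : P.K * P.eps i = 1 / 2 ^ (i+10) := by
        rw [eq_div_iff (by positivity)]
        linarith
      calc (1 - rho P st e v zc' i) * ((P.K:ℚ) * (P.eps i * (F P st i (e / P.L i) *
              Pi' P st (i+1) T e))) = (P.K * P.eps i) * ((1 - rho P st e v zc' i) *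
              F P st i (e / P.L i)) * Pi' P st (i+1) T e := by ring
        _ = _ := by rw [h12]
    have h11 := mul_le_mul_of_nonneg_right h1 hRes
    linarith

/-- contribution of a kid -/
def tm (P : Par) (T : ℕ) (st : St) (e : ℕ) (v : ℕ → ℚ) (zc' : ℕ → ℕ → Finset ℕ) (i r : ℕ) : ℚ :=
  (F P st i r - F P (nst P T st e v zc') i r) +
  ((∑ x ∈ (win P i r).filter (fun x => x / P.L i < (nst P T st e v zc').z x / P.L i ∧
      ¬ (x / P.L (i+1) < (nst P T st e v zc').z x / P.L (i+1))),
      (nst P T st e v zc').al x * S P (nst P T st e v zc') (i+1) x) -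
   (∑ x ∈ (win P i r).filter (fun x => x / P.L i < st.z x / P.L i),
      st.al x * S P st (i+1) x)) / P.gam (i+1)

theorem chain_id (i : ℕ) :
    Phi P st (i+1) (e / P.L (i+1)) - Phi P (nst P T st e v zc') (i+1) (e / P.L (i+1)) -
      flow P st (i+1) (e / P.L (i+1)) =
    (∑ r ∈ kids P i (e / P.L (i+1)), tm P T st e v zc' i r) +
      P.w i * (((zc' (i+1) (e / P.L (i+1))).card : ℚ) - ((st.zc (i+1) (e / P.L (i+1))).card : ℚ)) := by
  rw [Phi_succ, Phi_succ]
  unfold tm flow
  rw [Finset.sum_add_distrib, Finset.sum_sub_distrib, ← Finset.sum_div, Finset.sum_sub_distrib,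
    ← sum_win_succ, ← sum_win_succ]
  have h1 : ∑ x ∈ (win P (i+1) (e / P.L (i+1))).filter (fun x => x / P.L i < st.z x / P.L i),
      st.al x * S P st (i+1) x =
      ∑ x ∈ (win P (i+1) (e / P.L (i+1))).filter (fun x => x / P.L i < st.z x / P.L i ∧
        ¬ (x / P.L (i+1) < st.z x / P.L (i+1))), st.al x * S P st (i+1) x +
      ∑ x ∈ (win P (i+1) (e / P.L (i+1))).filter (fun x =>
        x / P.L (i+1) < st.z x / P.L (i+1)), st.al x * S P st (i+1) x := by
    rw [← Finset.sum_union]
    · apply Finset.sum_congr _ (fun _ _ => rfl)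
      ext x
      simp only [Finset.mem_union, Finset.mem_filter]
      constructor
      · rintro ⟨h1, h2⟩
        by_cases h3 : x / P.L (i+1) < st.z x / P.L (i+1)
        · exact Or.inr ⟨h1, h3⟩
        · exact Or.inl ⟨h1, h2, h3⟩
      · rintro (⟨h1, h2, _⟩ | ⟨h1, h2⟩)
        · exact ⟨h1, h2⟩
        · exact ⟨h1, div_lt_anti (Nat.le_succ i) h2⟩
    · rw [Finset.disjoint_left]
      intro x hx1 hx2
      rw [Finset.mem_filter] at hx1 hx2
      exact hx1.2.2 hx2.2
  rw [h1]
  have h2 : (nst P T st e v zc').zc = zc' := rfl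
  rw [h2]
  have h3 := (P.gam_pos (i+1)).ne'
  field_simp
  ring

theorem tm_left (hx : Fx P T st e v zc') {i r : ℕ} (hi : i < T)
    (hr : r ∈ kids P i (e / P.L (i+1))) (hlt : r < e / P.L i) :
    1 / 2 * ∑ x ∈ win P i r, v x * S P st (i+1) x -
      ∑ x ∈ (win P i r).filter (fun x => watch P st e i x),
        (bet P st e v zc' 0 x - bet P st e v zc' (i+1) x) * S P st (i+1) x ≤
    tm P T st e v zc' i r := by
  have hb := hx.h.hI.toBase
  rw [mem_kids] at hr
  have hF : F P (nst P T st e v zc') i r = F P st i r := by unfold F; rw [hx.left i r hlt]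
  unfold tm
  rw [hF, sub_self, zero_add]
  have hxw : ∀ x ∈ win P i r, x / P.L (i+1) = e / P.L (i+1) := by
    intro x hxw
    rw [mem_win] at hxw
    rw [div_succ, hxw, hr]
  -- the new stored amounts
  have h1 : ∑ x ∈ (win P i r).filter (fun x => x / P.L i < (nst P T st e v zc').z x / P.L i ∧
      ¬ (x / P.L (i+1) < (nst P T st e v zc').z x / P.L (i+1))),
      (nst P T st e v zc').al x * S P (nst P T st e v zc') (i+1) x =
      ∑ x ∈ win P i r, if x / P.L i < znew st e x / P.L i then
        bet P st e v zc' (i+1) x * S P st (i+1) x else 0 := by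
    rw [Finset.sum_filter]
    apply Finset.sum_congr rfl
    intro x hxr
    have hx1 := hxw x hxr
    rw [mem_win] at hxr
    have h2 : ¬ (x / P.L (i+1) < (nst P T st e v zc').z x / P.L (i+1)) := by
      have h3 : (nst P T st e v zc').z x = znew st e x := rfl
      have := znew_div_le (P := P) st e x (i+1)
      rw [h3]; omega
    have h3 : (nst P T st e v zc').al x = bet P st e v zc' (i+1) x :=
      hx.betT (i+1) x hi hx1.ge
    have h4 : S P (nst P T st e v zc') (i+1) x = S P st (i+1) x :=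
      hx.leftS i x (by rw [hxr]; exact hlt)
    rw [h3, h4]
    have h5 : (nst P T st e v zc').z x = znew st e x := rfl
    rw [h5] at h2 ⊢
    simp only [h2, not_false_eq_true, and_true]
  have h2 : ∑ x ∈ (win P i r).filter (fun x => x / P.L i < st.z x / P.L i),
      st.al x * S P st (i+1) x =
      ∑ x ∈ win P i r, if x / P.L i < znew st e x / P.L i then
        st.al x * S P st (i+1) x else 0 := by
    rw [Finset.sum_filter]
    apply Finset.sum_congr rfl
    intro x hxr
    rw [mem_win] at hxr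
    unfold znew
    by_cases hU : x ∈ st.U
    · have h3 := hb.Uz x hU
      have h4 := hb.alz x h3
      rw [h4]; simp
    · rw [if_neg hU]
      by_cases h5 : x / P.L i < st.z x / P.L i
      · have h6 : x / P.L i < min (st.z x) e / P.L i := by
          rcases min_choice (st.z x) e with h | h <;> rw [h]
          · exact h5
          · rw [hxr]; exact hlt
        rw [if_pos h5, if_pos h6]
      · have h6 : ¬ (x / P.L i < min (st.z x) e / P.L i) := by
          intro h7
          have := div_mono (P := P) i (min_le_left (st.z x) e)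
          omega
        rw [if_neg h5, if_neg h6]
  rw [h1, h2, ← Finset.sum_sub_distrib]
  have h3 : ∑ x ∈ win P i r, ((if x / P.L i < znew st e x / P.L i then
        bet P st e v zc' (i+1) x * S P st (i+1) x else 0) -
        (if x / P.L i < znew st e x / P.L i then st.al x * S P st (i+1) x else 0)) =
      ∑ x ∈ win P i r, v x * S P st (i+1) x -
      ∑ x ∈ (win P i r).filter (fun x => watch P st e i x),
        (bet P st e v zc' 0 x - bet P st e v zc' (i+1) x) * S P st (i+1) x := by
    rw [Finset.sum_filter, ← Finset.sum_sub_distrib]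
    apply Finset.sum_congr rfl
    intro x hxr
    rw [mem_win] at hxr
    by_cases hw : watch P st e i x
    · have h4 : x / P.L i < znew st e x / P.L i := by rw [hw.2]; exact hw.1
      rw [if_pos h4, if_pos h4, if_pos hw, bet_zero]
      ring
    · have hnw : ∀ l < i + 1, ¬ watch P st e l x := by
        intro l hl hwl
        exact hw (watch_up (Nat.lt_succ_iff.1 hl) hwl (by rw [hxr]; exact hlt))
      have hbe := bet_eq_zero_of_not_watch (P := P) (st := st) (e := e) (v := v) (zc' := zc')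
        (x := x) (i+1) hnw
      have hv : v x = 0 := by
        by_contra hv
        have := (hx.h.vtok x hv).2.1
        exact hw ⟨by rw [hxr]; exact hlt, by rw [this]⟩
      rw [if_neg hw, hbe, bet_zero, hv]
      simp
  rw [h3]
  have hg1 := P.hgam1 (i+1)
  have hg2 := P.hgam2 (i+1)
  have hg0 := P.gam_pos (i+1)
  have hv0 : 0 ≤ ∑ x ∈ win P i r, v x * S P st (i+1) x :=
    Finset.sum_nonneg (fun x _ => mul_nonneg (hx.h.v0 x) (hb.S_pos _ x).le)
  have hr0 : 0 ≤ ∑ x ∈ (win P i r).filter (fun x => watch P st e i x),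
        (bet P st e v zc' 0 x - bet P st e v zc' (i+1) x) * S P st (i+1) x := by
    apply Finset.sum_nonneg
    intro x _
    have := bet_le_zero hx x (i+1)
    exact mul_nonneg (by linarith) (hb.S_pos _ x).le
  rw [le_div_iff₀ hg0]
  nlinarith [mul_le_mul_of_nonneg_left hg2 hv0, mul_le_mul_of_nonneg_left hg1 hr0]

theorem tm_right (hx : Fx P T st e v zc') {i r : ℕ} (hi : i < T)
    (hr : r ∈ kids P i (e / P.L (i+1))) (hlt : e / P.L i < r) :
    1 / 2 * ∑ x ∈ win P i r, v x * S P st (i+1) x ≤ tm P T st e v zc' i r := by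
  have hb := hx.h.hI.toBase
  rw [mem_kids] at hr
  have hL := P.Lpos i
  have hrx : (r * P.L i) / P.L i = r := Nat.mul_div_cancel _ hL
  have hy : r * P.L i < P.L T := by
    apply window_lt (i := i+1) hi hx.h.eT
    rw [div_succ, hrx, hr]
  have h1 := hx.rightF i hi (r * P.L i) hy (by rw [hrx]; exact hlt)
  rw [hrx] at h1
  unfold tm
  have h2 : ∑ x ∈ (win P i r).filter (fun x => x / P.L i < (nst P T st e v zc').z x / P.L i ∧
      ¬ (x / P.L (i+1) < (nst P T st e v zc').z x / P.L (i+1))),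
      (nst P T st e v zc').al x * S P (nst P T st e v zc') (i+1) x = 0 := by
    rw [Finset.sum_eq_zero]
    intro x hxr
    exfalso
    rw [Finset.mem_filter, mem_win] at hxr
    have h3 : (nst P T st e v zc').z x = znew st e x := rfl
    have := znew_div_le (P := P) st e x i
    rw [h3] at hxr
    omega
  rw [h2, zero_sub]
  have h3 : 0 ≤ ∑ x ∈ win P i r, v x * S P st (i+1) x :=
    Finset.sum_nonneg (fun x _ => mul_nonneg (hx.h.v0 x) (hb.S_pos _ x).le)
  have h4 : (1:ℚ) / 2 ≤ cc (i+1) := by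
    unfold cc
    have : (0:ℚ) ≤ 1 / 2 ^ (i + 1 + 1) := by positivity
    linarith
  have h5 := mul_le_mul_of_nonneg_right h4 h3
  have h6 : ∀ a : ℚ, 1 / P.gam (i+1) * a = a / P.gam (i+1) := by intro a; ring
  rw [h6] at h1
  have h7 : ∀ a : ℚ, -a / P.gam (i+1) = -(a / P.gam (i+1)) := by intro a; ring
  rw [h7]
  linarith

theorem tm_mid (i : ℕ) :
    tm P T st e v zc' i (e / P.L i) =
      F P st i (e / P.L i) - F P (nst P T st e v zc') i (e / P.L i) -
      P.gam i / P.gam (i+1) * (Gs P st i (e / P.L i) * flow P st i (e / P.L i)) := by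
  unfold tm
  have h2 : ∑ x ∈ (win P i (e / P.L i)).filter
      (fun x => x / P.L i < (nst P T st e v zc').z x / P.L i ∧
      ¬ (x / P.L (i+1) < (nst P T st e v zc').z x / P.L (i+1))),
      (nst P T st e v zc').al x * S P (nst P T st e v zc') (i+1) x = 0 := by
    rw [Finset.sum_eq_zero]
    intro x hxr
    exfalso
    rw [Finset.mem_filter, mem_win] at hxr
    have h3 : (nst P T st e v zc').z x = znew st e x := rfl
    have := znew_div_le (P := P) st e x i
    rw [h3] at hxr
    omega
  rw [h2, zero_sub, sum_S_succ]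
  unfold flow
  have h3 := (P.gam_pos (i+1)).ne'
  have h4 := (P.gam_pos i).ne'
  field_simp
  ring

/-- payments of the kids other than `E_i` -/
noncomputable def payJ (P : Par) (st : St) (e : ℕ) (v : ℕ → ℚ) (i : ℕ) : ℚ :=
  1 / 2 * ∑ r ∈ (kids P i (e / P.L (i+1))).filter (fun r => r ≠ e / P.L i),
    ∑ x ∈ win P i r, v x * S P st (i+1) x

theorem payJ_nonneg (hx : Fx P T st e v zc') (i : ℕ) : 0 ≤ payJ P st e v i := by
  unfold payJ
  apply mul_nonneg (by norm_num)
  apply Finset.sum_nonneg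
  intro r _
  exact Finset.sum_nonneg (fun x _ => mul_nonneg (hx.h.v0 x) (hx.h.hI.toBase.S_pos _ x).le)

noncomputable def zoneJ (P : Par) (st : St) (e : ℕ) (zc' : ℕ → ℕ → Finset ℕ) (i : ℕ) : ℚ :=
  P.w i * (((zc' (i+1) (e / P.L (i+1))).card : ℚ) - ((st.zc (i+1) (e / P.L (i+1))).card : ℚ))

theorem zoneJ_nonneg (hx : Fx P T st e v zc') (i : ℕ) : 0 ≤ zoneJ P st e zc' i := by
  unfold zoneJ
  apply mul_nonneg (P.w_pos i).le
  have h1 : (st.zc (i+1) (e / P.L (i+1))).card ≤ (zc' (i+1) (e / P.L (i+1))).card :=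
    Finset.card_le_card (hx.h.zsub _ _)
  have h2 : ((st.zc (i+1) (e / P.L (i+1))).card : ℚ) ≤ ((zc' (i+1) (e / P.L (i+1))).card : ℚ) := by
    exact_mod_cast h1
  linarith

theorem chain_sum (hx : Fx P T st e v zc') {i : ℕ} (hi : i < T) :
    F P st i (e / P.L i) - F P (nst P T st e v zc') i (e / P.L i) -
      P.gam i / P.gam (i+1) * (Gs P st i (e / P.L i) * flow P st i (e / P.L i)) +
      payJ P st e v i + zoneJ P st e zc' i -
      ∑ x ∈ (win P (i+1) (e / P.L (i+1))).filter (fun x => watch P st e i x),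
        (bet P st e v zc' 0 x - bet P st e v zc' (i+1) x) * S P st (i+1) x ≤
    Phi P st (i+1) (e / P.L (i+1)) - Phi P (nst P T st e v zc') (i+1) (e / P.L (i+1)) -
      flow P st (i+1) (e / P.L (i+1)) := by
  rw [chain_id, sum_win_succ]
  have hmem := mem_kids_div (P := P) i e
  have key : ∀ r ∈ kids P i (e / P.L (i+1)),
      (if r ≠ e / P.L i then 1 / 2 * ∑ x ∈ win P i r, v x * S P st (i+1) x else 0) +
      (if r = e / P.L i then F P st i (e / P.L i) - F P (nst P T st e v zc') i (e / P.L i) -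
      P.gam i / P.gam (i+1) * (Gs P st i (e / P.L i) * flow P st i (e / P.L i)) else 0) -
      ∑ x ∈ (win P i r).filter (fun x => watch P st e i x),
        (bet P st e v zc' 0 x - bet P st e v zc' (i+1) x) * S P st (i+1) x ≤
      tm P T st e v zc' i r := by
    intro r hr
    have hempty : e / P.L i ≤ r → ∑ x ∈ (win P i r).filter (fun x => watch P st e i x),
        (bet P st e v zc' 0 x - bet P st e v zc' (i+1) x) * S P st (i+1) x = 0 := by
      intro hle
      apply Finset.sum_eq_zero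
      intro x hxr
      exfalso
      rw [Finset.mem_filter, mem_win] at hxr
      have := hxr.2.1
      omega
    rcases lt_trichotomy r (e / P.L i) with h | h | h
    · rw [if_pos h.ne, if_neg h.ne, add_zero]
      exact tm_left hx hi hr h
    · subst h
      rw [if_neg (by simp), if_pos rfl, hempty le_rfl, tm_mid, zero_add, sub_zero]
    · rw [if_pos h.ne', if_neg h.ne', hempty h.le, add_zero, sub_zero]
      exact tm_right hx hi hr h
  have h1 := Finset.sum_le_sum key
  rw [Finset.sum_sub_distrib, Finset.sum_add_distrib, ← Finset.sum_filter,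
    Finset.sum_ite_eq' , if_pos hmem, ← Finset.mul_sum] at h1
  unfold payJ zoneJ
  linarith

theorem step_num {κ G G' fl R z δ lf gg : ℚ} (hκ0 : 0 < κ) (hκ1 : κ ≤ 1 / 1024)
    (hGfl : 0 ≤ G * fl) (hG'R : 0 ≤ G' * R) (hG' : 0 ≤ G') (hlf1 : lf ≤ 1 / 8)
    (hcoef : gg ≤ (1 - 2 * κ) * (1 - lf))
    (hdelta : (1 - lf) * G * fl + G' * (z + (1 + 8 * κ) * R) ≤ δ) :
    G' * min z 0 + (1 - 2 * κ) * (G' * max z 0) ≤
      δ - gg * (G * fl) - (1 + 4 * κ) * (G' * R + κ * max 0 δ) := by
  have hmm : z = min z 0 + max z 0 := by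
    rcases le_total z 0 with h | h
    · rw [min_eq_left h, max_eq_right h, add_zero]
    · rw [min_eq_right h, max_eq_left h, zero_add]
  have hmin : min z 0 ≤ 0 := min_le_right _ _
  have hmax : 0 ≤ max z 0 := le_max_right _ _
  have hG'max : 0 ≤ G' * max z 0 := mul_nonneg hG' hmax
  have hG'min : G' * min z 0 ≤ 0 := mul_nonpos_of_nonneg_of_nonpos hG' hmin
  have hG'z : G' * z = G' * min z 0 + G' * max z 0 := by
    rw [← mul_add, ← hmm]
  have hcG := mul_le_mul_of_nonneg_right hcoef hGfl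
  rcases le_total 0 δ with h | h
  · rw [max_eq_right h]
    have h1 : (1 - 2 * κ) * ((1 - lf) * G * fl + G' * (z + (1 + 8 * κ) * R)) ≤
        (1 - 2 * κ) * δ := mul_le_mul_of_nonneg_left hdelta (by linarith)
    have h2 : (1 + 4 * κ) * (κ * δ) ≤ 2 * κ * δ := by
      have h2' : (1 + 4 * κ) * (κ * δ) = (κ * δ) + 4 * κ * (κ * δ) := by ring
      have h2'' : 4 * κ * (κ * δ) ≤ 1 * (κ * δ) :=
        mul_le_mul_of_nonneg_right (by linarith) (mul_nonneg hκ0.le h)
      linarith
    have h3 : (1 - 2 * κ) * ((1 - lf) * G * fl + G' * (z + (1 + 8 * κ) * R)) =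
        (1 - 2 * κ) * (1 - lf) * (G * fl) + (1 - 2 * κ) * (G' * z) +
        (1 - 2 * κ) * (1 + 8 * κ) * (G' * R) := by ring
    rw [h3, hG'z] at h1
    have h4 : (1 + 4 * κ) * (G' * R) ≤ (1 - 2 * κ) * (1 + 8 * κ) * (G' * R) := by
      apply mul_le_mul_of_nonneg_right _ hG'R
      nlinarith
    have h5 : (1 - 2 * κ) * (G' * min z 0 + G' * max z 0) =
        (G' * min z 0) + (1 - 2 * κ) * (G' * max z 0) - 2 * κ * (G' * min z 0) := by ring
    have h6 : 0 ≤ - (2 * κ * (G' * min z 0)) := by
      have := mul_nonpos_of_nonneg_of_nonpos (show 0 ≤ 2 * κ by linarith) hG'min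
      linarith
    linarith
  · rw [max_eq_left h]
    have h3 : (1 - lf) * G * fl + G' * (z + (1 + 8 * κ) * R) =
        (1 - lf) * (G * fl) + G' * z + (1 + 8 * κ) * (G' * R) := by ring
    rw [h3, hG'z] at hdelta
    have h5 : (1 - 2 * κ) * (1 - lf) * (G * fl) ≤ (1 - lf) * (G * fl) := by
      apply mul_le_mul_of_nonneg_right _ hGfl
      nlinarith
    have h6 : (1 + 4 * κ) * (G' * R) ≤ (1 + 8 * κ) * (G' * R) :=
      mul_le_mul_of_nonneg_right (by linarith) hG'R
    have h7 : (1 - 2 * κ) * (G' * max z 0) ≤ 1 * (G' * max z 0) :=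
      mul_le_mul_of_nonneg_right (by linarith) hG'max
    linarith

theorem coef_num {κ lf γ : ℚ} (hκ0 : 0 < κ) (hκ1 : κ ≤ 1 / 1024)
    (h : (lf ≤ 1/8 ∧ γ = 2/3) ∨ (lf ≤ 2 * κ ∧ γ = 1 / (1 + 16 * κ))) :
    γ ≤ (1 - 2 * κ) * (1 - lf) := by
  rcases h with ⟨h1, h2⟩ | ⟨h1, h2⟩
  · rw [h2]
    have : (1 - 2 * κ) * (1 - 1/8) ≤ (1 - 2 * κ) * (1 - lf) :=
      mul_le_mul_of_nonneg_left (by linarith) (by linarith)
    linarith
  · rw [h2, div_le_iff₀ (by positivity)]
    have h6 : (1 - 2 * κ) * (1 - 2 * κ) ≤ (1 - 2 * κ) * (1 - lf) :=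
      mul_le_mul_of_nonneg_left (by linarith) (by linarith)
    have h7 : 1 ≤ (1 - 2 * κ) * (1 - 2 * κ) * (1 + 16 * κ) := by
      have h71 : (1 - 2 * κ) * (1 - 2 * κ) * (1 + 16 * κ) = 1 + κ * (12 - 60 * κ + 64 * κ ^ 2) := by
        ring
      rw [h71]
      have h72 : 0 ≤ 12 - 60 * κ + 64 * κ ^ 2 := by
        have : 0 ≤ κ ^ 2 := sq_nonneg κ
        linarith
      have := mul_nonneg hκ0.le h72
      linarith
    have h8 := mul_le_mul_of_nonneg_right h6 (show 0 ≤ 1 + 16 * κ by linarith)
    linarith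

theorem chain_step (hx : Fx P T st e v zc') {i : ℕ} (hi : i < T) :
    Gs P (nst P T st e v zc') i (e / P.L i) * min (Zc P T st e v zc' i) 0 +
      (1 - 2 / 2 ^ (i+10)) * (Gs P (nst P T st e v zc') i (e / P.L i) *
        max (Zc P T st e v zc' i) 0) + payJ P st e v i + zoneJ P st e zc' i ≤
    Zc P T st e v zc' (i+1) := by
  have hI := hx.h.hI
  have hb := hI.toBase
  have heT := hx.h.eT
  have hsum := chain_sum hx hi
  have hRR := RR_le hx hi
  have hRes := Res_nonneg hx i
  have hRes1 := Res_nonneg hx (i+1)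
  -- refunds
  have hPi := hb.Pi_pos (i+1) T e
  have href : (∑ x ∈ (win P (i+1) (e / P.L (i+1))).filter (fun x => watch P st e i x),
        (bet P st e v zc' 0 x - bet P st e v zc' (i+1) x) * S P st (i+1) x) +
      (1 + 1 / 2 ^ (i+1+7)) * Res P T st e v zc' (i+1) ≤
      (1 + 1 / 2 ^ (i+1+7)) *
      ((∑ x ∈ Wt P T st e i, (bet P st e v zc' 0 x - bet P st e v zc' (i+1) x) * S P st T x) /
        Pi' P st (i+1) T e) := by
    have hsplit : ∑ x ∈ Wt P T st e i,
        (bet P st e v zc' 0 x - bet P st e v zc' (i+1) x) * S P st T x =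
        ∑ x ∈ (Wt P T st e i).filter (fun x => x / P.L (i+1) = e / P.L (i+1)),
          (bet P st e v zc' 0 x - bet P st e v zc' (i+1) x) * S P st T x +
        ∑ x ∈ (Wt P T st e i).filter (fun x => ¬ x / P.L (i+1) = e / P.L (i+1)),
          (bet P st e v zc' 0 x - bet P st e v zc' (i+1) x) * S P st T x :=
      (Finset.sum_filter_add_sum_filter_not _ _ _).symm
    have h1 : ∑ x ∈ (Wt P T st e i).filter (fun x => x / P.L (i+1) = e / P.L (i+1)),
          (bet P st e v zc' 0 x - bet P st e v zc' (i+1) x) * S P st T x =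
        (∑ x ∈ (win P (i+1) (e / P.L (i+1))).filter (fun x => watch P st e i x),
        (bet P st e v zc' 0 x - bet P st e v zc' (i+1) x) * S P st (i+1) x) *
          Pi' P st (i+1) T e := by
      rw [Finset.sum_mul]
      have hset : (Wt P T st e i).filter (fun x => x / P.L (i+1) = e / P.L (i+1)) =
          (win P (i+1) (e / P.L (i+1))).filter (fun x => watch P st e i x) := by
        ext x
        simp only [Wt, Finset.mem_filter, Finset.mem_range, mem_win]
        constructor
        · rintro ⟨⟨_, h2⟩, h3⟩; exact ⟨h3, h2⟩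
        · rintro ⟨h3, h2⟩; exact ⟨⟨(watch_pos h2).trans heT, h2⟩, h3⟩
      rw [hset]
      apply Finset.sum_congr rfl
      intro x hxr
      rw [Finset.mem_filter, mem_win] at hxr
      rw [S_split hi x, Pi_congr hxr.1]
      ring
    have h2 : Res P T st e v zc' (i+1) =
        (∑ x ∈ (Wt P T st e i).filter (fun x => ¬ x / P.L (i+1) = e / P.L (i+1)),
          (bet P st e v zc' 0 x - bet P st e v zc' (i+1) x) * S P st T x) /
          Pi' P st (i+1) T e := by
      unfold Res
      congr 1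
      symm
      apply Finset.sum_subset
      · intro x hxr
        simp only [Wt, Finset.mem_filter, Finset.mem_range] at hxr ⊢
        obtain ⟨⟨h3, h4⟩, h5⟩ := hxr
        refine ⟨h3, ?_, div_eq_of_le (Nat.le_succ i) h4.2⟩
        have h6 := div_mono (P := P) (i+1) (watch_pos h4).le
        omega
      · intro x hx1 hx2
        simp only [Wt, Finset.mem_filter, Finset.mem_range] at hx1 hx2
        obtain ⟨h3, h4⟩ := hx1
        have h5 : x / P.L i < e / P.L i := div_lt_anti (Nat.le_succ i) h4.1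
        have h6 : ¬ watch P st e i x := by
          intro h7
          exact hx2 ⟨⟨h3, h7⟩, h4.1.ne⟩
        have hnw : ∀ l < i + 1, ¬ watch P st e l x := by
          intro l hl hwl
          exact h6 (watch_up (Nat.lt_succ_iff.1 hl) hwl h5)
        rw [bet_eq_zero_of_not_watch (i+1) hnw, sub_self, zero_mul]
    rw [hsplit, h1, add_div, mul_div_cancel_right₀ _ hPi.ne', ← h2]
    have h3 : 0 ≤ ∑ x ∈ (win P (i+1) (e / P.L (i+1))).filter (fun x => watch P st e i x),
        (bet P st e v zc' 0 x - bet P st e v zc' (i+1) x) * S P st (i+1) x := by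
      apply Finset.sum_nonneg
      intro x _
      have := bet_le_zero hx x (i+1)
      exact mul_nonneg (by linarith) (hb.S_pos _ x).le
    have h4 : (0:ℚ) ≤ 1 / 2 ^ (i+1+7) := by positivity
    nlinarith
  -- the slope inequality
  have hflow0 := flow_nonneg hb i (e / P.L i)
  have hflowP := flow_le_Phi hb i (e / P.L i)
  have hPhi' := hx.hB.Phi_nonneg i (e / P.L i)
  have hPhi := hb.Phi_nonneg i (e / P.L i)
  have hc1 := P.hconv i (Phi P st i (e / P.L i) - flow P st i (e / P.L i))
    (Phi P st i (e / P.L i)) (by linarith) hPhi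
  have hc2 := P.hconv i (Phi P (nst P T st e v zc') i (e / P.L i))
    (Phi P st i (e / P.L i) - flow P st i (e / P.L i)) hPhi' (by linarith)
  have hgs := P.hgsub i (Phi P st i (e / P.L i)) (flow P st i (e / P.L i)) hflow0 hflowP
  have hlf := hI.lamflow (x := e) hi.le heT
  have hG := hb.Gpos i (e / P.L i)
  have hG' := hx.hB.Gpos i (e / P.L i)
  have hgam : (if i = 0 then P.gam i / P.gam (i+1) = 2/3 else
      P.gam i / P.gam (i+1) = 1 / (1 + 1 / 2 ^ (i+6))) := by
    split_ifs with h
    · subst h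
      rw [P.hgam0, P.hgamS0]; norm_num
    · rw [P.hgamS i (by omega)]
      have := P.gam_pos i
      field_simp
  set Fo := F P st i (e / P.L i) with hFo
  set Fn := F P (nst P T st e v zc') i (e / P.L i) with hFn
  set fl := flow P st i (e / P.L i) with hfl
  set G := Gs P st i (e / P.L i) with hGdef
  set G' := Gs P (nst P T st e v zc') i (e / P.L i) with hG'def
  set R := Res P T st e v zc' i with hR
  have hZdef : Zc P T st e v zc' i = Phi P st i (e / P.L i) -
    Phi P (nst P T st e v zc') i (e / P.L i) - fl - (1 + 1 / 2 ^ (i+7)) * R := rfl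
  set z := Zc P T st e v zc' i with hz
  -- lower bound for delta
  have hdelta : (1 - P.lam i * fl) * G * fl + G' * (z + (1 + 1 / 2 ^ (i+7)) * R) ≤ Fo - Fn := by
    have h1 : Fo - Fn = (P.f i (Phi P st i (e / P.L i)) -
        P.f i (Phi P st i (e / P.L i) - fl)) + (P.f i (Phi P st i (e / P.L i) - fl) -
        P.f i (Phi P (nst P T st e v zc') i (e / P.L i))) := by
      rw [hFo, hFn]; unfold F; ring
    rw [h1]
    have h2 : (1 - P.lam i * fl) * G * fl ≤ P.f i (Phi P st i (e / P.L i)) -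
        P.f i (Phi P st i (e / P.L i) - fl) := by
      have h3 : (1 - P.lam i * fl) * G * fl ≤
          P.g i (Phi P st i (e / P.L i) - fl) * fl := mul_le_mul_of_nonneg_right hgs hflow0
      have h4 : Phi P st i (e / P.L i) - (Phi P st i (e / P.L i) - fl) = fl := by ring
      rw [h4] at hc1
      linarith
    have h3 : G' * (z + (1 + 1 / 2 ^ (i+7)) * R) ≤ P.f i (Phi P st i (e / P.L i) - fl) -
        P.f i (Phi P (nst P T st e v zc') i (e / P.L i)) := by
      have h4 : z + (1 + 1 / 2 ^ (i+7)) * R =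
        Phi P st i (e / P.L i) - fl - Phi P (nst P T st e v zc') i (e / P.L i) := by
        rw [hZdef]; ring
      rw [h4]
      exact hc2
    linarith
  have hZ1 : Zc P T st e v zc' (i+1) = Phi P st (i+1) (e / P.L (i+1)) -
      Phi P (nst P T st e v zc') (i+1) (e / P.L (i+1)) - flow P st (i+1) (e / P.L (i+1)) -
      (1 + 1 / 2 ^ (i+1+7)) * Res P T st e v zc' (i+1) := rfl
  rw [hZ1]
  set κ : ℚ := 1 / 2 ^ (i+10) with hκ
  have hκ0 : 0 < κ := by rw [hκ]; positivity
  have hκ1 : κ ≤ 1 / 1024 := by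
    rw [hκ]
    have h5 : (2:ℚ)^10 ≤ 2 ^ (i+10) := pow_le_pow_right₀ (by norm_num) (by omega)
    rw [div_le_div_iff_of_pos_left (by norm_num) (by positivity) (by norm_num)]
    linarith
  have e1 : (1:ℚ) / 2 ^ (i+7) = 8 * κ := by rw [hκ]; field_simp; ring
  have e2 : (1:ℚ) / 2 ^ (i+1+7) = 4 * κ := by rw [hκ]; field_simp; ring
  have e3 : (2:ℚ) / 2 ^ (i+10) = 2 * κ := by rw [hκ]; field_simp
  rw [e1] at hdelta
  rw [e2] at href ⊢
  rw [e3]
  -- flow coefficient
  have hcoef : P.gam i / P.gam (i+1) ≤ (1 - 2 * κ) * (1 - P.lam i * fl) := by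
    apply coef_num hκ0 hκ1
    split_ifs at hlf hgam with h
    · exact Or.inl ⟨hlf, hgam⟩
    · right
      have e4 : (1:ℚ) / 2 ^ (i+6) = 16 * κ := by rw [hκ]; field_simp; ring
      have e5 : (1:ℚ) / 2 ^ (i+9) = 2 * κ := by rw [hκ]; field_simp; ring
      rw [e4] at hgam
      rw [e5] at hlf
      exact ⟨hlf, hgam⟩
  have hlf1 : P.lam i * fl ≤ 1 / 8 := by
    split_ifs at hlf with h
    · exact hlf
    · refine hlf.trans ?_
      have h5 : (2:ℚ)^3 ≤ 2 ^ (i+9) := pow_le_pow_right₀ (by norm_num) (by omega)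
      rw [div_le_div_iff_of_pos_left (by norm_num) (by positivity) (by norm_num)]
      linarith
  have hfin := step_num hκ0 hκ1 (mul_nonneg hG.le hflow0) (mul_nonneg hG'.le hRes) hG'.le hlf1
    hcoef hdelta
  have hRR' := mul_le_mul_of_nonneg_left hRR (show 0 ≤ 1 + 4 * κ by linarith)
  linarith

/-- once nonnegative, always nonnegative -/
theorem Zc_up (hx : Fx P T st e v zc') {i : ℕ} (h : 0 ≤ Zc P T st e v zc' i) :
    ∀ j, i ≤ j → j ≤ T → 0 ≤ Zc P T st e v zc' j := by
  intro j hj
  induction j, hj using Nat.le_induction with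
  | base => intro _; exact h
  | succ j hj ih =>
    intro hjT
    have h1 := ih (by omega)
    have h2 := chain_step hx (show j < T by omega)
    rw [min_eq_right h1, max_eq_left h1, mul_zero] at h2
    have h3 := payJ_nonneg hx j
    have h4 := zoneJ_nonneg hx j
    have h5 : (0:ℚ) ≤ 1 - 2 / 2 ^ (j+10) := by
      have h5 : (2:ℚ)^10 ≤ 2 ^ (j+10) := pow_le_pow_right₀ (by norm_num) (by omega)
      have h6 : (2:ℚ) / 2 ^ (j+10) ≤ 1 := by
        rw [div_le_one (by positivity)]; linarith
      linarith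
    have h6 : 0 ≤ (1 - 2 / 2 ^ (j+10)) * (Gs P (nst P T st e v zc') j (e / P.L j) *
        Zc P T st e v zc' j) :=
      mul_nonneg h5 (mul_nonneg (hx.hB.Gpos _ _).le h1)
    linarith

theorem pot_of_Zc (hx : Fx P T st e v zc') (h : 0 ≤ Zc P T st e v zc' T) :
    Phi P (nst P T st e v zc') T 0 ≤ Phi P st T 0 := by
  have h1 := Res_nonneg hx T
  have h2 := flow_nonneg hx.h.hI.toBase T (e / P.L T)
  have h3 : e / P.L T = 0 := Nat.div_eq_of_lt hx.h.eT
  unfold Zc at h
  rw [h3] at h h2
  have h4 : 0 ≤ (1 + 1 / 2 ^ (T+7)) * Res P T st e v zc' T := by positivity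
  linarith

theorem pay_zero_eq (hx : Fx P T st e v zc') : pay P st v 0 (e / P.L 0) = 0 := by
  unfold pay
  apply Finset.sum_eq_zero
  intro x hxw
  rw [mem_win] at hxw
  have : v x = 0 := by
    by_contra hv
    exact (hx.h.vtok x hv).1 hxw
  rw [this, zero_mul]

theorem pay_succ_eq (i : ℕ) : pay P st v (i+1) (e / P.L (i+1)) =
    Gs P st i (e / P.L i) * pay P st v i (e / P.L i) + 2 * payJ P st e v i := by
  have hmem := mem_kids_div (P := P) i e
  have h1 : pay P st v (i+1) (e / P.L (i+1)) =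
      ∑ r ∈ kids P i (e / P.L (i+1)), ∑ x ∈ win P i r, v x * S P st (i+1) x := by
    have := sum_win_succ (P := P) (fun _ => True) (fun x => v x * S P st (i+1) x) i (e / P.L (i+1))
    simp only [Finset.filter_true] at this
    exact this
  rw [h1]
  have h2 : Gs P st i (e / P.L i) * pay P st v i (e / P.L i) =
      ∑ x ∈ win P i (e / P.L i), v x * S P st (i+1) x := by
    unfold pay
    have := sum_S_succ (P := P) (st := st) i (e / P.L i) (fun _ => True) v
    simp only [Finset.filter_true] at this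
    rw [this]
  rw [h2]
  unfold payJ
  rw [← Finset.sum_filter_add_sum_filter_not (kids P i (e / P.L (i+1))) (fun r => r ≠ e / P.L i)]
  have h3 : (kids P i (e / P.L (i+1))).filter (fun r => ¬ r ≠ e / P.L i) = {e / P.L i} := by
    ext r
    simp only [Finset.mem_filter, Finset.mem_singleton, not_not]
    constructor
    · rintro ⟨_, h⟩; exact h
    · rintro rfl; exact ⟨hmem, rfl⟩
  rw [h3, Finset.sum_singleton]
  ring

theorem chain_low_step (hx : Fx P T st e v zc') {c : ℕ} (hc : c < T)
    (hS : P.lam c * S P st c e ≤ 1 / 2 ^ (c+10)) (hneg : Zc P T st e v zc' c < 0)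
    (ih : -(3/2 - 1/2^(c+1)) * S P st c e + 1 / 2 * pay P st v c (e / P.L c) ≤
      Zc P T st e v zc' c) :
    -(3/2 - 1/2^(c+1+1)) * S P st (c+1) e + 1 / 2 * pay P st v (c+1) (e / P.L (c+1)) +
      zoneJ P st e zc' c ≤ Zc P T st e v zc' (c+1) := by
  have hb := hx.h.hI.toBase
  have hstep := chain_step hx hc
  rw [min_eq_left hneg.le, max_eq_right hneg.le, mul_zero, mul_zero, add_zero] at hstep
  have hpay0 : 0 ≤ pay P st v c (e / P.L c) := pay_nonneg hb hx.h.v0 c _
  have hSp := hb.S_pos c e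
  have hG := hb.Gpos c (e / P.L c)
  have hlam := P.hlam c
  have hRes := Res_nonneg hx c
  have hfl := flow_nonneg hb c (e / P.L c)
  set z := Zc P T st e v zc' c with hz
  have hZdef : z = Phi P st c (e / P.L c) -
    Phi P (nst P T st e v zc') c (e / P.L c) - flow P st c (e / P.L c) -
      (1 + 1 / 2 ^ (c+7)) * Res P T st e v zc' c := rfl
  set κ : ℚ := 1 / 2 ^ (c+10) with hκ
  have hκ0 : 0 < κ := by rw [hκ]; positivity
  have hκ1 : κ ≤ 1 / 1024 := by
    rw [hκ]
    have h5 : (2:ℚ)^10 ≤ 2 ^ (c+10) := pow_le_pow_right₀ (by norm_num) (by omega)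
    rw [div_le_div_iff_of_pos_left (by norm_num) (by positivity) (by norm_num)]
    linarith
  have e1 : (1:ℚ) / 2 ^ (c+1) = 512 * κ := by rw [hκ]; field_simp; ring
  have e2 : (1:ℚ) / 2 ^ (c+1+1) = 256 * κ := by rw [hκ]; field_simp; ring
  rw [e1] at ih
  rw [e2]
  have hA : -z ≤ (3/2) * S P st c e := by
    have : 0 ≤ 512 * κ * S P st c e := by positivity
    linarith
  have hlz : P.lam c * (-z) ≤ 3/2 * κ := by
    have h1 := mul_le_mul_of_nonneg_left hA hlam.le
    linarith
  have hPle : Phi P (nst P T st e v zc') c (e / P.L c) ≤ Phi P st c (e / P.L c) + (-z) := by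
    have : 0 ≤ (1 + 1 / 2 ^ (c+7)) * Res P T st e v zc' c := by positivity
    linarith
  have hG' : Gs P (nst P T st e v zc') c (e / P.L c) ≤ (1 + 3 * κ) * Gs P st c (e / P.L c) := by
    have h1 := P.hgmono c _ _ (hx.hB.Phi_nonneg c (e / P.L c)) hPle
    have h2 := P.hgadd c (Phi P st c (e / P.L c)) (-z) (hb.Phi_nonneg _ _) (by linarith)
      (by linarith)
    have h3 : (1 + 2 * (P.lam c * -z)) * P.g c (Phi P st c (e / P.L c)) ≤
        (1 + 3 * κ) * P.g c (Phi P st c (e / P.L c)) :=
      mul_le_mul_of_nonneg_right (by linarith) hG.le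
    exact h1.trans (h2.trans h3)
  have h1 : ((1 + 3 * κ) * Gs P st c (e / P.L c)) * z ≤
      Gs P (nst P T st e v zc') c (e / P.L c) * z :=
    mul_le_mul_of_nonpos_right hG' hneg.le
  have h2 : ((1 + 3 * κ) * Gs P st c (e / P.L c)) *
      (-(3/2 - 512 * κ) * S P st c e + 1 / 2 * pay P st v c (e / P.L c)) ≤
      ((1 + 3 * κ) * Gs P st c (e / P.L c)) * z :=
    mul_le_mul_of_nonneg_left ih (by positivity)
  rw [pay_succ_eq, S_succ]
  have hGS : 0 < Gs P st c (e / P.L c) * S P st c e := mul_pos hG hSp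
  have hGp : 0 ≤ Gs P st c (e / P.L c) * pay P st v c (e / P.L c) := mul_nonneg hG.le hpay0
  have h3 : ((1 + 3 * κ) * Gs P st c (e / P.L c)) *
      (-(3/2 - 512 * κ) * S P st c e + 1 / 2 * pay P st v c (e / P.L c)) =
      -((1 + 3 * κ) * (3/2 - 512 * κ)) * (Gs P st c (e / P.L c) * S P st c e) +
      1 / 2 * (Gs P st c (e / P.L c) * pay P st v c (e / P.L c)) +
      3 / 2 * (κ * (Gs P st c (e / P.L c) * pay P st v c (e / P.L c))) := by ring
  have h4 : 0 ≤ κ * (Gs P st c (e / P.L c) * pay P st v c (e / P.L c)) := mul_nonneg hκ0.le hGp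
  have h5 : (1 + 3 * κ) * (3/2 - 512 * κ) ≤ 3/2 - 256 * κ := by nlinarith
  have h6 := mul_le_mul_of_nonneg_right h5 hGS.le
  linarith

theorem chain_low (hx : Fx P T st e v zc') :
    ∀ c, c ≤ T → (∀ l < c, P.lam l * S P st l e ≤ 1 / 2 ^ (l+10)) →
    (∃ i ≤ c, 0 ≤ Zc P T st e v zc' i) ∨
    (-(3/2 - 1/2^(c+1)) * S P st c e + 1 / 2 * pay P st v c (e / P.L c) ≤
      Zc P T st e v zc' c) := by
  intro c
  induction c with
  | zero =>
    intro _ _
    right
    rw [Zc_zero hx, S_zero, pay_zero_eq hx]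
    norm_num
  | succ c ih =>
    intro hc hS
    rcases ih (by omega) (fun l hl => hS l (by omega)) with ⟨i, hi, h⟩ | h
    · exact Or.inl ⟨i, by omega, h⟩
    · by_cases hneg : Zc P T st e v zc' c < 0
      · right
        have h1 := chain_low_step hx (by omega) (hS c (by omega)) hneg h
        have h2 := zoneJ_nonneg hx c
        linarith
      · exact Or.inl ⟨c, by omega, by linarith⟩

theorem chain_final (hx : Fx P T st e v zc') {c : ℕ} (hc : c + 1 ≤ T)
    (hS : ∀ l < c + 1, P.lam l * S P st l e ≤ 1 / 2 ^ (l+10))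
    (hpay : 3/2 * S P st (c+1) e ≤ 9/20 * pay P st v (c+1) (e / P.L (c+1)) +
      zoneJ P st e zc' c) :
    Phi P (nst P T st e v zc') T 0 ≤ Phi P st T 0 := by
  have key : ∃ i ≤ T, 0 ≤ Zc P T st e v zc' i := by
    rcases chain_low hx c (by omega) (fun l hl => hS l (by omega)) with ⟨i, hi, h⟩ | h
    · exact ⟨i, by omega, h⟩
    · by_cases hneg : Zc P T st e v zc' c < 0
      · refine ⟨c+1, hc, ?_⟩
        have h1 := chain_low_step hx (by omega) (hS c (by omega)) hneg h
        have hb := hx.h.hI.toBase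
        have h2 : 0 ≤ pay P st v (c+1) (e / P.L (c+1)) := pay_nonneg hb hx.h.v0 (c+1) _
        have h3 := hb.S_pos (c+1) e
        have h4 : (0:ℚ) ≤ 1 / 2^(c+1+1) * S P st (c+1) e := by positivity
        linarith
      · exact ⟨c, by omega, by linarith⟩
  obtain ⟨i, hi, h⟩ := key
  exact pot_of_Zc hx (Zc_up hx h T hi le_rfl)

end chain

end Pool.Agent.Helper542.RK
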