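import Mathlib

set_option autoImplicit false

namespace Pool.Agent.Helper542.RK

open Finset

/-- parameters and their properties -/
structure Par where
  /-- number of children of a window of class `i+1` -/
  N : ℕ → ℕ
  /-- zone width (in windows of class `i`) of windows of class `i+1` -/
  Z : ℕ → ℕ
  /-- length of windows of class `i` -/
  L : ℕ → ℕ
  K : ℕ
  f : ℕ → ℚ → ℚ
  g : ℕ → ℚ → ℚ
  lam : ℕ → ℚ
  phi : ℕ → ℚ
  a : ℕ → ℚ
  w : ℕ → ℚ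
  typ : ℕ → ℚ
  eps : ℕ → ℚ
  gam : ℕ → ℚ
  G2 : ℚ
  hN : ∀ i, 2 ≤ N i
  hL0 : 0 < L 0
  hL : ∀ i, L (i + 1) = L i * N i
  heven : 2 ∣ L 0
  hK : 1 ≤ K
  hlam : ∀ i, 0 < lam i
  heps : ∀ i, 0 < eps i
  hG2 : 0 < G2
  /-- `f`, `g` on nonnegative arguments -/
  hg0 : ∀ i x, 0 ≤ x → 0 < g i x
  hf1 : ∀ i x, 0 ≤ x → 1 ≤ f i x
  hgmono : ∀ i x y, 0 ≤ x → x ≤ y → g i x ≤ g i y
  /-- convexity -/
  hconv : ∀ i x y, 0 ≤ x → 0 ≤ y → g i x * (y - x) ≤ f i y - f i x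
  /-- slope upper bound -/
  hgf : ∀ i x, 0 ≤ x → g i x ≤ lam i * f i x
  /-- slope lower bound -/
  hfg : ∀ i x, 0 ≤ x → x ≤ 4 * phi i → lam i * f i x ≤ 2 * g i x
  /-- cooling -/
  hcool : ∀ i x y, 0 ≤ x → x ≤ y → f i x * g i y ≤ g i x * f i y
  hgsub : ∀ i x y, 0 ≤ y → y ≤ x → (1 - lam i * y) * g i x ≤ g i (x - y)
  hgadd : ∀ i x y, 0 ≤ x → 0 ≤ y → lam i * y ≤ 1 / 2 → g i (x + y) ≤ (1 + 2 * (lam i * y)) * g i x
  hgam0 : gam 0 = 1
  hgam1 : ∀ i, 1 ≤ gam i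
  hgam2 : ∀ i, gam i ≤ 2
  hgamS0 : gam 1 = 3 / 2
  hgamS : ∀ i, 1 ≤ i → gam (i+1) = gam i * (1 + 1 / 2 ^ (i + 6))
  heps_def : ∀ i, eps i * (K * 2 ^ (i + 10)) = 1
  /-- potentials at the start -/
  hphi0 : phi 0 = (L 0 : ℚ) / 16
  hphi : ∀ i, phi (i+1) = N i * f i (phi i) + w i * (2 * ((Z i * L i : ℕ) : ℚ))
  hphi4 : ∀ i, 64 / 15 * phi (i+1) ≤ f i (4 * phi i)
  /-- cold kids -/
  ha : ∀ i, 64 / 15 * phi (i+1) ≤ N i * a i
  /-- typical kids -/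
  htyp : ∀ i, 64 / 15 * phi (i+1) ≤ Z i * typ i
  hZ : ∀ i, 1 ≤ Z i
  hZN : ∀ i, Z i ≤ N i
  hw0 : w 0 = lam 0 * a 0
  hw : ∀ i, w (i+1) = w i * (lam (i+1) * a (i+1))
  ha1 : ∀ i, 1 ≤ a i
  htyp1 : ∀ i, 1 ≤ typ i
  /-- `C j = w (j-1)` (with `C 0 = 1`) bounds `S j` at cold leaves -/
  hJ2 : ∀ j, lam (j+1) * w j ≤ eps (j+1) * G2
  hlam0K : lam 0 * K ≤ G2 / 16
  hlamw : ∀ j, lam (j+1) * w j ≤ 1 / 2 ^ (j + 12)
  hlam0 : lam 0 ≤ 1 / 2 ^ 10
  /-- `typ` bounds -/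
  htypC0 : lam 1 * (lam 0 * typ 0) * (K * G2) ≤ 1 / 2 ^ 13
  htypC : ∀ j, lam (j+2) * (w j * lam (j+1) * typ (j+1)) * (K * G2) ≤ 1 / 2 ^ (j + 14)
  hG2a : 64 ≤ G2
  /-- numbers for the geometry and the thinning of the payers -/
  k : ℕ
  b0 : ℕ
  hk : L 0 ≤ k
  hKk : 3 * k + 2 * L 0 ≤ K
  hb0 : lam 0 * b0 ≤ 8
  hb0L : b0 ≤ L 0
  hkb : 7 * G2 * L 0 ≤ ((k : ℚ) - L 0) * b0

/-- state: marks, unrecorded tokens, records, stored amounts, zone counts -/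
structure St where
  M : Finset ℕ
  U : Finset ℕ
  z : ℕ → ℕ
  al : ℕ → ℚ
  zc : ℕ → ℕ → Finset ℕ

variable (P : Par)

/-- the window `q` of class `i` -/
def win (i q : ℕ) : Finset ℕ := Finset.Ico (q * P.L i) ((q + 1) * P.L i)

/-- children of window `q` of class `i+1` -/
def kids (i q : ℕ) : Finset ℕ := Finset.Ico (q * P.N i) ((q + 1) * P.N i)

/-- potentials (first component, argument: window index) and sensitivities
(second component, argument: position) of class `i` -/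
def PS (st : St) : ℕ → (ℕ → ℚ) × (ℕ → ℚ)
  | 0 => (fun q => ((st.M ∩ win P 0 q).card : ℚ) + (P.L 0 : ℚ) / 16 -
            ∑ x ∈ (win P 0 q).filter (fun x => ¬ (x / P.L 0 < st.z x / P.L 0)), st.al x,
          fun _ => 1)
  | (i+1) =>
      (fun q => ∑ r ∈ kids P i q, P.f i ((PS st i).1 r) +
            P.w i * (2 * ((P.Z i * P.L i : ℕ) : ℚ) - ((st.zc (i+1) q).card : ℚ)) -
            (∑ x ∈ (win P (i+1) q).filter (fun x => x / P.L i < st.z x / P.L i ∧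
                ¬ (x / P.L (i+1) < st.z x / P.L (i+1))),
              st.al x * (P.g i ((PS st i).1 (x / P.L i)) * (PS st i).2 x)) / P.gam (i+1),
       fun x => P.g i ((PS st i).1 (x / P.L i)) * (PS st i).2 x)

def Phi (st : St) (i q : ℕ) : ℚ := (PS P st i).1 q
def S (st : St) (i x : ℕ) : ℚ := (PS P st i).2 x

/-- `F i q = f_i(Φ_i(q))` -/
def F (st : St) (i q : ℕ) : ℚ := P.f i (Phi P st i q)
/-- `Gs i q = g_i(Φ_i(q))` -/
def Gs (st : St) (i q : ℕ) : ℚ := P.g i (Phi P st i q)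

/-- product of slopes above class `i` and below class `T` along the chain of `x` -/
def Pi' (st : St) (i T x : ℕ) : ℚ := ∏ l ∈ Finset.Ico i T, Gs P st l (x / P.L l)

/-- token `x` is visible at cut `n` -/
def vis (st : St) (n x : ℕ) : Prop := x < n ∧ (x ∈ st.U ∨ n ≤ st.z x)

instance (st : St) (n x : ℕ) : Decidable (vis st n x) := by unfold vis; infer_instance

def cntv (st : St) (n : ℕ) : ℕ := ((Finset.range n).filter (fun x => vis st n x)).card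

/-- positions of the zone of window `q` of class `i+1` -/
def inZone (i q x : ℕ) : Prop :=
  (q * P.L (i+1) ≤ x + P.Z i * P.L i ∧ x < q * P.L (i+1)) ∨
  ((q+1) * P.L (i+1) ≤ x ∧ x < (q+1) * P.L (i+1) + P.Z i * P.L i)

/-- the part of the invariant which gives nonnegativity of the potentials -/
structure Base (st : St) : Prop where
  Uz : ∀ x ∈ st.U, st.z x = 0
  al0 : ∀ x, 0 ≤ st.al x
  al1 : ∀ x, st.al x ≤ 1 / 16
  alz : ∀ x, st.z x = 0 → st.al x = 0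
  al2 : ∀ x, x / P.L 0 < st.z x / P.L 0 → P.G2 * st.al x ≤ 1
  J1p : ∀ p j, 1 ≤ j → p / P.L j < st.z p / P.L j →
    st.al p * S P st (j+1) p ≤ P.eps j * F P st j (p / P.L j)
  JZ : ∀ i q x, x ∈ st.zc (i+1) q → inZone P i q x ∧ 0 < st.z x ∧ st.z x < (q+1) * P.L (i+1)
  cnt : ∀ n, cntv st n ≤ P.K

/-- the invariant -/
structure Inv (T : ℕ) (st : St) : Prop extends Base P st where
  M_lt : ∀ x ∈ st.M, x < P.L T
  U_lt : ∀ x ∈ st.U, x < P.L T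
  z_lt : ∀ x, st.z x < P.L T
  x_lt : ∀ x, 0 < st.z x → x < P.L T
  J2 : ∀ p l, p / P.L 0 ≤ l / P.L 0 → l / P.L 0 < st.z p / P.L 0 →
    P.G2 * st.al p * S P st T p ≤ S P st T l
  J1z : ∀ p j, 1 ≤ j → p / P.L j < st.z p / P.L j →
    st.al p * S P st T p ≤ P.eps j * (F P st j (st.z p / P.L j) * Pi' P st (j+1) T (st.z p))
  pot : Phi P st T 0 ≤ P.phi T

/-- the records after the reply `e` -/
def znew (st : St) (e x : ℕ) : ℕ := if x ∈ st.U then e else min (st.z x) e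

/-- the new state after reply `e` with amounts `al'` and zone counts `zc'` -/
def reply (st : St) (e : ℕ) (al' : ℕ → ℚ) (zc' : ℕ → ℕ → Finset ℕ) : St where
  M := insert e st.M
  U := ∅
  z := znew st e
  al := al'
  zc := zc'

/-- THE CORE THEOREM (to be proved in the core files) -/
def RoundStatement : Prop :=
  ∀ (T : ℕ) (st : St), Inv P T st → ∀ n, cntv st n = P.K →
      ∃ (e : ℕ) (al' : ℕ → ℚ) (zc' : ℕ → ℕ → Finset ℕ),
        Even e ∧ 0 < e ∧ e ∉ st.M ∧ (∃ t, vis st n t ∧ t ≤ e) ∧ (∃ t, vis st n t ∧ e < t) ∧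
        Inv P T (reply st e al' zc')

end Pool.Agent.Helper542.RK
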