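import Pool.Agent.Helper542.RK.Logic
import Pool.Agent.Helper699.RK.Geo
import Pool.Agent.Helper699.RK.Guess
import Pool.Agent.Helper923.RK.Param

set_option autoImplicit false

namespace Pool.Agent.Helper542.RK

theorem geoStatement (P : Par) : GeoStatement P := fun T hT => Pool.Agent.Helper699.RK.geo P T hT

theorem guessStatement : GuessStatement := by
  intro X Y hX hY hXm hYm c h
  exact Pool.Agent.Helper699.RK.guess hX hY hXm hYm c h

theorem main_P0 (hR : REPred (fun p : Hist × Dt × ℕ × Option ℕ × Dt =>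
      Rmove P0 p.1 p.2.1 p.2.2.1 p.2.2.2.1 p.2.2.2.2)) :
    ∀ A : Set ℕ, REPred (fun n : ℕ => n ∈ A) →
      ∃ D : Set ℕ, REPred (fun n : ℕ => n ∈ D) ∧ (∀ n ∈ D, Even n) ∧
        (∃ φ : List Bool × ℕ →. List Bool, Partrec φ ∧ ∃ c : ℕ, ∀ n : ℕ, ∀ τ : List Bool,
          τ.length = n → (∀ i < n, (τ.getD i false = true ↔ i ∈ D)) →
          ∃ j ≤ c, ∃ σ ∈ φ (τ, j), σ.length = n ∧
            ∀ i < n, (σ.getD i false = true ↔ i ∈ A)) ∧
        (∃ ψ : List Bool × ℕ →. List Bool, Partrec ψ ∧ ∃ c : ℕ, ∀ n : ℕ, ∀ τ : List Bool,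
          τ.length = n → (∀ i < n, (τ.getD i false = true ↔ i ∈ A)) →
          ∃ j ≤ c, ∃ σ ∈ ψ (τ, j), σ.length = n ∧
            ∀ i < n, (σ.getD i false = true ↔ i ∈ D)) :=
  main_of (geoStatement P0) guessStatement hR

end Pool.Agent.Helper542.RK
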