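import Pool.Agent.Helper542.RK.Setup

set_option autoImplicit false

namespace Pool.Agent.Helper542.RK

open Finset

variable {P : Par} {T : ℕ} {st : St} {e : ℕ} {v : ℕ → ℚ} {zc' : ℕ → ℕ → Finset ℕ}

/-! ### records -/

theorem znew_leI (st : St) (e x : ℕ) : znew st e x ≤ e := by
  unfold znew
  split_ifs
  · exact le_rfl
  · exact min_le_right _ _

theorem znew_of_mem {st : St} {e x : ℕ} (h : x ∈ st.U) : znew st e x = e := by
  unfold znew; rw [if_pos h]

theorem znew_of_not_mem {st : St} {e x : ℕ} (h : x ∉ st.U) : znew st e x = min (st.z x) e := by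
  unfold znew; rw [if_neg h]

theorem znew_div_leI (P : Par) (st : St) (e i x : ℕ) : znew st e x / P.L i ≤ e / P.L i :=
  Nat.div_le_div_right (znew_leI st e x)

/-- for a token left of `E_i` which has a record, out is unchanged -/
theorem znew_out_iff {i x : ℕ} (hx : x ∉ st.U) (h : x / P.L i < e / P.L i) :
    x / P.L i < znew st e x / P.L i ↔ x / P.L i < st.z x / P.L i := by
  rw [znew_of_not_mem hx]
  constructor
  · intro h1
    exact lt_of_lt_of_le h1 (Nat.div_le_div_right (min_le_left _ _))
  · intro h1
    rcases le_total (st.z x) e with h2 | h2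
    · rw [min_eq_left h2]; exact h1
    · rw [min_eq_right h2]; exact h

theorem znew_out_U {i x : ℕ} (hx : x ∈ st.U) (h : x / P.L i < e / P.L i) :
    x / P.L i < znew st e x / P.L i := by
  rw [znew_of_mem hx]; exact h

/-! ### L0: the amounts -/

theorem Rd.toBase (h : Rd P T st e v zc') : Base P st := h.hI.toBase

theorem rhoF_nonneg (b : ℕ → ℚ) (l : ℕ) : 0 ≤ rhoF P st e zc' b l := by
  unfold rhoF
  split_ifs
  · exact zero_le_one
  · exact le_min zero_le_one (le_max_left _ _)

theorem rhoF_le_one (b : ℕ → ℚ) (l : ℕ) : rhoF P st e zc' b l ≤ 1 := by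
  unfold rhoF
  split_ifs
  · exact le_rfl
  · exact min_le_left _ _

theorem rho_nonneg (l : ℕ) : 0 ≤ rho P st e v zc' l := rhoF_nonneg _ _
theorem rho_le_one (l : ℕ) : rho P st e v zc' l ≤ 1 := rhoF_le_one _ _

theorem bet_zeroI (x : ℕ) : bet P st e v zc' 0 x = st.al x + v x := rfl

theorem bet_succI (l x : ℕ) : bet P st e v zc' (l+1) x =
    if watch P st e l x then bet P st e v zc' l x * rho P st e v zc' l
    else bet P st e v zc' l x := rfl

theorem bet_succ_of_watch {l x : ℕ} (hw : watch P st e l x) :
    bet P st e v zc' (l+1) x = bet P st e v zc' l x * rho P st e v zc' l := by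
  rw [bet_succI, if_pos hw]

theorem bet_succ_of_not {l x : ℕ} (hw : ¬ watch P st e l x) :
    bet P st e v zc' (l+1) x = bet P st e v zc' l x := by
  rw [bet_succI, if_neg hw]

theorem Rd.bet_nonneg (h : Rd P T st e v zc') (l x : ℕ) : 0 ≤ bet P st e v zc' l x := by
  induction l with
  | zero => rw [bet_zeroI]; exact add_nonneg (h.toBase.al0 x) (h.v0 x)
  | succ l ih =>
    rw [bet_succI]
    split_ifs
    · exact mul_nonneg ih (rho_nonneg l)
    · exact ih

theorem Rd.bet_succ_le (h : Rd P T st e v zc') (l x : ℕ) :
    bet P st e v zc' (l+1) x ≤ bet P st e v zc' l x := by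
  rw [bet_succI]
  split_ifs
  · exact mul_le_of_le_one_right (h.bet_nonneg l x) (rho_le_one l)
  · exact le_rfl

theorem Rd.bet_anti (h : Rd P T st e v zc') {l m : ℕ} (hlm : l ≤ m) (x : ℕ) :
    bet P st e v zc' m x ≤ bet P st e v zc' l x := by
  induction m, hlm using Nat.le_induction with
  | base => exact le_rfl
  | succ m _ ih => exact (h.bet_succ_le m x).trans ih

theorem Rd.bet_le_zero (h : Rd P T st e v zc') (l x : ℕ) :
    bet P st e v zc' l x ≤ st.al x + v x := h.bet_anti (Nat.zero_le l) x

/-- a token which is not left of `E_l` watches no class `≥ l` -/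
theorem not_watch_of_le {l j x : ℕ} (hlj : l ≤ j) (hx : e / P.L l ≤ x / P.L l) :
    ¬ watch P st e j x := by
  intro hw
  have h1 := div_lt_anti hlj hw.1
  omega

theorem bet_const {l m x : ℕ} (hlm : l ≤ m) (hx : e / P.L l ≤ x / P.L l) :
    bet P st e v zc' m x = bet P st e v zc' l x := by
  induction m, hlm using Nat.le_induction with
  | base => rfl
  | succ m hm ih => rw [bet_succ_of_not (not_watch_of_le hm hx), ih]

theorem bet_const_of_not_watch {l m x : ℕ} (hlm : l ≤ m)
    (hx : ∀ j, l ≤ j → j < m → ¬ watch P st e j x) :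
    bet P st e v zc' m x = bet P st e v zc' l x := by
  induction m, hlm using Nat.le_induction with
  | base => rfl
  | succ m hm ih =>
    rw [bet_succ_of_not (hx m hm (Nat.lt_succ_self m))]
    exact ih (fun j h1 h2 => hx j h1 (by omega))

/-- tokens whose record stays inside their window of class `i`, left of `E_i`, keep their amount -/
theorem Rd.bet_eq_al (h : Rd P T st e v zc') {i x : ℕ} (m : ℕ) (h1 : x / P.L i < e / P.L i)
    (h2 : znew st e x / P.L i ≤ x / P.L i) : bet P st e v zc' m x = st.al x := by
  have hv : v x = 0 := by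
    by_contra hv
    have := (h.vtok x hv).2.1
    rw [this] at h2
    omega
  have hw : ∀ j, ¬ watch P st e j x := by
    intro j hj
    rcases le_total j i with hji | hij
    · have h3 := div_eq_of_le hji hj.2
      omega
    · have h3 : x / P.L j < znew st e x / P.L j := by rw [hj.2]; exact hj.1
      have h4 := div_lt_anti hij h3
      omega
  rw [bet_const_of_not_watch (Nat.zero_le m) (fun j _ _ => hw j), bet_zeroI, hv, add_zero]

/-! ### L1: windows left of `e` -/

theorem Rd.left_aux (h : Rd P T st e v zc') {b : ℕ → ℚ}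
    (hb : ∀ x i, x / P.L i < e / P.L i → znew st e x / P.L i ≤ x / P.L i → b x = st.al x)
    (i : ℕ) :
    (∀ q, q < e / P.L i → Phi P (reply st e b zc') i q = Phi P st i q) ∧
    (∀ x, x / P.L i < e / P.L i → S P (reply st e b zc') (i+1) x = S P st (i+1) x) := by
  have hB := h.toBase
  induction i with
  | zero =>
    have h1 : ∀ q, q < e / P.L 0 → Phi P (reply st e b zc') 0 q = Phi P st 0 q := by
      intro q hq
      rw [Phi_zero, Phi_zero]
      have e1 : (reply st e b zc').M ∩ win P 0 q = st.M ∩ win P 0 q := by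
        ext x
        simp only [reply, Finset.mem_inter, Finset.mem_insert, mem_win]
        constructor
        · rintro ⟨h1 | h1, h2⟩
          · subst h1; omega
          · exact ⟨h1, h2⟩
        · rintro ⟨h1, h2⟩
          exact ⟨Or.inr h1, h2⟩
      rw [e1]
      have e2 : ∑ x ∈ (win P 0 q).filter
          (fun x => ¬ (x / P.L 0 < (reply st e b zc').z x / P.L 0)), (reply st e b zc').al x =
          ∑ x ∈ (win P 0 q).filter (fun x => ¬ (x / P.L 0 < st.z x / P.L 0)), st.al x := by
        have e3 : (win P 0 q).filter (fun x => ¬ (x / P.L 0 < (reply st e b zc').z x / P.L 0)) ⊆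
            (win P 0 q).filter (fun x => ¬ (x / P.L 0 < st.z x / P.L 0)) := by
          intro x hx
          rw [Finset.mem_filter, mem_win] at hx ⊢
          refine ⟨hx.1, ?_⟩
          have hxe : x / P.L 0 < e / P.L 0 := by rw [hx.1]; exact hq
          by_cases hU : x ∈ st.U
          · exact absurd (znew_out_U hU hxe) hx.2
          · intro h3
            exact hx.2 ((znew_out_iff hU hxe).2 h3)
        rw [← Finset.sum_subset e3]
        · apply Finset.sum_congr rfl
          intro x hx
          rw [Finset.mem_filter, mem_win] at hx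
          have hxe : x / P.L 0 < e / P.L 0 := by rw [hx.1]; exact hq
          exact hb x 0 hxe (not_lt.1 hx.2)
        · intro x hx hx'
          rw [Finset.mem_filter, mem_win] at hx hx'
          have hxe : x / P.L 0 < e / P.L 0 := by rw [hx.1]; exact hq
          by_cases hU : x ∈ st.U
          · exact hB.alz x (hB.Uz x hU)
          · exfalso
            apply hx'
            refine ⟨hx.1, ?_⟩
            intro h3
            exact hx.2 ((znew_out_iff hU hxe).1 h3)
      rw [e2]
    refine ⟨h1, ?_⟩
    intro x hx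
    rw [S_succ, S_succ, S_zero, S_zero, Gs, Gs, h1 _ hx]
  | succ i ih =>
    have h1 : ∀ q, q < e / P.L (i+1) → Phi P (reply st e b zc') (i+1) q = Phi P st (i+1) q := by
      intro q hq
      have hk : ∀ r ∈ kids P i q, r < e / P.L i := by
        intro r hr
        rw [mem_kids] at hr
        by_contra hcon
        push Not at hcon
        have := Nat.div_le_div_right (c := P.N i) hcon
        rw [← div_succ] at this
        omega
      rw [Phi_succ, Phi_succ]
      have e1 : ∑ r ∈ kids P i q, F P (reply st e b zc') i r = ∑ r ∈ kids P i q, F P st i r := by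
        apply Finset.sum_congr rfl
        intro r hr
        rw [F, F, ih.1 r (hk r hr)]
      have e2 : (reply st e b zc').zc (i+1) q = st.zc (i+1) q :=
        h.zeq (i+1) q (by omega)
      rw [e1, e2]
      have e3 : (win P (i+1) q).filter (fun x => x / P.L i < (reply st e b zc').z x / P.L i ∧
          ¬ (x / P.L (i+1) < (reply st e b zc').z x / P.L (i+1))) =
          (win P (i+1) q).filter (fun x => x / P.L i < st.z x / P.L i ∧
          ¬ (x / P.L (i+1) < st.z x / P.L (i+1))) := by
        apply Finset.filter_congr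
        intro x hx
        rw [mem_win] at hx
        have hxe : x / P.L (i+1) < e / P.L (i+1) := by rw [hx]; exact hq
        have hxe' : x / P.L i < e / P.L i := div_lt_anti (Nat.le_succ i) hxe
        by_cases hU : x ∈ st.U
        · have h3 := znew_out_U hU hxe
          have h4 : st.z x / P.L i = 0 := by rw [hB.Uz x hU, Nat.zero_div]
          constructor
          · intro h5; exact absurd h3 h5.2
          · intro h5
            have h6 := h5.1
            rw [h4] at h6
            exact absurd h6 (Nat.not_lt_zero _)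
        · change (x / P.L i < znew st e x / P.L i ∧ ¬ (x / P.L (i+1) < znew st e x / P.L (i+1))) ↔ _
          rw [znew_out_iff hU hxe, znew_out_iff hU hxe']
      rw [e3]
      have e4 : ∑ x ∈ (win P (i+1) q).filter (fun x => x / P.L i < st.z x / P.L i ∧
          ¬ (x / P.L (i+1) < st.z x / P.L (i+1))),
          (reply st e b zc').al x * S P (reply st e b zc') (i+1) x =
          ∑ x ∈ (win P (i+1) q).filter (fun x => x / P.L i < st.z x / P.L i ∧
          ¬ (x / P.L (i+1) < st.z x / P.L (i+1))), st.al x * S P st (i+1) x := by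
        rw [← e3]
        apply Finset.sum_congr rfl
        intro x hx
        rw [Finset.mem_filter, mem_win] at hx
        have hxe : x / P.L (i+1) < e / P.L (i+1) := by rw [hx.1]; exact hq
        have hxe' : x / P.L i < e / P.L i := div_lt_anti (Nat.le_succ i) hxe
        rw [ih.2 x hxe']
        congr 1
        exact hb x (i+1) hxe (not_lt.1 hx.2.2)
      rw [e4]
    refine ⟨h1, ?_⟩
    intro x hx
    have hxe' : x / P.L i < e / P.L i := div_lt_anti (Nat.le_succ i) hx
    rw [S_succ _ (i+1), S_succ _ (i+1), ih.2 x hxe', Gs, Gs, h1 _ hx]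

theorem Rd.left_Phi (h : Rd P T st e v zc') {b : ℕ → ℚ}
    (hb : ∀ x i, x / P.L i < e / P.L i → znew st e x / P.L i ≤ x / P.L i → b x = st.al x)
    {i q : ℕ} (hq : q < e / P.L i) : Phi P (reply st e b zc') i q = Phi P st i q :=
  (h.left_aux hb i).1 q hq

theorem Rd.left_S (h : Rd P T st e v zc') {b : ℕ → ℚ}
    (hb : ∀ x i, x / P.L i < e / P.L i → znew st e x / P.L i ≤ x / P.L i → b x = st.al x)
    {i x : ℕ} (hx : x / P.L i < e / P.L i) :
    S P (reply st e b zc') (i+1) x = S P st (i+1) x :=
  (h.left_aux hb i).2 x hx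

theorem Rd.bet_hyp (h : Rd P T st e v zc') (m : ℕ) :
    ∀ x i, x / P.L i < e / P.L i → znew st e x / P.L i ≤ x / P.L i →
      bet P st e v zc' m x = st.al x := fun _ _ h1 h2 => h.bet_eq_al m h1 h2

theorem Rd.nst_left_Phi (h : Rd P T st e v zc') {i q : ℕ} (hq : q < e / P.L i) :
    Phi P (nst P T st e v zc') i q = Phi P st i q := h.left_Phi (h.bet_hyp T) hq

theorem Rd.nst_left_F (h : Rd P T st e v zc') {i q : ℕ} (hq : q < e / P.L i) :
    F P (nst P T st e v zc') i q = F P st i q := by rw [F, F, h.nst_left_Phi hq]

theorem Rd.nst_left_Gs (h : Rd P T st e v zc') {i q : ℕ} (hq : q < e / P.L i) :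
    Gs P (nst P T st e v zc') i q = Gs P st i q := by rw [Gs, Gs, h.nst_left_Phi hq]

theorem Rd.nst_left_S (h : Rd P T st e v zc') {i x : ℕ} (hx : x / P.L i < e / P.L i) :
    S P (nst P T st e v zc') (i+1) x = S P st (i+1) x := h.left_S (h.bet_hyp T) hx

/-! ### L2: locality -/

theorem reply_local (P : Par) (st : St) (e : ℕ) (zc' : ℕ → ℕ → Finset ℕ) (i : ℕ) :
    (∀ (b b' : ℕ → ℚ) q, (∀ x ∈ win P i q, b x = b' x) →
      Phi P (reply st e b zc') i q = Phi P (reply st e b' zc') i q) ∧
    (∀ (b b' : ℕ → ℚ) x, (∀ y ∈ win P i (x / P.L i), b y = b' y) →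
      S P (reply st e b zc') (i+1) x = S P (reply st e b' zc') (i+1) x) := by
  induction i with
  | zero =>
    have h1 : ∀ (b b' : ℕ → ℚ) q, (∀ x ∈ win P 0 q, b x = b' x) →
      Phi P (reply st e b zc') 0 q = Phi P (reply st e b' zc') 0 q := by
      intro b b' q hb
      rw [Phi_zero, Phi_zero]
      have e1 : ∑ x ∈ (win P 0 q).filter
          (fun x => ¬ (x / P.L 0 < (reply st e b zc').z x / P.L 0)), (reply st e b zc').al x =
          ∑ x ∈ (win P 0 q).filter
          (fun x => ¬ (x / P.L 0 < (reply st e b' zc').z x / P.L 0)), (reply st e b' zc').al x := by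
        apply Finset.sum_congr rfl
        intro x hx
        exact hb x (Finset.mem_filter.1 hx).1
      rw [e1]
      rfl
    refine ⟨h1, ?_⟩
    intro b b' x hb
    rw [S_succ, S_succ, S_zero, S_zero, Gs, Gs, h1 b b' _ hb]
  | succ i ih =>
    have hsub : ∀ x, win P i (x / P.L i) ⊆ win P (i+1) (x / P.L (i+1)) := by
      intro x y hy
      rw [mem_win] at hy ⊢
      exact div_eq_of_le (Nat.le_succ i) hy
    have h1 : ∀ (b b' : ℕ → ℚ) q, (∀ x ∈ win P (i+1) q, b x = b' x) →
      Phi P (reply st e b zc') (i+1) q = Phi P (reply st e b' zc') (i+1) q := by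
      intro b b' q hb
      rw [Phi_succ, Phi_succ]
      have e1 : ∑ r ∈ kids P i q, F P (reply st e b zc') i r =
          ∑ r ∈ kids P i q, F P (reply st e b' zc') i r := by
        apply Finset.sum_congr rfl
        intro r hr
        rw [F, F, ih.1 b b' r]
        intro x hx
        apply hb
        rw [mem_win] at hx ⊢
        rw [mem_kids] at hr
        rw [div_succ, hx, hr]
      have e2 : ∑ x ∈ (win P (i+1) q).filter (fun x => x / P.L i <
            (reply st e b zc').z x / P.L i ∧
          ¬ (x / P.L (i+1) < (reply st e b zc').z x / P.L (i+1))),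
          (reply st e b zc').al x * S P (reply st e b zc') (i+1) x =
          ∑ x ∈ (win P (i+1) q).filter (fun x => x / P.L i <
            (reply st e b' zc').z x / P.L i ∧
          ¬ (x / P.L (i+1) < (reply st e b' zc').z x / P.L (i+1))),
          (reply st e b' zc').al x * S P (reply st e b' zc') (i+1) x := by
        apply Finset.sum_congr rfl
        intro x hx
        have hx1 := (Finset.mem_filter.1 hx).1
        have hx2 : b x = b' x := hb x hx1
        have hx3 : S P (reply st e b zc') (i+1) x = S P (reply st e b' zc') (i+1) x := by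
          apply ih.2
          intro y hy
          apply hb
          rw [mem_win] at hx1
          rw [← hx1]
          exact hsub x hy
        rw [hx3]
        change b x * _ = b' x * _
        rw [hx2]
      rw [e1, e2]
      rfl
    refine ⟨h1, ?_⟩
    intro b b' x hb
    rw [S_succ _ (i+1), S_succ _ (i+1), Gs, Gs, h1 b b' _ hb, ih.2 b b' x]
    intro y hy
    exact hb y (hsub x hy)

theorem reply_local_Phi {b b' : ℕ → ℚ} {i q : ℕ} (hb : ∀ x ∈ win P i q, b x = b' x) :
    Phi P (reply st e b zc') i q = Phi P (reply st e b' zc') i q :=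
  (reply_local P st e zc' i).1 b b' q hb

theorem reply_local_S {b b' : ℕ → ℚ} {i x : ℕ} (hb : ∀ y ∈ win P i (x / P.L i), b y = b' y) :
    S P (reply st e b zc') (i+1) x = S P (reply st e b' zc') (i+1) x :=
  (reply_local P st e zc' i).2 b b' x hb

theorem nst_Phi_E {l : ℕ} (hl : l ≤ T) :
    Phi P (nst P T st e v zc') l (e / P.L l) =
      Phi P (reply st e (bet P st e v zc' l) zc') l (e / P.L l) := by
  apply reply_local_Phi
  intro x hx
  rw [mem_win] at hx
  exact bet_const hl (le_of_eq hx.symm)

theorem nst_F_E {l : ℕ} (hl : l ≤ T) :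
    F P (nst P T st e v zc') l (e / P.L l) =
      F P (reply st e (bet P st e v zc' l) zc') l (e / P.L l) := by
  rw [F, F, nst_Phi_E hl]

/-! ### L3: the base part of the invariant -/

theorem Rd.znew_zero (h : Rd P T st e v zc') {x : ℕ} (hx : znew st e x = 0) :
    st.al x = 0 ∧ v x = 0 := by
  have he := h.e0
  constructor
  · by_cases hU : x ∈ st.U
    · exact h.toBase.alz x (h.toBase.Uz x hU)
    · rw [znew_of_not_mem hU] at hx
      apply h.toBase.alz
      rcases le_total (st.z x) e with h2 | h2
      · rw [min_eq_left h2] at hx; exact hx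
      · rw [min_eq_right h2] at hx; omega
  · by_contra hv
    have := (h.vtok x hv).2.1
    omega

theorem Rd.nst_base (h : Rd P T st e v zc') : Base P (nst P T st e v zc') where
  Uz := by
    intro x hx
    exact absurd hx (Finset.notMem_empty x)
  al0 := fun x => h.bet_nonneg T x
  al1 := fun x => (h.bet_le_zero T x).trans (h.b1 x)
  alz := by
    intro x hx
    have h1 := h.znew_zero hx
    have h2 := h.bet_le_zero T x
    have h3 := h.bet_nonneg T x
    rw [h1.1, h1.2] at h2
    change bet P st e v zc' T x = 0
    linarith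
  al2 := by
    intro x hx
    have h1 := h.al2 x hx
    have h2 := h.bet_le_zero T x
    have h3 := P.hG2
    exact (mul_le_mul_of_nonneg_left h2 h3.le).trans h1
  J1p := by
    intro p j hj hp
    have hpe : p / P.L j < e / P.L j := lt_of_lt_of_le hp (znew_div_leI P st e j p)
    rw [h.nst_left_S hpe, h.nst_left_F hpe]
    have h1 := h.J1p p j hj hp
    have h2 := h.bet_le_zero T p
    exact (mul_le_mul_of_nonneg_right h2 (h.toBase.S_pos _ _).le).trans h1
  JZ := by
    intro i q x hx
    exact h.JZ i q x hx
  cnt := by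
    intro n
    by_cases hn : n ≤ e
    · refine le_trans (Finset.card_le_card ?_) (h.toBase.cnt n)
      intro x hx
      rw [Finset.mem_filter, Finset.mem_range] at hx ⊢
      refine ⟨hx.1, hx.2.1, ?_⟩
      rcases hx.2.2 with h1 | h1
      · exact absurd h1 (Finset.notMem_empty x)
      · by_cases hU : x ∈ st.U
        · exact Or.inl hU
        · right
          change n ≤ znew st e x at h1
          rw [znew_of_not_mem hU] at h1
          exact h1.trans (min_le_left _ _)
    · have h0 : cntv (nst P T st e v zc') n = 0 := by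
        rw [cntv, Finset.card_eq_zero, Finset.filter_eq_empty_iff]
        intro x _ hx
        rcases hx.2 with h1 | h1
        · exact absurd h1 (Finset.notMem_empty x)
        · have h2 := znew_leI st e x
          change n ≤ znew st e x at h1
          omega
      omega

/-! ### L4: the refund factors -/

theorem F_le_of_Phi_le {s s' : St} {i q q' : ℕ} (h0 : 0 ≤ Phi P s i q)
    (h : Phi P s i q ≤ Phi P s' i q') : F P s i q ≤ F P s' i q' := by
  have h1 := P.hconv i _ _ h0 (h0.trans h)
  have h2 := P.hg0 i _ h0
  have h3 : 0 ≤ P.g i (Phi P s i q) * (Phi P s' i q' - Phi P s i q) :=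
    mul_nonneg h2.le (by linarith)
  unfold F
  linarith

theorem Phi_le_of_F_le {s s' : St} {i q q' : ℕ} (h0' : 0 ≤ Phi P s' i q')
    (h0 : 0 ≤ Phi P s i q) (h : F P s i q ≤ F P s' i q') : Phi P s i q ≤ Phi P s' i q' := by
  by_contra hcon
  push Not at hcon
  have h1 := P.hconv i _ _ h0' h0
  have h2 := P.hg0 i _ h0'
  have h3 : 0 < P.g i (Phi P s' i q') * (Phi P s i q - Phi P s' i q') :=
    mul_pos h2 (by linarith)
  unfold F at h
  linarith

theorem Rd.rho_eq (h : Rd P T st e v zc') {l : ℕ} (hl1 : 1 ≤ l) (hl : l ≤ T) :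
    rho P st e v zc' l =
      min 1 (F P (nst P T st e v zc') l (e / P.L l) / F P st l (e / P.L l)) := by
  rw [rho, rhoF, if_neg (by omega), ← nst_F_E hl, max_eq_right]
  exact div_nonneg (h.nst_base.Fpos _ _).le (h.toBase.Fpos _ _).le

theorem Rd.rho_F (h : Rd P T st e v zc') {l : ℕ} (hl1 : 1 ≤ l) (hl : l ≤ T) :
    rho P st e v zc' l * F P st l (e / P.L l) ≤ F P (nst P T st e v zc') l (e / P.L l) := by
  have h1 := h.toBase.Fpos l (e / P.L l)
  rw [h.rho_eq hl1 hl, ← le_div_iff₀ h1]
  exact min_le_right _ _

theorem Rd.rho_Gs (h : Rd P T st e v zc') {l : ℕ} (hl1 : 1 ≤ l) (hl : l ≤ T) :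
    rho P st e v zc' l * Gs P st l (e / P.L l) ≤ Gs P (nst P T st e v zc') l (e / P.L l) := by
  have h1 := h.toBase.Fpos l (e / P.L l)
  have hG := h.toBase.Gpos l (e / P.L l)
  have h0 := h.toBase.Phi_nonneg l (e / P.L l)
  have h0' := h.nst_base.Phi_nonneg l (e / P.L l)
  rcases le_total (Phi P st l (e / P.L l)) (Phi P (nst P T st e v zc') l (e / P.L l)) with h2 | h2
  · have h3 : Gs P st l (e / P.L l) ≤ Gs P (nst P T st e v zc') l (e / P.L l) :=
      P.hgmono l _ _ h0 h2
    exact (mul_le_of_le_one_left hG.le (rho_le_one l)).trans h3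
  · have h3 := P.hcool l _ _ h0' h2
    have h4 : rho P st e v zc' l ≤
        F P (nst P T st e v zc') l (e / P.L l) / F P st l (e / P.L l) := by
      rw [h.rho_eq hl1 hl]; exact min_le_right _ _
    refine (mul_le_mul_of_nonneg_right h4 hG.le).trans ?_
    rw [div_mul_eq_mul_div, div_le_iff₀ h1]
    exact h3

/-! ### L5: inheritance of J2 and J1z -/

/-- the common step: factors of class `i` at `p` and at `y` (record side) -/
theorem Rd.step (h : Rd P T st e v zc') {i p y : ℕ} (hiT : i < T) (hpy : p / P.L i ≤ y / P.L i)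
    (hy : y / P.L i ≤ znew st e p / P.L i) (hi : i = 0 → y / P.L i < znew st e p / P.L i ∨
      p / P.L i = y / P.L i) :
    bet P st e v zc' (i+1) p * Gs P (nst P T st e v zc') i (p / P.L i) * Gs P st i (y / P.L i) ≤
      bet P st e v zc' i p * Gs P st i (p / P.L i) * Gs P (nst P T st e v zc') i (y / P.L i) := by
  have hb := h.nst_base
  have hB := h.toBase
  have hG1 := (hB.Gpos i (p / P.L i)).le
  have hG2 := (hB.Gpos i (y / P.L i)).le
  have hG3 := (hb.Gpos i (p / P.L i)).le
  have hG4 := (hb.Gpos i (y / P.L i)).le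
  have hbb := h.bet_succ_le i p
  have hb0 := h.bet_nonneg i p
  rcases Nat.eq_or_lt_of_le hpy with heq | hlt
  · rw [← heq, mul_assoc, mul_assoc, mul_comm (Gs P st i (p / P.L i))]
    exact mul_le_mul_of_nonneg_right hbb (mul_nonneg hG3 hG1)
  · have hzE := znew_div_leI P st e i p
    have hpE : p / P.L i < e / P.L i := by omega
    rw [h.nst_left_Gs hpE]
    rcases Nat.lt_or_ge (y / P.L i) (e / P.L i) with hyE | hyE
    · rw [h.nst_left_Gs hyE]
      exact mul_le_mul_of_nonneg_right (mul_le_mul_of_nonneg_right hbb hG1) hG2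
    · have hy1 : y / P.L i = e / P.L i := by omega
      have hz1 : znew st e p / P.L i = e / P.L i := by omega
      have hi1 : 1 ≤ i := by
        by_contra hcon
        have hi0 : i = 0 := by omega
        rcases hi hi0 with h5 | h5 <;> omega
      rw [bet_succ_of_watch ⟨hpE, hz1⟩, hy1]
      have h6 := h.rho_Gs hi1 hiT.le
      have h7 : bet P st e v zc' i p * rho P st e v zc' i * Gs P st i (p / P.L i) *
          Gs P st i (e / P.L i) = bet P st e v zc' i p * Gs P st i (p / P.L i) *
          (rho P st e v zc' i * Gs P st i (e / P.L i)) := by ring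
      rw [h7]
      exact mul_le_mul_of_nonneg_left h6 (mul_nonneg hb0 hG1)

theorem Rd.J2_aux (h : Rd P T st e v zc') {p l : ℕ} (hpl : p / P.L 0 ≤ l / P.L 0)
    (hlz : l / P.L 0 < znew st e p / P.L 0) (i : ℕ) (hi : i ≤ T) :
    bet P st e v zc' i p * S P (nst P T st e v zc') i p * S P st i l ≤
      bet P st e v zc' 0 p * S P st i p * S P (nst P T st e v zc') i l := by
  have hb := h.nst_base
  have hB := h.toBase
  induction i with
  | zero => simp only [S_zero]; exact le_rfl
  | succ i ih =>
    have h1 := ih (by omega)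
    have h2 := h.step (i := i) (p := p) (y := l) (by omega) (div_le_of_le (Nat.zero_le i) hpl)
      (div_le_of_le (Nat.zero_le i) hlz.le) (by
        intro h0; subst h0; exact Or.inl hlz)
    simp only [S_succ]
    have hx1 := (hb.S_pos i p).le
    have hx2 := (hB.S_pos i l).le
    have hx3 := (hB.Gpos i (p / P.L i)).le
    have hx4 := (hb.Gpos i (l / P.L i)).le
    calc bet P st e v zc' (i+1) p * (Gs P (nst P T st e v zc') i (p / P.L i) *
          S P (nst P T st e v zc') i p) * (Gs P st i (l / P.L i) * S P st i l)
        = (bet P st e v zc' (i+1) p * Gs P (nst P T st e v zc') i (p / P.L i) *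
            Gs P st i (l / P.L i)) * (S P (nst P T st e v zc') i p * S P st i l) := by ring
      _ ≤ (bet P st e v zc' i p * Gs P st i (p / P.L i) *
            Gs P (nst P T st e v zc') i (l / P.L i)) *
            (S P (nst P T st e v zc') i p * S P st i l) :=
          mul_le_mul_of_nonneg_right h2 (mul_nonneg hx1 hx2)
      _ = (Gs P st i (p / P.L i) * Gs P (nst P T st e v zc') i (l / P.L i)) *
            (bet P st e v zc' i p * S P (nst P T st e v zc') i p * S P st i l) := by ring
      _ ≤ (Gs P st i (p / P.L i) * Gs P (nst P T st e v zc') i (l / P.L i)) *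
            (bet P st e v zc' 0 p * S P st i p * S P (nst P T st e v zc') i l) :=
          mul_le_mul_of_nonneg_left h1 (mul_nonneg hx3 hx4)
      _ = _ := by ring

theorem Rd.J1z_aux (h : Rd P T st e v zc') {p j : ℕ} (hj1 : 1 ≤ j)
    (hp : p / P.L j < znew st e p / P.L j) (i : ℕ) (hji : j + 1 ≤ i) (hi : i ≤ T) :
    bet P st e v zc' i p * S P (nst P T st e v zc') i p *
        (F P st j (znew st e p / P.L j) * Pi' P st (j+1) i (znew st e p)) ≤
      bet P st e v zc' 0 p * S P st i p *
        (F P (nst P T st e v zc') j (znew st e p / P.L j) *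
          Pi' P (nst P T st e v zc') (j+1) i (znew st e p)) := by
  have hb := h.nst_base
  have hB := h.toBase
  induction i, hji using Nat.le_induction with
  | base =>
    have hpE : p / P.L j < e / P.L j := lt_of_lt_of_le hp (znew_div_leI P st e j p)
    have hPi : ∀ s : St, Pi' P s (j+1) (j+1) (znew st e p) = 1 := by
      intro s; rw [Pi', Finset.Ico_self, Finset.prod_empty]
    rw [hPi, hPi, mul_one, mul_one, h.nst_left_S hpE]
    have hS := (hB.S_pos (j+1) p).le
    have hF := (hB.Fpos j (znew st e p / P.L j)).le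
    have hF' := (hb.Fpos j (znew st e p / P.L j)).le
    have hb0 := h.bet_nonneg j p
    have hbj := h.bet_anti (Nat.zero_le j) p
    rcases Nat.lt_or_ge (znew st e p / P.L j) (e / P.L j) with hzE | hzE
    · rw [h.nst_left_F hzE]
      exact mul_le_mul_of_nonneg_right (mul_le_mul_of_nonneg_right
        (h.bet_anti (Nat.zero_le (j+1)) p) hS) hF
    · have hz1 : znew st e p / P.L j = e / P.L j := le_antisymm (znew_div_leI P st e j p) hzE
      rw [bet_succ_of_watch ⟨hpE, hz1⟩, hz1]
      have h6 := h.rho_F hj1 (by omega)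
      have h7 : bet P st e v zc' j p * rho P st e v zc' j * S P st (j+1) p *
          F P st j (e / P.L j) = bet P st e v zc' j p * S P st (j+1) p *
          (rho P st e v zc' j * F P st j (e / P.L j)) := by ring
      rw [h7]
      exact mul_le_mul (mul_le_mul_of_nonneg_right hbj hS) h6
        (mul_nonneg (rho_nonneg j) (hB.Fpos _ _).le)
        (mul_nonneg (h.bet_nonneg 0 p) hS)
  | succ i hji ih =>
    have h1 := ih (by omega)
    have hpz : p / P.L i ≤ znew st e p / P.L i := div_le_of_le (by omega) hp.le
    have h2 := h.step (i := i) (p := p) (y := znew st e p) (by omega) hpz le_rfl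
      (by intro h0; omega)
    have hPi : ∀ s : St, Pi' P s (j+1) (i+1) (znew st e p) =
        Pi' P s (j+1) i (znew st e p) * Gs P s i (znew st e p / P.L i) := by
      intro s
      rw [Pi', Pi', Finset.prod_Ico_succ_top hji]
    rw [hPi, hPi]
    simp only [S_succ]
    have hx1 := (hb.S_pos i p).le
    have hx2 := (hB.Fpos j (znew st e p / P.L j)).le
    have hx2' := (hB.Pi_pos (j+1) i (znew st e p)).le
    have hx3 := (hB.Gpos i (p / P.L i)).le
    have hx4 := (hb.Gpos i (znew st e p / P.L i)).le
    calc bet P st e v zc' (i+1) p * (Gs P (nst P T st e v zc') i (p / P.L i) *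
          S P (nst P T st e v zc') i p) * (F P st j (znew st e p / P.L j) *
          (Pi' P st (j+1) i (znew st e p) * Gs P st i (znew st e p / P.L i)))
        = (bet P st e v zc' (i+1) p * Gs P (nst P T st e v zc') i (p / P.L i) *
            Gs P st i (znew st e p / P.L i)) * (S P (nst P T st e v zc') i p *
            (F P st j (znew st e p / P.L j) * Pi' P st (j+1) i (znew st e p))) := by ring
      _ ≤ (bet P st e v zc' i p * Gs P st i (p / P.L i) *
            Gs P (nst P T st e v zc') i (znew st e p / P.L i)) *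
            (S P (nst P T st e v zc') i p *
            (F P st j (znew st e p / P.L j) * Pi' P st (j+1) i (znew st e p))) :=
          mul_le_mul_of_nonneg_right h2 (mul_nonneg hx1 (mul_nonneg hx2 hx2'))
      _ = (Gs P st i (p / P.L i) * Gs P (nst P T st e v zc') i (znew st e p / P.L i)) *
            (bet P st e v zc' i p * S P (nst P T st e v zc') i p *
            (F P st j (znew st e p / P.L j) * Pi' P st (j+1) i (znew st e p))) := by ring
      _ ≤ (Gs P st i (p / P.L i) * Gs P (nst P T st e v zc') i (znew st e p / P.L i)) *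
            (bet P st e v zc' 0 p * S P st i p *
            (F P (nst P T st e v zc') j (znew st e p / P.L j) *
              Pi' P (nst P T st e v zc') (j+1) i (znew st e p))) :=
          mul_le_mul_of_nonneg_left h1 (mul_nonneg hx3 hx4)
      _ = _ := by ring

theorem Rd.nst_J2 (h : Rd P T st e v zc') : ∀ p l, p / P.L 0 ≤ l / P.L 0 →
    l / P.L 0 < (nst P T st e v zc').z p / P.L 0 →
    P.G2 * (nst P T st e v zc').al p * S P (nst P T st e v zc') T p ≤
      S P (nst P T st e v zc') T l := by
  intro p l hpl hlz
  change l / P.L 0 < znew st e p / P.L 0 at hlz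
  change P.G2 * bet P st e v zc' T p * _ ≤ _
  have h1 := h.J2_aux hpl hlz T le_rfl
  have h2 := h.J2 p l hpl hlz
  have hG := P.hG2
  have hS := h.toBase.S_pos T l
  have hS' := h.nst_base.S_pos T l
  have h3 : (P.G2 * bet P st e v zc' T p * S P (nst P T st e v zc') T p) * S P st T l ≤
      S P (nst P T st e v zc') T l * S P st T l := by
    calc (P.G2 * bet P st e v zc' T p * S P (nst P T st e v zc') T p) * S P st T l
        = P.G2 * (bet P st e v zc' T p * S P (nst P T st e v zc') T p * S P st T l) := by ring
      _ ≤ P.G2 * (bet P st e v zc' 0 p * S P st T p * S P (nst P T st e v zc') T l) :=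
          mul_le_mul_of_nonneg_left h1 hG.le
      _ = (P.G2 * (st.al p + v p) * S P st T p) * S P (nst P T st e v zc') T l := by
          rw [bet_zeroI]; ring
      _ ≤ S P st T l * S P (nst P T st e v zc') T l := mul_le_mul_of_nonneg_right h2 hS'.le
      _ = _ := by ring
  exact le_of_mul_le_mul_right h3 hS

theorem Rd.znew_lt (h : Rd P T st e v zc') (x : ℕ) : znew st e x < P.L T :=
  lt_of_le_of_lt (znew_leI st e x) h.eT

theorem L_monoI (P : Par) {i j : ℕ} (h : i ≤ j) : P.L i ≤ P.L j := by
  induction j, h using Nat.le_induction with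
  | base => exact le_rfl
  | succ j _ ih =>
    rw [P.hL]
    exact ih.trans (Nat.le_mul_of_pos_right _ (P.Npos j))

theorem Rd.nst_J1z (h : Rd P T st e v zc') : ∀ p j, 1 ≤ j →
    p / P.L j < (nst P T st e v zc').z p / P.L j →
    (nst P T st e v zc').al p * S P (nst P T st e v zc') T p ≤
      P.eps j * (F P (nst P T st e v zc') j ((nst P T st e v zc').z p / P.L j) *
        Pi' P (nst P T st e v zc') (j+1) T ((nst P T st e v zc').z p)) := by
  intro p j hj hp
  change p / P.L j < znew st e p / P.L j at hp
  change bet P st e v zc' T p * _ ≤ P.eps j * (F P (nst P T st e v zc') j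
    (znew st e p / P.L j) * Pi' P (nst P T st e v zc') (j+1) T (znew st e p))
  have hjT : j + 1 ≤ T := by
    by_contra hcon
    have h1 : T ≤ j := by omega
    have h2 := L_monoI P h1
    have h3 := h.znew_lt p
    have h4 : znew st e p / P.L j = 0 := Nat.div_eq_of_lt (by omega)
    rw [h4] at hp
    exact absurd hp (Nat.not_lt_zero _)
  have h1 := h.J1z_aux hj hp T hjT le_rfl
  have h2 := h.J1z p j hj hp
  have hb := h.nst_base
  have hB := h.toBase
  have hX : 0 < F P st j (znew st e p / P.L j) * Pi' P st (j+1) T (znew st e p) :=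
    mul_pos (hB.Fpos _ _) (hB.Pi_pos _ _ _)
  have hX' : 0 < F P (nst P T st e v zc') j (znew st e p / P.L j) *
      Pi' P (nst P T st e v zc') (j+1) T (znew st e p) :=
    mul_pos (hb.Fpos _ _) (hb.Pi_pos _ _ _)
  have h3 : (bet P st e v zc' T p * S P (nst P T st e v zc') T p) *
      (F P st j (znew st e p / P.L j) * Pi' P st (j+1) T (znew st e p)) ≤
      (P.eps j * (F P (nst P T st e v zc') j (znew st e p / P.L j) *
        Pi' P (nst P T st e v zc') (j+1) T (znew st e p))) *
      (F P st j (znew st e p / P.L j) * Pi' P st (j+1) T (znew st e p)) := by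
    refine h1.trans ?_
    rw [bet_zeroI]
    refine (mul_le_mul_of_nonneg_right h2 hX'.le).trans ?_
    apply le_of_eq
    ring
  exact le_of_mul_le_mul_right h3 hX

/-- the invariant is inherited as soon as the top potential does not grow too much -/
theorem Rd.nst_inv (h : Rd P T st e v zc') (hpot : Phi P (nst P T st e v zc') T 0 ≤ P.phi T) :
    Inv P T (nst P T st e v zc') where
  toBase := h.nst_base
  M_lt := by
    intro x hx
    change x ∈ insert e st.M at hx
    rcases Finset.mem_insert.1 hx with h1 | h1
    · rw [h1]; exact h.eT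
    · exact h.hI.M_lt x h1
  U_lt := by
    intro x hx
    exact absurd hx (Finset.notMem_empty x)
  z_lt := fun x => h.znew_lt x
  x_lt := by
    intro x hx
    change 0 < znew st e x at hx
    by_cases hU : x ∈ st.U
    · exact h.hI.U_lt x hU
    · rw [znew_of_not_mem hU] at hx
      exact h.hI.x_lt x (lt_of_lt_of_le hx (min_le_left _ _))
  J2 := h.nst_J2
  J1z := h.nst_J1z
  pot := hpot

end Pool.Agent.Helper542.RK
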