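import Pool.Agent.Helper542.RK.Assembly
import Pool.Agent.Helper806.RD.SRec

set_option autoImplicit false

namespace Pool.Agent.Helper542.RK

open Finset Pool.Agent.Helper806.RE

theorem exists_enumO {A : Set ℕ} (hA : REPred (fun n : ℕ => n ∈ A)) :
    ∃ f : ℕ → Option ℕ, Computable f ∧ ∀ a, a ∈ A ↔ ∃ n, f n = some a := by
  by_cases h : ∃ a0, a0 ∈ A
  · obtain ⟨a0, ha0⟩ := h
    obtain ⟨f, hf, hfa⟩ := exists_enum hA ha0
    refine ⟨fun n => some (f n), Computable.option_some.comp hf, ?_⟩
    intro a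
    rw [hfa a]
    simp
  · push Not at h
    refine ⟨fun _ => none, Computable.const none, ?_⟩
    intro a
    constructor
    · intro ha; exact absurd ha (h a)
    · rintro ⟨n, hn⟩; simp at hn

/-- one step of the construction -/
def stepR (R : Hist → Dt → ℕ → Option ℕ → Dt → Prop) (f : ℕ → Option ℕ)
    (x : ℕ × (Hist × Dt)) (y : Hist × Dt) : Prop :=
  (∃ a : ℕ, f x.1 = some a ∧ a ∉ x.2.1.map Prod.fst ∧ ∃ ρ : Option ℕ,
    y.1 = x.2.1 ++ [(a, ρ)] ∧ R x.2.1 x.2.2 a ρ y.2) ∨
  (∃ o : Option ℕ, f x.1 = o ∧ (o = none ∨ ∃ a : ℕ, o = some a ∧ a ∈ x.2.1.map Prod.fst) ∧ y = x.2)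

theorem stepR_re {R : Hist → Dt → ℕ → Option ℕ → Dt → Prop}
    (hR : REPred (fun p : Hist × Dt × ℕ × Option ℕ × Dt =>
      R p.1 p.2.1 p.2.2.1 p.2.2.2.1 p.2.2.2.2)) {f : ℕ → Option ℕ} (hf : Computable f) :
    REPred (fun p : (ℕ × (Hist × Dt)) × (Hist × Dt) => stepR R f p.1 p.2) := by
  have hmap : Computable (fun h : Hist => h.map Prod.fst) :=
    (Primrec.list_map Primrec.id (Primrec.fst.comp Primrec.snd).to₂).to_comp
  have hX : Computable (fun x : ((ℕ × (Hist × Dt)) × (Hist × Dt)) => x.1.2.1) :=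
    Computable.fst.comp (Computable.snd.comp Computable.fst)
  apply Pool.Agent.Helper806.RE.or
  · apply exN (p := fun (x : (ℕ × (Hist × Dt)) × (Hist × Dt)) a => f x.1.1 = some a ∧
      a ∉ x.1.2.1.map Prod.fst ∧ ∃ ρ : Option ℕ,
      x.2.1 = x.1.2.1 ++ [(a, ρ)] ∧ R x.1.2.1 x.1.2.2 a ρ x.2.2)
    apply Pool.Agent.Helper806.RE.and
    · apply eq
      · exact hf.comp (Computable.fst.comp (Computable.fst.comp Computable.fst))
      · exact Computable.option_some.comp Computable.snd
    apply Pool.Agent.Helper806.RE.and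
    · apply not_mem_list Computable.snd
      exact hmap.comp (hX.comp Computable.fst)
    apply ex (p := fun (x : ((ℕ × (Hist × Dt)) × (Hist × Dt)) × ℕ) (ρ : Option ℕ) =>
      x.1.2.1 = x.1.1.2.1 ++ [(x.2, ρ)] ∧ R x.1.1.2.1 x.1.1.2.2 x.2 ρ x.1.2.2)
    apply Pool.Agent.Helper806.RE.and
    · apply eq
      · exact Computable.fst.comp (Computable.snd.comp (Computable.fst.comp Computable.fst))
      · refine Computable.list_append.comp (hX.comp (Computable.fst.comp Computable.fst)) ?_
        exact Computable.list_cons.comp ((Computable.snd.comp Computable.fst).pair Computable.snd)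
          (Computable.const [])
    · have hg : Computable (fun x : (((ℕ × (Hist × Dt)) × (Hist × Dt)) × ℕ) × Option ℕ =>
          ((x.1.1.1.2.1, x.1.1.1.2.2, x.1.2, x.2, x.1.1.2.2) :
            Hist × Dt × ℕ × Option ℕ × Dt)) := by
        refine (hX.comp (Computable.fst.comp Computable.fst)).pair (Computable.pair ?_
          (Computable.pair ?_ (Computable.pair ?_ ?_)))
        · exact Computable.snd.comp (Computable.snd.comp (Computable.fst.comp
            (Computable.fst.comp Computable.fst)))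
        · exact Computable.snd.comp Computable.fst
        · exact Computable.snd
        · exact Computable.snd.comp (Computable.snd.comp (Computable.fst.comp Computable.fst))
      have hc := Pool.Agent.Helper806.RE.comp (p := fun p : Hist × Dt × ℕ × Option ℕ × Dt =>
        R p.1 p.2.1 p.2.2.1 p.2.2.2.1 p.2.2.2.2) hR hg
      exact hc
  · apply ex (p := fun (x : (ℕ × (Hist × Dt)) × (Hist × Dt)) (o : Option ℕ) => f x.1.1 = o ∧
      (o = none ∨ ∃ a : ℕ, o = some a ∧ a ∈ x.1.2.1.map Prod.fst) ∧ x.2 = x.1.2)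
    apply Pool.Agent.Helper806.RE.and
    · apply eq
      · exact hf.comp (Computable.fst.comp (Computable.fst.comp Computable.fst))
      · exact Computable.snd
    apply Pool.Agent.Helper806.RE.and
    · apply Pool.Agent.Helper806.RE.or
      · exact eq Computable.snd (Computable.const none)
      · apply exN (p := fun (x : ((ℕ × (Hist × Dt)) × (Hist × Dt)) × Option ℕ) a =>
          x.2 = some a ∧ a ∈ x.1.1.2.1.map Prod.fst)
        apply Pool.Agent.Helper806.RE.and
        · exact eq (Computable.snd.comp Computable.fst) (Computable.option_some.comp Computable.snd)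
        · apply mem_list Computable.snd
          exact hmap.comp (hX.comp (Computable.fst.comp Computable.fst))
    · exact eq (Computable.snd.comp Computable.fst)
        (Computable.snd.comp (Computable.fst.comp Computable.fst))

theorem exists_hist {P : Par} (hgeo : GeoStatement P)
    (hR : REPred (fun p : Hist × Dt × ℕ × Option ℕ × Dt =>
      Rmove P p.1 p.2.1 p.2.2.1 p.2.2.2.1 p.2.2.2.2))
    {f : ℕ → Option ℕ} (hf : Computable f) :
    ∃ H : ℕ → Hist × Dt, Computable H ∧ (H 0).1 = [] ∧ (∀ s, GoodL P (H s).1 (H s).2) ∧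
      ∀ s, (∃ a r, f s = some a ∧ a ∉ (H s).1.map Prod.fst ∧
          (H (s+1)).1 = (H s).1 ++ [(a, r)]) ∨
        ((∀ a, f s = some a → a ∈ (H s).1.map Prod.fst) ∧ (H (s+1)).1 = (H s).1) := by
  obtain ⟨g, hg, hgd, hgr⟩ := uniformize (r := stepR (Rmove P) f) (stepR_re hR hf)
  let init : Hist × Dt := ([], ([], []))
  let T : ℕ →. (Hist × Dt) := fun s => Nat.rec (Part.some init)
    (fun y IH => IH.bind fun i => g (y, i)) s
  have hT : Partrec T := by
    have h1 := Partrec.nat_rec (α := ℕ) (σ := Hist × Dt) (f := fun n => n)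
      (g := fun _ => Part.some init) (h := fun _ p => g p) Computable.id
      (Computable.const init).partrec (by
        exact hg.comp Computable.snd)
    exact h1
  have hT0 : T 0 = Part.some init := rfl
  have hTs : ∀ s, T (s+1) = (T s).bind fun i => g (s, i) := fun s => rfl
  -- the values exist
  have hstep : ∀ s (x : Hist × Dt), GoodL P x.1 x.2 → ∃ y ∈ g (s, x), GoodL P y.1 y.2 ∧
      ((∃ a r, f s = some a ∧ a ∉ x.1.map Prod.fst ∧ y.1 = x.1 ++ [(a, r)]) ∨
        ((∀ a, f s = some a → a ∈ x.1.map Prod.fst) ∧ y.1 = x.1)) := by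
    intro s x hx
    have hex : ∃ y, stepR (Rmove P) f (s, x) y := by
      rcases hfs : f s with _ | a
      · exact ⟨x, Or.inr ⟨none, hfs, Or.inl rfl, rfl⟩⟩
      · by_cases ha : a ∈ x.1.map Prod.fst
        · exact ⟨x, Or.inr ⟨some a, hfs, Or.inr ⟨a, rfl, ha⟩, rfl⟩⟩
        · obtain ⟨r, d', hrd⟩ := total hgeo hx.1 ha
          exact ⟨(x.1 ++ [(a, r)], d'), Or.inl ⟨a, hfs, ha, r, rfl, hrd⟩⟩
    have hdom := (hgd (s, x)).2 hex
    refine ⟨(g (s, x)).get hdom, Part.get_mem _, ?_⟩
    have hy := hgr (s, x) _ (Part.get_mem hdom)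
    rcases hy with ⟨a, h1, h2, ρ, h3, h4⟩ | ⟨o, h1, h2, h3⟩
    · simp only at h1 h2 h3 h4
      refine ⟨?_, Or.inl ⟨a, ρ, h1, h2, h3⟩⟩
      have := goodL_step hx h2 h4
      rw [h3]
      exact this
    · simp only at h1 h2 h3
      rw [h3]
      refine ⟨hx, Or.inr ⟨?_, rfl⟩⟩
      intro a ha
      rcases h2 with h2 | ⟨b, h2, h4⟩
      · rw [h2, ha] at h1; simp at h1
      · rw [ha, h2] at h1
        have : a = b := by simpa using h1
        rw [this]; exact h4
  have hval : ∀ s, ∃ x ∈ T s, GoodL P x.1 x.2 := by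
    intro s
    induction s with
    | zero => exact ⟨init, by rw [hT0]; exact Part.mem_some _, goodL_start⟩
    | succ s ih =>
      obtain ⟨x, hx, hxg⟩ := ih
      obtain ⟨y, hy, hyg, _⟩ := hstep s x hxg
      refine ⟨y, ?_, hyg⟩
      rw [hTs]
      exact Part.mem_bind hx hy
  choose H hH hHg using hval
  refine ⟨H, hT.of_eq_tot hH, ?_, hHg, ?_⟩
  · have h1 := hH 0
    rw [hT0, Part.mem_some_iff] at h1
    rw [h1]
  · intro s
    obtain ⟨y, hy, _, hyc⟩ := hstep s (H s) (hHg s)
    have h1 : y ∈ T (s+1) := by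
      rw [hTs]
      exact Part.mem_bind (hH s) hy
    have h2 := Part.mem_unique h1 (hH (s+1))
    rw [← h2]
    exact hyc

/-- the guess lemma (Helper699) -/
def GuessStatement : Prop := ∀ {X Y : ℕ → List ℕ} (_ : Computable X) (_ : Computable Y)
  (_ : ∀ s t, s ≤ t → ∀ i ∈ X s, i ∈ X t) (_ : ∀ s t, s ≤ t → ∀ i ∈ Y s, i ∈ Y t) (c : ℕ)
  (_ : ∀ n s, (∀ i < n, (∃ t, i ∈ X t) → i ∈ X s) → ∀ t, s ≤ t →
    ((List.range n).filter (fun i => decide (i ∈ Y t) && !decide (i ∈ Y s))).length ≤ c),
  ∃ φ : List Bool × ℕ →. List Bool, Partrec φ ∧ ∃ c : ℕ, ∀ n : ℕ, ∀ τ : List Bool,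
    τ.length = n → (∀ i < n, (τ.getD i false = true ↔ ∃ t, i ∈ X t)) →
    ∃ j ≤ c, ∃ σ ∈ φ (τ, j), σ.length = n ∧ ∀ i < n, (σ.getD i false = true ↔ ∃ t, i ∈ Y t)

/-- number of new elements below `n` -/
def newc (n : ℕ) (l l0 : List ℕ) : ℕ :=
  ((List.range n).filter (fun i => decide (i ∈ l) && !decide (i ∈ l0))).length

theorem newc_self (n : ℕ) (l : List ℕ) : newc n l l = 0 := by
  unfold newc
  rw [List.length_eq_zero_iff, List.filter_eq_nil_iff]
  intro a _
  simp

theorem newc_append (n : ℕ) (l l0 : List ℕ) (a : ℕ) :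
    newc n (l ++ [a]) l0 ≤ newc n l l0 + (if a < n then 1 else 0) := by
  have key : ∀ l l0 : List ℕ, newc n l l0 =
      ((Finset.range n).filter (fun i => i ∈ l ∧ i ∉ l0)).card := by
    intro l l0
    unfold newc
    rw [← List.toFinset_card_of_nodup (List.nodup_range.filter _)]
    congr 1
    ext i
    simp
  rw [key, key]
  split_ifs with han
  · have h1 : (Finset.range n).filter (fun i => i ∈ l ++ [a] ∧ i ∉ l0) ⊆
        insert a ((Finset.range n).filter (fun i => i ∈ l ∧ i ∉ l0)) := by
      intro i hi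
      simp only [Finset.mem_filter, Finset.mem_range, List.mem_append, List.mem_singleton,
        Finset.mem_insert] at hi ⊢
      tauto
    exact (Finset.card_le_card h1).trans (Finset.card_insert_le _ _)
  · rw [add_zero]
    apply Finset.card_le_card
    intro i hi
    simp only [Finset.mem_filter, Finset.mem_range, List.mem_append, List.mem_singleton] at hi ⊢
    refine ⟨hi.1, ?_, hi.2.2⟩
    rcases hi.2.1 with h | h
    · exact h
    · omega

theorem main_of {P : Par} (hgeo : GeoStatement P) (hguess : GuessStatement)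
    (hR : REPred (fun p : Hist × Dt × ℕ × Option ℕ × Dt =>
      Rmove P p.1 p.2.1 p.2.2.1 p.2.2.2.1 p.2.2.2.2)) :
    ∀ A : Set ℕ, REPred (fun n : ℕ => n ∈ A) →
      ∃ D : Set ℕ, REPred (fun n : ℕ => n ∈ D) ∧ (∀ n ∈ D, Even n) ∧
        (∃ φ : List Bool × ℕ →. List Bool, Partrec φ ∧ ∃ c : ℕ, ∀ n : ℕ, ∀ τ : List Bool,
          τ.length = n → (∀ i < n, (τ.getD i false = true ↔ i ∈ D)) →
          ∃ j ≤ c, ∃ σ ∈ φ (τ, j), σ.length = n ∧
            ∀ i < n, (σ.getD i false = true ↔ i ∈ A)) ∧
        (∃ ψ : List Bool × ℕ →. List Bool, Partrec ψ ∧ ∃ c : ℕ, ∀ n : ℕ, ∀ τ : List Bool,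
          τ.length = n → (∀ i < n, (τ.getD i false = true ↔ i ∈ A)) →
          ∃ j ≤ c, ∃ σ ∈ ψ (τ, j), σ.length = n ∧
            ∀ i < n, (σ.getD i false = true ↔ i ∈ D)) := by
  intro A hA
  obtain ⟨f, hf, hfA⟩ := exists_enumO hA
  obtain ⟨H, hH, hH0, hHg, hHs⟩ := exists_hist hgeo hR hf
  set X : ℕ → List ℕ := fun s => Mlist (H s).1 with hX
  set Y : ℕ → List ℕ := fun s => (H s).1.map Prod.fst with hY
  have hH1 : Computable (fun s => (H s).1) := Computable.fst.comp hH
  have hXc : Computable X := by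
    have h1 : Computable Mlist :=
      (Primrec.listFilterMap Primrec.id (Primrec.snd.comp Primrec.snd).to₂).to_comp
    exact h1.comp hH1
  have hYc : Computable Y := by
    have h1 : Computable (fun h : Hist => h.map Prod.fst) :=
      (Primrec.list_map Primrec.id (Primrec.fst.comp Primrec.snd).to₂).to_comp
    exact h1.comp hH1
  -- steps
  have hstepX : ∀ s, (X (s+1) = X s ∧ Y (s+1) = Y s ∧ (H (s+1)).1 = (H s).1) ∨
      ∃ a r, f s = some a ∧ a ∉ Y s ∧ X (s+1) = X s ++ r.toList ∧ Y (s+1) = Y s ++ [a] ∧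
        (H (s+1)).1 = (H s).1 ++ [(a, r)] := by
    intro s
    rcases hHs s with ⟨a, r, h1, h2, h3⟩ | ⟨_, h2⟩
    · right
      refine ⟨a, r, h1, h2, ?_, ?_, h3⟩
      · simp only [hX]; rw [h3, Mlist_append]
      · simp only [hY]; rw [h3, List.map_append]; rfl
    · left
      refine ⟨?_, ?_, h2⟩
      · simp only [hX]; rw [h2]
      · simp only [hY]; rw [h2]
  have hXm : ∀ s t, s ≤ t → ∀ i ∈ X s, i ∈ X t := by
    intro s t hst
    induction t, hst using Nat.le_induction with
    | base => exact fun i hi => hi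
    | succ t _ ih =>
      intro i hi
      rcases hstepX t with ⟨h1, _, _⟩ | ⟨a, r, _, _, h1, _, _⟩
      · rw [h1]; exact ih i hi
      · rw [h1]; exact List.mem_append_left _ (ih i hi)
  have hYm : ∀ s t, s ≤ t → ∀ i ∈ Y s, i ∈ Y t := by
    intro s t hst
    induction t, hst using Nat.le_induction with
    | base => exact fun i hi => hi
    | succ t _ ih =>
      intro i hi
      rcases hstepX t with ⟨_, h1, _⟩ | ⟨a, r, _, _, _, h1, _⟩
      · rw [h1]; exact ih i hi
      · rw [h1]; exact List.mem_append_left _ (ih i hi)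
  -- A is the union of the Y s
  have hAY : ∀ i, i ∈ A ↔ ∃ t, i ∈ Y t := by
    intro i
    constructor
    · intro hi
      obtain ⟨s, hs⟩ := (hfA i).1 hi
      refine ⟨s+1, ?_⟩
      rcases hHs s with ⟨a, r, h1, h2, h3⟩ | ⟨h1, h2⟩
      · simp only [hY]
        rw [h3, List.map_append, List.mem_append]
        right
        have : a = i := by rw [hs] at h1; simpa using h1.symm
        simp [this]
      · simp only [hY]
        rw [h2]; exact h1 i hs
    · rintro ⟨t, ht⟩
      induction t with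
      | zero => simp only [hY] at ht; rw [hH0] at ht; simp at ht
      | succ t ih =>
        rcases hstepX t with ⟨_, h1, _⟩ | ⟨a, r, h2, _, _, h1, _⟩
        · rw [h1] at ht; exact ih ht
        · rw [h1, List.mem_append] at ht
          rcases ht with ht | ht
          · exact ih ht
          · have : i = a := by simpa using ht
            rw [this]
            exact (hfA a).2 ⟨t, h2⟩
  -- counting
  have hcA : ∀ n s, (∀ i < n, (∃ t, i ∈ X t) → i ∈ X s) → ∀ t, s ≤ t →
      newc n (Y t) (Y s) ≤ (H t).1.foldl (cntA n) 0 := by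
    intro n s hns t hst
    induction t, hst using Nat.le_induction with
    | base => rw [newc_self]; exact Nat.zero_le _
    | succ t hst ih =>
      rcases hstepX t with ⟨_, h1, h2⟩ | ⟨a, r, _, ha, h3, h1, h2⟩
      · rw [h1, h2]; exact ih
      · rw [h1, h2, List.foldl_append]
        have h4 := newc_append n (Y t) (Y s) a
        have hr : ∀ e, r = some e → ¬ e < n := by
          intro e he hen
          have h5 : e ∈ X (t+1) := by rw [h3, he]; simp
          have h6 := hXm s t hst e (hns e hen ⟨t+1, h5⟩)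
          have h7 := (hHg (t+1)).2.2.1
          have h8 : Mlist (H (t+1)).1 = X t ++ [e] := by
            have : Mlist (H (t+1)).1 = X (t+1) := rfl
            rw [this, h3, he]; rfl
          rw [h8, List.nodup_append] at h7
          exact h7.2.2 e h6 e (by simp) rfl
        cases r with
        | none =>
          simp only [List.foldl_cons, List.foldl_nil, cntA]
          split_ifs at h4 ⊢ <;> omega
        | some e =>
          have h5 := hr e rfl
          simp only [List.foldl_cons, List.foldl_nil, cntA]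
          rw [if_neg h5]
          split_ifs at h4 ⊢ <;> omega
  have hcD : ∀ n s, (∀ i < n, (∃ t, i ∈ Y t) → i ∈ Y s) → ∀ t, s ≤ t →
      newc n (X t) (X s) ≤ (H t).1.foldl (cntD n) 0 := by
    intro n s hns t hst
    induction t, hst using Nat.le_induction with
    | base => rw [newc_self]; exact Nat.zero_le _
    | succ t hst ih =>
      rcases hstepX t with ⟨h1, _, h2⟩ | ⟨a, r, _, ha, h3, h1, h2⟩
      · rw [h1, h2]; exact ih
      · rw [h2, List.foldl_append]
        have han : ¬ a < n := by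
          intro han
          have h5 : a ∈ Y (t+1) := by rw [h1]; simp
          exact ha (hYm s t hst a (hns a han ⟨t+1, h5⟩))
        cases r with
        | none =>
          rw [h3]
          simp only [List.foldl_cons, List.foldl_nil, cntD, Option.toList_none, List.append_nil]
          rw [if_neg han]
          exact ih
        | some e =>
          have h4 := newc_append n (X t) (X s) e
          rw [h3]
          simp only [List.foldl_cons, List.foldl_nil, cntD, Option.toList_some]
          rw [if_neg han]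
          split_ifs at h4 ⊢ <;> omega
  obtain ⟨φ, hφ, c1, hφ1⟩ := hguess hXc hYc hXm hYm P.K (by
    intro n s hns t hst
    have h1 := hcA n s hns t hst
    rw [(hHg t).2.2.2.2.1 n] at h1
    have h2 := (hHg t).1.2 n
    exact h1.trans h2.le)
  obtain ⟨ψ, hψ, c2, hψ1⟩ := hguess hYc hXc hYm hXm 1 (by
    intro n s hns t hst
    have h1 := hcD n s hns t hst
    exact h1.trans ((hHg t).2.2.2.2.2.1 n))
  refine ⟨{e | ∃ t, e ∈ X t}, ?_, ?_, ⟨φ, hφ, c1, ?_⟩, ⟨ψ, hψ, c2, ?_⟩⟩
  · apply exN (p := fun (e : ℕ) t => e ∈ X t)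
    exact mem_list Computable.fst (hXc.comp Computable.snd)
  · rintro e ⟨t, ht⟩
    exact (hHg t).2.2.2.1 e ht
  · intro n τ h1 h2
    obtain ⟨j, hj, σ, hσ, h3, h4⟩ := hφ1 n τ h1 h2
    exact ⟨j, hj, σ, hσ, h3, fun i hi => (h4 i hi).trans (hAY i).symm⟩
  · intro n τ h1 h2
    obtain ⟨j, hj, σ, hσ, h3, h4⟩ := hψ1 n τ h1 (fun i hi => (h2 i hi).trans (hAY i))
    exact ⟨j, hj, σ, hσ, h3, h4⟩

end Pool.Agent.Helper542.RK
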