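import Pool.Agent.Helper542.RK.NonPayer
import Pool.Agent.Helper923.RK.Right

set_option autoImplicit false

namespace Pool.Agent.Helper542.RK

open Finset

variable {P : Par} {T : ℕ} {st : St}

theorem Phi_pristine (hb : Base P st) : ∀ i q, (∀ x ∈ win P i q, x ∉ st.M) →
    Phi P st i q ≤ P.phi i := by
  intro i
  induction i with
  | zero =>
    intro q h
    rw [Phi_zero, P.hphi0]
    have h1 : st.M ∩ win P 0 q = ∅ := by
      rw [Finset.eq_empty_iff_forall_notMem]
      intro x hx
      rw [Finset.mem_inter] at hx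
      exact h x hx.2 hx.1
    rw [h1]
    have h2 : 0 ≤ ∑ x ∈ (win P 0 q).filter (fun x => ¬ (x / P.L 0 < st.z x / P.L 0)), st.al x :=
      Finset.sum_nonneg (fun x _ => hb.al0 x)
    simp only [Finset.card_empty, Nat.cast_zero, zero_add]
    linarith
  | succ i ih =>
    intro q h
    rw [Phi_succ, P.hphi]
    have h1 : ∑ r ∈ kids P i q, F P st i r ≤ P.N i * P.f i (P.phi i) := by
      have h2 : ∀ r ∈ kids P i q, F P st i r ≤ P.f i (P.phi i) := by
        intro r hr
        apply P.f_mono i (hb.Phi_nonneg i r)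
        apply ih
        intro x hx
        apply h
        rw [mem_win] at hx ⊢
        rw [mem_kids] at hr
        rw [div_succ, hx, hr]
      have h3 := Finset.sum_le_card_nsmul _ _ _ h2
      rwa [nsmul_eq_mul, card_kids] at h3
    have h2 : 0 ≤ (∑ x ∈ (win P (i+1) q).filter (fun x => x / P.L i < st.z x / P.L i ∧
        ¬ (x / P.L (i+1) < st.z x / P.L (i+1))), st.al x * S P st (i+1) x) / P.gam (i+1) :=
      div_nonneg (Finset.sum_nonneg (fun x _ => mul_nonneg (hb.al0 x) (hb.S_pos _ x).le))
        (P.gam_pos _).le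
    have h3 : P.w i * (2 * ((P.Z i * P.L i : ℕ) : ℚ) - ((st.zc (i+1) q).card : ℚ)) ≤
        P.w i * (2 * ((P.Z i * P.L i : ℕ) : ℚ)) := by
      apply mul_le_mul_of_nonneg_left _ (P.w_pos i).le
      have : (0:ℚ) ≤ ((st.zc (i+1) q).card : ℚ) := Nat.cast_nonneg _
      linarith
    linarith

theorem out_lt_T (hI : Inv P T st) {p j : ℕ} (h : p / P.L j < st.z p / P.L j) : j < T := by
  by_contra hcon
  push Not at hcon
  have h1 : st.z p < P.L j := lt_of_lt_of_le (hI.z_lt p) (L_mono P hcon)
  rw [Nat.div_eq_of_lt h1] at h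
  exact absurd h (Nat.not_lt_zero _)

theorem Inv.raise (hI : Inv P T st) : Inv P (T+1) st := by
  have hb := hI.toBase
  have hL := L_mono P (Nat.le_succ T)
  refine { hb with M_lt := ?_, U_lt := ?_, z_lt := ?_, x_lt := ?_, J2 := ?_, J1z := ?_, pot := ?_ }
  · intro x hx; exact (hI.M_lt x hx).trans_le hL
  · intro x hx; exact (hI.U_lt x hx).trans_le hL
  · intro x; exact (hI.z_lt x).trans_le hL
  · intro x hx; exact (hI.x_lt x hx).trans_le hL
  · intro p l h1 h2
    have h3 : p / P.L 0 < st.z p / P.L 0 := by omega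
    have hz : 0 < st.z p := by
      rcases Nat.eq_zero_or_pos (st.z p) with h | h
      · rw [h, Nat.zero_div] at h3; exact absurd h3 (Nat.not_lt_zero _)
      · exact h
    have hp : p < P.L T := hI.x_lt p hz
    have hl : l < P.L T := (lt_of_div_lt h2).trans (hI.z_lt p)
    rw [S_succ, S_succ, Nat.div_eq_of_lt hp, Nat.div_eq_of_lt hl]
    have h4 := mul_le_mul_of_nonneg_left (hI.J2 p l h1 h2) (hb.Gpos T 0).le
    calc P.G2 * st.al p * (Gs P st T 0 * S P st T p) =
        Gs P st T 0 * (P.G2 * st.al p * S P st T p) := by ring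
      _ ≤ _ := h4
  · intro p j hj h
    have hjT := out_lt_T hI h
    have h1 := hI.J1z p j hj h
    have hz : 0 < st.z p := by
      rcases Nat.eq_zero_or_pos (st.z p) with h' | h'
      · rw [h', Nat.zero_div] at h; exact absurd h (Nat.not_lt_zero _)
      · exact h'
    have hp : p < P.L T := hI.x_lt p hz
    have hzT := hI.z_lt p
    have h2 : Pi' P st (j+1) (T+1) (st.z p) = Pi' P st (j+1) T (st.z p) * Gs P st T 0 := by
      unfold Pi'
      rw [Finset.prod_Ico_succ_top (by omega), Nat.div_eq_of_lt hzT]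
    rw [S_succ, Nat.div_eq_of_lt hp, h2]
    have h4 := mul_le_mul_of_nonneg_left h1 (hb.Gpos T 0).le
    calc st.al p * (Gs P st T 0 * S P st T p) =
        Gs P st T 0 * (st.al p * S P st T p) := by ring
      _ ≤ _ := h4
      _ = _ := by ring
  · rw [Phi_succ, P.hphi]
    have h1 : ∑ r ∈ kids P T 0, F P st T r ≤ P.N T * P.f T (P.phi T) := by
      have h2 : ∀ r ∈ kids P T 0, F P st T r ≤ P.f T (P.phi T) := by
        intro r hr
        apply P.f_mono T (hb.Phi_nonneg T r)
        rcases Nat.eq_zero_or_pos r with h | h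
        · rw [h]; exact hI.pot
        · apply Phi_pristine hb
          intro x hx hM
          have h3 := hI.M_lt x hM
          rw [mem_win, Nat.div_eq_of_lt h3] at hx
          omega
      have h3 := Finset.sum_le_card_nsmul _ _ _ h2
      rwa [nsmul_eq_mul, card_kids] at h3
    have h2 : 0 ≤ (∑ x ∈ (win P (T+1) 0).filter (fun x => x / P.L T < st.z x / P.L T ∧
        ¬ (x / P.L (T+1) < st.z x / P.L (T+1))), st.al x * S P st (T+1) x) / P.gam (T+1) :=
      div_nonneg (Finset.sum_nonneg (fun x _ => mul_nonneg (hb.al0 x) (hb.S_pos _ x).le))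
        (P.gam_pos _).le
    have h3 : P.w T * (2 * ((P.Z T * P.L T : ℕ) : ℚ) - ((st.zc (T+1) 0).card : ℚ)) ≤
        P.w T * (2 * ((P.Z T * P.L T : ℕ) : ℚ)) := by
      apply mul_le_mul_of_nonneg_left _ (P.w_pos T).le
      have : (0:ℚ) ≤ ((st.zc (T+1) 0).card : ℚ) := Nat.cast_nonneg _
      linarith
    linarith

theorem Inv.raise_le (hI : Inv P T st) {T' : ℕ} (h : T ≤ T') : Inv P T' st := by
  induction T', h using Nat.le_induction with
  | base => exact hI
  | succ T' _ ih => exact ih.raise

theorem L_gt (P : Par) (T : ℕ) : T < P.L T := by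
  induction T with
  | zero => exact P.hL0
  | succ T ih =>
    rw [P.hL]
    have h1 := P.hN T
    have h2 : P.L T * 2 ≤ P.L T * P.N T := Nat.mul_le_mul_left _ h1
    omega

/-- the initial state -/
def st0 : St := ⟨∅, ∅, fun _ => 0, fun _ => 0, fun _ _ => ∅⟩

theorem cntv_st0 (n : ℕ) : cntv st0 n = 0 := by
  unfold cntv
  rw [Finset.card_eq_zero, Finset.filter_eq_empty_iff]
  intro x hx
  rw [Finset.mem_range] at hx
  rintro ⟨_, h | h⟩
  · simp [st0] at h
  · simp [st0] at h; omega

theorem Inv.start (P : Par) : Inv P 0 st0 := by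
  have hb : Base P st0 := by
    refine ⟨?_, ?_, ?_, ?_, ?_, ?_, ?_, ?_⟩
    · intro x hx; rfl
    · intro x; exact le_rfl
    · intro x; simp [st0]
    · intro x _; rfl
    · intro x _; simp [st0]
    · intro p j _ h
      exfalso
      simp [st0] at h
    · intro i q x hx; simp [st0] at hx
    · intro n; rw [cntv_st0]; exact Nat.zero_le _
  refine { hb with M_lt := ?_, U_lt := ?_, z_lt := ?_, x_lt := ?_, J2 := ?_, J1z := ?_, pot := ?_ }
  · intro x hx; simp [st0] at hx
  · intro x hx; simp [st0] at hx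
  · intro x; exact P.hL0
  · intro x hx; simp [st0] at hx
  · intro p l _ h
    exfalso
    simp [st0] at h
  · intro p j _ h
    exfalso
    simp [st0] at h
  · apply Phi_pristine hb
    intro x _ hx
    simp [st0] at hx

/-- adding a token -/
def addTok (st : St) (a : ℕ) : St := { st with U := insert a st.U }

theorem PS_addTok (st : St) (a : ℕ) : ∀ i, PS P (addTok st a) i = PS P st i := by
  intro i
  induction i with
  | zero => rfl
  | succ i ih => simp only [PS, ih]; rfl

theorem Phi_addTok (st : St) (a i q : ℕ) : Phi P (addTok st a) i q = Phi P st i q := by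
  unfold Phi; rw [PS_addTok]
theorem S_addTok (st : St) (a i q : ℕ) : S P (addTok st a) i q = S P st i q := by
  unfold S; rw [PS_addTok]
theorem F_addTok (st : St) (a i q : ℕ) : F P (addTok st a) i q = F P st i q := by
  unfold F; rw [Phi_addTok]
theorem Gs_addTok (st : St) (a i q : ℕ) : Gs P (addTok st a) i q = Gs P st i q := by
  unfold Gs; rw [Phi_addTok]
theorem Pi_addTok (st : St) (a i T q : ℕ) : Pi' P (addTok st a) i T q = Pi' P st i T q := by
  unfold Pi'; exact Finset.prod_congr rfl (fun l _ => Gs_addTok st a l _)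

theorem Inv.move (hI : Inv P T st) {a : ℕ} (haT : a < P.L T) (haz : st.z a = 0)
    (hcnt : ∀ n, cntv (addTok st a) n ≤ P.K) : Inv P T (addTok st a) := by
  have hb : Base P (addTok st a) := by
    refine ⟨?_, hI.al0, hI.al1, hI.alz, hI.al2, ?_, hI.JZ, hcnt⟩
    · intro x hx
      rcases Finset.mem_insert.1 hx with rfl | h
      · exact haz
      · exact hI.Uz x h
    · intro p j hj h
      rw [S_addTok, F_addTok]
      exact hI.J1p p j hj h
  refine { hb with M_lt := hI.M_lt, U_lt := ?_, z_lt := hI.z_lt, x_lt := hI.x_lt,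
                   J2 := ?_, J1z := ?_, pot := ?_ }
  · intro x hx
    rcases Finset.mem_insert.1 hx with rfl | h
    · exact haT
    · exact hI.U_lt x h
  · intro p l h1 h2
    rw [S_addTok, S_addTok]
    exact hI.J2 p l h1 h2
  · intro p j hj h
    rw [S_addTok, F_addTok, Pi_addTok]
    exact hI.J1z p j hj h
  · rw [Phi_addTok]; exact hI.pot

end Pool.Agent.Helper542.RK
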