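import Pool.Agent.Helper542.RK.Setup

set_option autoImplicit false

namespace Pool.Agent.Helper542.RK

open Finset

variable {P : Par} {T : ℕ} {st : St}

theorem L_mono (P : Par) {i j : ℕ} (h : i ≤ j) : P.L i ≤ P.L j := by
  induction j, h using Nat.le_induction with
  | base => exact le_rfl
  | succ j _ ih => rw [P.hL]; exact ih.trans (Nat.le_mul_of_pos_right _ (P.Npos j))

theorem np_out (e p j : ℕ) (hU : p ∉ st.U) (h : p / P.L j < znew st e p / P.L j) :
    p / P.L j < st.z p / P.L j := by
  unfold znew at h
  rw [if_neg hU] at h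
  have := div_mono (P := P) j (min_le_left (st.z p) e)
  omega

theorem np_al2 (hI : Inv P T st) {e p : ℕ} (h : p / P.L 0 < znew st e p / P.L 0) :
    P.G2 * st.al p ≤ 1 := by
  by_cases hU : p ∈ st.U
  · rw [hI.alz p (hI.Uz p hU)]; simp
  · exact hI.al2 p (np_out e p 0 hU h)

theorem np_J2 (hI : Inv P T st) {e p l : ℕ} (h1 : p / P.L 0 ≤ l / P.L 0)
    (h2 : l / P.L 0 < znew st e p / P.L 0) :
    P.G2 * st.al p * S P st T p ≤ S P st T l := by
  by_cases hU : p ∈ st.U
  · rw [hI.alz p (hI.Uz p hU)]
    have := (hI.toBase.S_pos T l).le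
    simpa using this
  · apply hI.J2 p l h1
    unfold znew at h2
    rw [if_neg hU] at h2
    have := div_mono (P := P) 0 (min_le_left (st.z p) e)
    omega

theorem np_J1p (hI : Inv P T st) {e p j : ℕ} (hj : 1 ≤ j)
    (h : p / P.L j < znew st e p / P.L j) :
    st.al p * S P st (j+1) p ≤ P.eps j * F P st j (p / P.L j) := by
  by_cases hU : p ∈ st.U
  · rw [hI.alz p (hI.Uz p hU)]
    have h1 := (hI.toBase.Fpos j (p / P.L j)).le
    have h2 := (P.heps j).le
    have := mul_nonneg h2 h1
    simpa using this
  · exact hI.J1p p j hj (np_out e p j hU h)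

theorem np_J1z (hI : Inv P T st) {e p j : ℕ} (heT : e < P.L T) (hj : 1 ≤ j)
    (h : p / P.L j < znew st e p / P.L j) :
    st.al p * S P st T p ≤
      P.eps j * (F P st j (znew st e p / P.L j) * Pi' P st (j+1) T (znew st e p)) := by
  have hb := hI.toBase
  by_cases hU : p ∈ st.U
  · rw [hI.alz p (hI.Uz p hU)]
    have h1 := (hb.Fpos j (znew st e p / P.L j)).le
    have h2 := (P.heps j).le
    have h3 := (hb.Pi_pos (j+1) T (znew st e p)).le
    have := mul_nonneg h2 (mul_nonneg h1 h3)
    simpa using this
  · have hout := np_out e p j hU h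
    have hz := hI.J1z p j hj hout
    rcases le_total (st.z p) e with hze | hze
    · have : znew st e p = st.z p := by unfold znew; rw [if_neg hU, min_eq_left hze]
      rw [this]; exact hz
    · have hzn : znew st e p = e := by unfold znew; rw [if_neg hU, min_eq_right hze]
      rw [hzn] at h ⊢
      have hle := div_mono (P := P) j hze
      rcases eq_or_lt_of_le hle with heq | hlt
      · rw [heq, Pi_congr (div_eq_of_le (Nat.le_succ j) heq)]
        exact hz
      · -- the cold leaf of `E_j`
        have hjT : j < T := by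
          by_contra hcon
          push Not at hcon
          have h1 : st.z p < P.L j := lt_of_lt_of_le (hI.z_lt p) (L_mono P hcon)
          rw [Nat.div_eq_of_lt h1] at hlt
          exact absurd hlt (Nat.not_lt_zero _)
        obtain ⟨y, hy1, hy2, hy3⟩ := hI.cold j hjT.le e heT
        have hpy : p / P.L 0 ≤ y / P.L 0 := by
          have : p / P.L j < y / P.L j := by rw [hy1]; exact h
          exact (div_lt_anti (Nat.zero_le j) this).le
        have hyz : y / P.L 0 < st.z p / P.L 0 := by
          have : y / P.L j < st.z p / P.L j := by rw [hy1]; exact hlt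
          exact div_lt_anti (Nat.zero_le j) this
        have h1 := hI.J2 p y hpy hyz
        have h2 : S P st T y ≤ Cc P j * (P.lam j * F P st j (e / P.L j)) *
            Pi' P st (j+1) T e := by
          rw [S_split hjT.le y, Pi_split hjT, hy1,
            Pi_congr (div_eq_of_le (Nat.le_succ j) hy1)]
          have h3 := hb.Gle j (e / P.L j)
          have h4 := (hb.Pi_pos (j+1) T e).le
          have h5 := (hb.Gpos j (e / P.L j)).le
          have h6 := (Cc_pos P j).le
          calc S P st j y * (Gs P st j (e / P.L j) * Pi' P st (j+1) T e)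
              ≤ Cc P j * (Gs P st j (e / P.L j) * Pi' P st (j+1) T e) :=
                mul_le_mul_of_nonneg_right hy3 (mul_nonneg h5 h4)
            _ ≤ Cc P j * ((P.lam j * F P st j (e / P.L j)) * Pi' P st (j+1) T e) :=
                mul_le_mul_of_nonneg_left (mul_le_mul_of_nonneg_right h3 h4) h6
            _ = _ := by ring
        have h3 : P.lam j * Cc P j ≤ P.eps j * P.G2 := by
          obtain ⟨j', rfl⟩ : ∃ j', j = j' + 1 := ⟨j - 1, by omega⟩
          exact P.hJ2 j'
        have h4 : 0 ≤ F P st j (e / P.L j) * Pi' P st (j+1) T e :=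
          mul_nonneg (hb.Fpos _ _).le (hb.Pi_pos _ _ _).le
        have h5 := P.hG2
        have h6 : P.G2 * (st.al p * S P st T p) ≤
            P.G2 * (P.eps j * (F P st j (e / P.L j) * Pi' P st (j+1) T e)) := by
          have h7 := mul_le_mul_of_nonneg_right h3 h4
          calc P.G2 * (st.al p * S P st T p) = P.G2 * st.al p * S P st T p := by ring
            _ ≤ S P st T y := h1
            _ ≤ _ := h2
            _ = P.lam j * Cc P j * (F P st j (e / P.L j) * Pi' P st (j+1) T e) := by ring
            _ ≤ P.eps j * P.G2 * (F P st j (e / P.L j) * Pi' P st (j+1) T e) := h7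
            _ = _ := by ring
        exact le_of_mul_le_mul_left h6 h5

end Pool.Agent.Helper542.RK
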