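import Pool.Agent.Helper542.RK.NonPayer
import Pool.Agent.Helper542.RK.Chain

set_option autoImplicit false

namespace Pool.Agent.Helper542.RK

open Finset

variable {P : Par} {T : ℕ} {st : St}

theorem S_le_Cc (hb : Base P st) {y : ℕ} : ∀ i, (∀ l < i, F P st l (y / P.L l) ≤ P.a l) →
    S P st i y ≤ Cc P i := by
  intro i
  induction i with
  | zero => intro _; rw [S_zero]; simp [Cc]
  | succ i ih =>
    intro h
    have h1 := ih (fun l hl => h l (by omega))
    rw [S_succ, Cc_succ]
    have h4 := hb.Gle i (y / P.L i)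
    have h5 := (hb.Gpos i (y / P.L i)).le
    have h6 := (hb.S_pos i y).le
    have h7 := P.hlam i
    have h8 : Gs P st i (y / P.L i) ≤ P.lam i * P.a i :=
      h4.trans (mul_le_mul_of_nonneg_left (h i (by omega)) h7.le)
    calc Gs P st i (y / P.L i) * S P st i y ≤ (P.lam i * P.a i) * Cc P i :=
          mul_le_mul h8 h1 h6 (h5.trans h8)
      _ = Cc P i * (P.lam i * P.a i) := by ring

theorem S_congr {st : St} {i x y : ℕ} (h : x / P.L 0 = y / P.L 0) : S P st i x = S P st i y := by
  induction i with
  | zero => rw [S_zero, S_zero]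
  | succ i ih => rw [S_succ, S_succ, ih, div_eq_of_le (Nat.zero_le i) h]

/-- a free even number in the leaf of `y` -/
theorem exists_free_even (hI : Inv P T st) {y : ℕ} (hy : y < P.L T) :
    ∃ e, Even e ∧ e ∉ st.M ∧ e / P.L 0 = y / P.L 0 := by
  have hb := hI.toBase
  by_contra hcon
  push Not at hcon
  obtain ⟨h, hh⟩ := P.heven
  have hL := P.hL0
  set q := y / P.L 0 with hq
  have hinj : Set.InjOn (fun k => q * P.L 0 + 2 * k) (Finset.range h : Finset ℕ) := by
    intro a _ b _ hab
    simp only at hab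
    omega
  have hsub : (Finset.range h).image (fun k => q * P.L 0 + 2 * k) ⊆ st.M ∩ win P 0 q := by
    intro x hx
    rw [Finset.mem_image] at hx
    obtain ⟨k, hk, rfl⟩ := hx
    rw [Finset.mem_range] at hk
    have h1 : q * P.L 0 + 2 * k ∈ win P 0 q := by
      rw [win, Finset.mem_Ico]
      constructor
      · omega
      · have : (q+1) * P.L 0 = q * P.L 0 + P.L 0 := by ring
        omega
    rw [Finset.mem_inter]
    refine ⟨?_, h1⟩
    by_contra hM
    apply hcon (q * P.L 0 + 2 * k) _ hM (mem_win.1 h1)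
    rw [hh]
    exact ⟨q * h + k, by ring⟩
  have hcard := Finset.card_le_card hsub
  rw [Finset.card_image_of_injOn hinj, Finset.card_range] at hcard
  have h1 := hI.Phi_le 0 (Nat.zero_le T) y hy
  rw [← hq, Phi_zero, P.hphi0] at h1
  have h2 := Finset.sum_le_card_nsmul ((win P 0 q).filter
    (fun x => ¬ (x / P.L 0 < st.z x / P.L 0))) st.al (1/16) (fun x _ => hb.al1 x)
  rw [nsmul_eq_mul] at h2
  have h3 := Finset.card_filter_le (win P 0 q) (fun x => ¬ (x / P.L 0 < st.z x / P.L 0))
  rw [card_win] at h3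
  have h4 : ((((win P 0 q).filter (fun x => ¬ (x / P.L 0 < st.z x / P.L 0))).card : ℕ) : ℚ) ≤
    P.L 0 := by exact_mod_cast h3
  have h5 : (h : ℚ) ≤ ((st.M ∩ win P 0 q).card : ℚ) := by exact_mod_cast hcard
  have h6 : (P.L 0 : ℚ) = 2 * h := by rw [hh]; push_cast; ring
  have h7 : (0 : ℚ) < h := by
    have : 0 < h := by omega
    exact_mod_cast this
  linarith

theorem vis_lt (hI : Inv P T st) {n t : ℕ} (h : vis st n t) : t < P.L T := by
  obtain ⟨h1, h2⟩ := h
  rcases h2 with h2 | h2
  · exact hI.U_lt t h2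
  · exact hI.x_lt t (by omega)

theorem zone_reply (hI : Inv P T st) {n : ℕ} (u q t t' : ℕ) (ht : vis st n t) (ht' : vis st n t')
    (hne : t ≠ t') (hz : inZone P u q t) (hz' : inZone P u q t')
    (h1 : ∃ t1, vis st n t1 ∧ t1 < q * P.L (u+1))
    (h2 : ∃ t2, vis st n t2 ∧ (q+1) * P.L (u+1) ≤ t2) :
    ∃ e zc', Rd P T st e (fun _ => 0) zc' ∧ Even e ∧ q * P.L (u+1) ≤ e ∧
      e < (q+1) * P.L (u+1) ∧ u + 1 ≤ T ∧
      (∀ l < u+1, P.lam l * S P st l e ≤ 1 / 2 ^ (l+10)) ∧
      3/2 * S P st (u+1) e ≤ 9/20 * pay P st (fun _ => 0) (u+1) (e / P.L (u+1)) +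
        zoneJ P st e zc' u ∧
      zc' = fun i q' => if i = u+1 ∧ q' = q then insert t (insert t' (st.zc i q'))
        else st.zc i q' := by
  have hb := hI.toBase
  obtain ⟨t1, ht1, ht1q⟩ := h1
  obtain ⟨t2, ht2, ht2q⟩ := h2
  have ht2T := vis_lt hI ht2
  have hLu := P.Lpos (u+1)
  have huT : u + 1 < T := by
    by_contra hcon
    push Not at hcon
    have h3 := L_mono P hcon
    have h4 : P.L (u+1) ≤ (q+1) * P.L (u+1) := Nat.le_mul_of_pos_left _ (by omega)
    omega
  have hq0 : q * P.L (u+1) < P.L T := by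
    have : (q+1) * P.L (u+1) = q * P.L (u+1) + P.L (u+1) := by ring
    omega
  obtain ⟨y, hy1, hy2, hy3⟩ := hI.cold (u+1) huT.le (q * P.L (u+1)) hq0
  rw [Nat.mul_div_cancel _ hLu] at hy1
  have hyT : y < P.L T := by
    have h3 : y ∈ win P (u+1) q := mem_win.2 hy1
    rw [win, Finset.mem_Ico] at h3
    omega
  obtain ⟨e, heven, heM, hey⟩ := exists_free_even hI hyT
  have hediv : ∀ l, e / P.L l = y / P.L l := fun l => div_eq_of_le (Nat.zero_le l) hey
  have heq : e / P.L (u+1) = q := by rw [hediv, hy1]
  have hewin : e ∈ win P (u+1) q := mem_win.2 heq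
  rw [win, Finset.mem_Ico] at hewin
  have hepos : 0 < e := by
    have : 0 < q * P.L (u+1) := by omega
    omega
  have heT : e < P.L T := by omega
  have hen : e < n := by have := ht2.1; omega
  set zc' : ℕ → ℕ → Finset ℕ := fun i q' =>
    if i = u+1 ∧ q' = q then insert t (insert t' (st.zc i q')) else st.zc i q' with hzc
  have hznvis : ∀ s, vis st n s → znew st e s = e := by
    intro s hs
    unfold znew
    split_ifs with hU
    · rfl
    · rcases hs.2 with h3 | h3
      · exact absurd h3 hU
      · exact min_eq_right (by omega)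
  refine ⟨e, zc', ?_, heven, hewin.1, hewin.2, huT.le, ?_, ?_, rfl⟩
  · refine ⟨hI, hepos, heT, heM, fun _ => le_rfl, ?_, ?_, ?_, ?_, ?_, ?_, ?_, ?_, ?_, ?_, ?_⟩
    · intro x hx; exact absurd rfl hx
    · intro x; rw [add_zero]; exact hb.al1 x
    · intro p hp; rw [add_zero]; exact np_al2 hI hp
    · intro p l hp hl; rw [add_zero]; exact np_J2 hI hp hl
    · intro p j hj hp; rw [add_zero]; exact np_J1z hI heT hj hp
    · intro p j hj hp; rw [add_zero]; exact np_J1p hI hj hp
    · intro i q' x hx
      simp only [hzc]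
      split_ifs
      · exact Finset.mem_insert_of_mem (Finset.mem_insert_of_mem hx)
      · exact hx
    · intro i q' hq'
      simp only [hzc]
      rw [if_neg]
      rintro ⟨rfl, rfl⟩
      exact hq' heq.symm
    · intro i q' x hx
      have hold : x ∈ st.zc (i+1) q' → inZone P i q' x ∧ 0 < znew st e x ∧
          znew st e x < (q'+1) * P.L (i+1) := by
        intro hx'
        obtain ⟨h3, h4, h5⟩ := hI.JZ i q' x hx'
        have hU : x ∉ st.U := by
          intro hU; have := hI.Uz x hU; omega
        unfold znew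
        rw [if_neg hU]
        exact ⟨h3, lt_min h4 hepos, lt_of_le_of_lt (min_le_left _ _) h5⟩
      simp only [hzc] at hx
      split_ifs at hx with hcase
      · obtain ⟨hi, hq'⟩ := hcase
        have hi' : i = u := by omega
        subst hi'
        subst hq'
        rw [Finset.mem_insert, Finset.mem_insert] at hx
        rcases hx with rfl | rfl | hx
        · rw [hznvis _ ht]; exact ⟨hz, hepos, hewin.2⟩
        · rw [hznvis _ ht']; exact ⟨hz', hepos, hewin.2⟩
        · exact hold hx
      · exact hold hx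
    · intro q' _
      simp [pay]
    · intro i q' _
      simp [pay]
  · intro l hl
    have h3 : S P st l e ≤ Cc P l := by
      rw [S_congr hey]
      exact S_le_Cc hb l (fun l' hl' => hy2 l' (by omega))
    have h4 := mul_le_mul_of_nonneg_left h3 (P.hlam l).le
    refine h4.trans ?_
    cases l with
    | zero => simpa [Cc] using P.hlam0
    | succ j =>
      refine (P.hlamw j).trans ?_
      rw [div_le_div_iff_of_pos_left (by norm_num) (by positivity) (by positivity)]
      exact pow_le_pow_right₀ (by norm_num) (by omega)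
  · have hnot : ∀ s, vis st n s → s ∉ st.zc (u+1) q := by
      intro s hs hs'
      obtain ⟨_, h4, h5⟩ := hI.JZ u q s hs'
      rcases hs.2 with h3 | h3
      · have := hI.Uz s h3; omega
      · have := ht2.1; omega
    unfold zoneJ
    rw [heq]
    have hcard : (zc' (u+1) q).card = (st.zc (u+1) q).card + 2 := by
      simp only [hzc]
      rw [if_pos (by simp)]
      rw [Finset.card_insert_of_notMem, Finset.card_insert_of_notMem (hnot t' ht')]
      rw [Finset.mem_insert]
      rintro (h3 | h3)
      · exact hne h3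
      · exact hnot t ht h3
    rw [hcard]
    have h3 : S P st (u+1) e ≤ P.w u := by
      rw [S_congr hey]
      exact hy3
    have h4 : pay P st (fun _ => 0) (u+1) q = 0 := by simp [pay]
    rw [h4]
    push_cast
    have := P.w_pos u
    linarith

end Pool.Agent.Helper542.RK
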