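import Pool.Agent.Helper542.RK.Inherit
import Pool.Agent.Helper542.RK.Zone
import Pool.Agent.Helper542.RK.Moves
import Pool.Agent.Helper923.RK.Main

set_option autoImplicit false

namespace Pool.Agent.Helper542.RK

open Finset

variable {P : Par} {T : ℕ} {st : St} {e : ℕ} {v : ℕ → ℚ} {zc' : ℕ → ℕ → Finset ℕ}

theorem Rd.fx (h : Rd P T st e v zc') : Fx P T st e v zc' := by
  refine ⟨h, h.nst_base, ?_, ?_, fun l => rho_le_one l, fun l => rho_nonneg l,
    fun l x => h.bet_nonneg l x, ?_, ?_, ?_, ?_⟩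
  · intro i q hq; exact h.nst_left_Phi hq
  · intro i x hx; exact h.nst_left_S hx
  · intro l x hl hx; exact bet_const hl hx
  · intro l hl hlT; exact h.rho_Gs hl hlT
  · intro l hl hlT
    rw [h.rho_eq hl hlT]
    have h1 := h.hI.toBase.Fpos l (e / P.L l)
    have h2 := h.nst_base.Fpos l (e / P.L l)
    rcases le_total (F P (nst P T st e v zc') l (e / P.L l)) (F P st l (e / P.L l)) with h3 | h3
    · rw [min_eq_right ((div_le_one h1).2 h3), max_eq_right (by linarith)]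
      field_simp
    · rw [min_eq_left ((one_le_div h1).2 h3), max_eq_left (by linarith)]
      ring
  · intro i hi y hy hey
    have hb : ∀ x, e / P.L 0 < x / P.L 0 → bet P st e v zc' T x = st.al x + v x := by
      intro x hx
      have := bet_const (P := P) (st := st) (e := e) (v := v) (zc' := zc') (Nat.zero_le T) hx.le
      rw [this]; rfl
    exact right_F h (bet P st e v zc' T) hb h.nst_base hi.le hy hey

theorem Rd.final (h : Rd P T st e v zc') {c : ℕ} (hc : c + 1 ≤ T)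
    (hS : ∀ l < c + 1, P.lam l * S P st l e ≤ 1 / 2 ^ (l+10))
    (hpay : 3/2 * S P st (c+1) e ≤ 9/20 * pay P st v (c+1) (e / P.L (c+1)) +
      zoneJ P st e zc' c) : Inv P T (nst P T st e v zc') :=
  h.nst_inv ((chain_final h.fx hc hS hpay).trans h.hI.pot)

/-- output of the geometry lemma -/
def GeoStatement (P : Par) : Prop := ∀ (T : Finset ℕ), P.K ≤ T.card →
  (∃ u q t t', t ∈ T ∧ t' ∈ T ∧ t ≠ t' ∧ inZone P u q t ∧ inZone P u q t' ∧
    (∃ t1 ∈ T, t1 < q * P.L (u+1)) ∧ (∃ t2 ∈ T, (q+1) * P.L (u+1) ≤ t2)) ∨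
  (∃ c a b, 1 ≤ c ∧ a < b ∧ P.L 0 ∣ a ∧ P.L 0 ∣ b ∧ (∃ t1 ∈ T, t1 < a) ∧ (∃ t2 ∈ T, b ≤ t2) ∧
    (∀ x, a ≤ x → x < b → x / P.L c = a / P.L c) ∧
    P.k ≤ (T.filter (fun x => a ≤ x ∧ x < b)).card ∧
    (∀ x, a ≤ x → x < b → ∀ j, j + 1 < c → ∃ y0, P.L j ∣ y0 ∧ a ≤ y0 ∧
      y0 + P.Z j * P.L j ≤ b ∧
      ∀ y, y0 ≤ y → y < y0 + P.Z j * P.L j → y / P.L (j+1) = x / P.L (j+1)))

/-- zone tokens added by a list -/
def addz (zc : ℕ → ℕ → Finset ℕ) (l : List (ℕ × ℕ × ℕ)) (i q : ℕ) : Finset ℕ :=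
  zc i q ∪ ((l.filter (fun p => p.1 = i ∧ p.2.1 = q)).map (fun p => p.2.2)).toFinset

/-- the round with explicit form of the new zone counts -/
theorem round_of_geo (hgeo : GeoStatement P) (hI : Inv P T st) {n : ℕ} (hn : cntv st n = P.K) :
      ∃ (e : ℕ) (al' : ℕ → ℚ) (zl : List (ℕ × ℕ × ℕ)),
        Even e ∧ 0 < e ∧ e ∉ st.M ∧ (∃ t, vis st n t ∧ t ≤ e) ∧ (∃ t, vis st n t ∧ e < t) ∧
        Inv P T (reply st e al' (addz st.zc zl)) := by
  rcases hgeo ((Finset.range n).filter (fun x => vis st n x)) (le_of_eq hn.symm) with h | h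
  · obtain ⟨u, q, t, t', ht, ht', hne, hz, hz', ⟨t1, ht1, ht1q⟩, ⟨t2, ht2, ht2q⟩⟩ := h
    rw [Finset.mem_filter] at ht ht' ht1 ht2
    obtain ⟨e, zc', hRd, h1, h2, h3, h4, h5, h6, h7⟩ :=
      zone_reply hI u q t t' ht.2 ht'.2 hne hz hz' ⟨t1, ht1.2, ht1q⟩ ⟨t2, ht2.2, ht2q⟩
    have h8 : zc' = addz st.zc [(u+1, q, t), (u+1, q, t')] := by
      rw [h7]
      funext i q'
      unfold addz
      by_cases hc : i = u+1 ∧ q' = q
      · obtain ⟨rfl, rfl⟩ := hc
        ext x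
        simp

      · rw [if_neg hc]
        have h9 : ([(u+1, q, t), (u+1, q, t')] : List (ℕ × ℕ × ℕ)).filter
            (fun p => p.1 = i ∧ p.2.1 = q') = [] := by
          rw [List.filter_eq_nil_iff]
          intro p hp
          simp only [List.mem_cons, List.not_mem_nil, or_false] at hp
          rcases hp with rfl | rfl
          · simp only [decide_eq_true_eq]
            rintro ⟨h10, h11⟩
            exact hc ⟨h10.symm, h11.symm⟩
          · simp only [decide_eq_true_eq]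
            rintro ⟨h10, h11⟩
            exact hc ⟨h10.symm, h11.symm⟩
        rw [h9]
        simp
    rw [h8] at hRd h6
    refine ⟨e, bet P st e (fun _ => 0) (addz st.zc [(u+1, q, t), (u+1, q, t')]) T,
      [(u+1, q, t), (u+1, q, t')], h1, hRd.e0, hRd.eM, ⟨t1, ht1.2, by omega⟩,
      ⟨t2, ht2.2, by omega⟩, hRd.final h4 h5 h6⟩
  · obtain ⟨c, a, b, hc, hab, ha, hb, ⟨t1, ht1, ht1a⟩, ⟨t2, ht2, ht2b⟩, hw, hk, hg⟩ := h
    rw [Finset.mem_filter] at ht1 ht2
    obtain ⟨e, v, c', hRd, h1, h2, h3, h4, h5, h6⟩ := main_reply hI c a b hc hab ha hb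
      ⟨t1, ht1.2, ht1a⟩ ⟨t2, ht2.2, ht2b⟩ hw hk hg
    have h7 : addz st.zc [] = st.zc := by
      funext i q
      simp [addz]
    refine ⟨e, bet P st e v st.zc T, [], h1, hRd.e0, hRd.eM, ⟨t1, ht1.2, by omega⟩,
      ⟨t2, ht2.2, by omega⟩, ?_⟩
    rw [h7]
    refine hRd.final h4 h5 (h6.trans ?_)
    have := zoneJ_nonneg hRd.fx c'
    linarith

end Pool.Agent.Helper542.RK
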