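import Pool.Agent.Helper542.RK.Basic

set_option autoImplicit false

namespace Pool.Agent.Helper542.RK

open Finset

variable (P : Par)

/-- amounts flowing out of the window `q` of class `i` -/
def flow (st : St) (i q : ℕ) : ℚ :=
  (∑ x ∈ (win P i q).filter (fun x => x / P.L i < st.z x / P.L i), st.al x * S P st i x) / P.gam i

/-- value of the payments `v` in the window `q` of class `i` -/
def pay (st : St) (v : ℕ → ℚ) (i q : ℕ) : ℚ := ∑ x ∈ win P i q, v x * S P st i x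

def cc (i : ℕ) : ℚ := 1 / 2 + 1 / 2 ^ (i + 1)

/-- token `x` (left of `E_l`) watches the window `E_l` of class `l` of the reply `e` -/
def watch (st : St) (e l x : ℕ) : Prop :=
  x / P.L l < e / P.L l ∧ znew st e x / P.L l = e / P.L l

instance (st : St) (e l x : ℕ) : Decidable (watch P st e l x) := by unfold watch; infer_instance

/-- refund factor computed from amounts `b` -/
def rhoF (st : St) (e : ℕ) (zc' : ℕ → ℕ → Finset ℕ) (b : ℕ → ℚ) (l : ℕ) : ℚ :=
  if l = 0 then 1 else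
    min 1 (max 0 (F P (reply st e b zc') l (e / P.L l) / F P st l (e / P.L l)))

/-- the amounts after the refunds of the classes `< l` -/
def bet (st : St) (e : ℕ) (v : ℕ → ℚ) (zc' : ℕ → ℕ → Finset ℕ) : ℕ → ℕ → ℚ
  | 0 => fun x => st.al x + v x
  | (l+1) => fun x => if watch P st e l x then
        bet st e v zc' l x * rhoF P st e zc' (bet st e v zc' l) l
      else bet st e v zc' l x

def rho (st : St) (e : ℕ) (v : ℕ → ℚ) (zc' : ℕ → ℕ → Finset ℕ) (l : ℕ) : ℚ :=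
  rhoF P st e zc' (bet P st e v zc' l) l

/-- the new state -/
def nst (T : ℕ) (st : St) (e : ℕ) (v : ℕ → ℚ) (zc' : ℕ → ℕ → Finset ℕ) : St :=
  reply st e (bet P st e v zc' T) zc'

/-- hypotheses on the reply `e` with payments `v` and zone counts `zc'` -/
structure Rd (T : ℕ) (st : St) (e : ℕ) (v : ℕ → ℚ) (zc' : ℕ → ℕ → Finset ℕ) : Prop where
  hI : Inv P T st
  e0 : 0 < e
  eT : e < P.L T
  eM : e ∉ st.M
  v0 : ∀ x, 0 ≤ v x
  vtok : ∀ x, v x ≠ 0 → x / P.L 0 ≠ e / P.L 0 ∧ znew st e x = e ∧ x < P.L T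
  b1 : ∀ x, st.al x + v x ≤ 1 / 16
  al2 : ∀ p, p / P.L 0 < znew st e p / P.L 0 → P.G2 * (st.al p + v p) ≤ 1
  J2 : ∀ p l, p / P.L 0 ≤ l / P.L 0 → l / P.L 0 < znew st e p / P.L 0 →
    P.G2 * (st.al p + v p) * S P st T p ≤ S P st T l
  J1z : ∀ p j, 1 ≤ j → p / P.L j < znew st e p / P.L j →
    (st.al p + v p) * S P st T p ≤
      P.eps j * (F P st j (znew st e p / P.L j) * Pi' P st (j+1) T (znew st e p))
  J1p : ∀ p j, 1 ≤ j → p / P.L j < znew st e p / P.L j →
    (st.al p + v p) * S P st (j+1) p ≤ P.eps j * F P st j (p / P.L j)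
  zsub : ∀ i q, st.zc i q ⊆ zc' i q
  zeq : ∀ i q, q ≠ e / P.L i → zc' i q = st.zc i q
  JZ : ∀ i q x, x ∈ zc' (i+1) q →
    inZone P i q x ∧ 0 < znew st e x ∧ znew st e x < (q+1) * P.L (i+1)
  pay0 : ∀ q, e / P.L 0 < q → P.lam 0 * pay P st v 0 q ≤ 1 / 8
  pay1 : ∀ i q, e / P.L (i+1) < q → P.lam (i+1) * pay P st v (i+1) q ≤ 1 / 2 ^ (i + 12)

end Pool.Agent.Helper542.RK
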